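import Pool.Agent.Work.MP_b44cb1_al.Kit

/-!
# Law  (size S)  : laws and elementary abelian Sylow subgroups pass to subgroups and quotients
-/

set_option autoImplicit false

namespace Pool.Agent.Work.MP_b44cb1_al

open Subgroup
open scoped commutatorElement

variable {G : Type*} [Group G]

theorem law_sub {r s : ℕ} (h : Law r s G) (H : Subgroup G) : Law r s H := by
  intro x y
  apply H.subtype_injective
  rw [map_phi_iter, map_phi_iter]
  exact h _ _

theorem law_quot {r s : ℕ} (h : Law r s G) (N : Subgroup G) [N.Normal] : Law r s (G ⧸ N) := by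
  intro x y
  obtain ⟨x, rfl⟩ := QuotientGroup.mk'_surjective N x
  obtain ⟨y, rfl⟩ := QuotientGroup.mk'_surjective N y
  rw [← map_phi_iter, ← map_phi_iter, h x y]

theorem ea_sub (h : EA G) (H : Subgroup G) : EA H := by
  intro p hp P hP
  obtain ⟨h1, h2⟩ := h p hp (P.map H.subtype) (hP.map H.subtype)
  refine ⟨fun a ha b hb => ?_, fun a ha => ?_⟩
  · apply H.subtype_injective
    exact h1 _ (Subgroup.mem_map_of_mem _ ha) _ (Subgroup.mem_map_of_mem _ hb)
  · apply H.subtype_injective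
    rw [map_pow, map_one]
    exact h2 _ (Subgroup.mem_map_of_mem _ ha)

theorem ea_quot [Finite G] (h : EA G) (N : Subgroup G) [N.Normal] : EA (G ⧸ N) := by
  intro p hp P hP
  haveI : Fact p.Prime := ⟨hp⟩
  obtain ⟨S, hS⟩ := hP.exists_le_sylow
  obtain ⟨Q, hQ⟩ := Sylow.mapSurjective_surjective (QuotientGroup.mk'_surjective N) p S
  obtain ⟨h1, h2⟩ := h p hp Q Q.isPGroup'
  have hSQ : ∀ a ∈ (S : Subgroup (G ⧸ N)), ∃ b ∈ (Q : Subgroup G), QuotientGroup.mk' N b = a := by
    intro a ha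
    have : a ∈ ((Q : Subgroup G).map (QuotientGroup.mk' N)) := by
      have e : ((Q.mapSurjective (QuotientGroup.mk'_surjective N) : Sylow p (G ⧸ N)) :
        Subgroup (G ⧸ N)) = (Q : Subgroup G).map (QuotientGroup.mk' N) := rfl
      rw [← e, hQ]; exact ha
    exact this
  refine ⟨fun a ha b hb => ?_, fun a ha => ?_⟩
  · obtain ⟨a, haQ, rfl⟩ := hSQ a (hS ha)
    obtain ⟨b, hbQ, rfl⟩ := hSQ b (hS hb)
    rw [← map_mul, ← map_mul, h1 a haQ b hbQ]
  · obtain ⟨a, haQ, rfl⟩ := hSQ a (hS ha)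
    rw [← map_pow, h2 a haQ, map_one]

end Pool.Agent.Work.MP_b44cb1_al
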