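import Pool.Agent.Work.MP_b44cb1_al.CopKit

/-!
# FixRep  (size S-M)  : representatives centralised by `Y`
-/

set_option autoImplicit false

namespace Pool.Agent.Work.MP_b44cb1_al

open Subgroup
open scoped commutatorElement

variable {G : Type*} [Group G]

theorem fixrep [Finite G] {α : Type*} [MulAction G α] (W Y : Subgroup G) (x : α)
    (hW : Cz W W) (hn : Nz Y W) (hc : (Nat.card W).Coprime (Nat.card Y))
    (hx : ∀ y ∈ Y, ∀ u ∈ W, y • (u • x) = u • x) :
    ∀ u ∈ W, ∃ c ∈ W, (∀ y ∈ Y, y * c = c * y) ∧ u • x = c • x := by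
  classical
  letI := czComm hW
  letI : MulDistribMulAction Y W := cjAct hn
  haveI := Fintype.ofFinite Y
  let N : Subgroup W := (MulAction.stabilizer G x).subgroupOf W
  have hmem : ∀ w : W, w ∈ N ↔ (w : G) • x = x := fun w => by
    rw [Subgroup.mem_subgroupOf, MulAction.mem_stabilizer_iff]
  have hx1 : ∀ y ∈ Y, y • x = x := by
    intro y hy
    have := hx y hy 1 (one_mem _)
    rwa [one_smul] at this
  have hsm : ∀ (b : Y) (w : W), ((b • w : W) : G) • x = (w : G) • x := by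
    intro b w
    show ((b : G) * w * (b : G)⁻¹) • x = _
    have h1 : (b : G)⁻¹ • x = x := by rw [inv_smul_eq_iff, hx1 b b.2]
    rw [mul_smul, mul_smul, h1, hx b b.2 w w.2]
  have hmk : ∀ a b : W, (QuotientGroup.mk a : W ⧸ N) = QuotientGroup.mk b ↔
      (a : G) • x = (b : G) • x := by
    intro a b
    rw [QuotientGroup.eq, hmem]
    have e : ((a⁻¹ * b : W) : G) = (a : G)⁻¹ * b := rfl
    rw [e, mul_smul, inv_smul_eq_iff]
    exact eq_comm
  intro u hu
  obtain ⟨t, ht⟩ := cop_exp (A := W) (Nat.card Y) hc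
  set v : W := ∏ y : Y, y • (⟨u, hu⟩ : W) with hv
  have hfix : ∀ y : Y, y • v = v := fun y => norm_fixed_abs (⟨u, hu⟩ : W) y
  have hmv : (QuotientGroup.mk v : W ⧸ N) = QuotientGroup.mk ((⟨u, hu⟩ : W) ^ Nat.card Y) := by
    have h1 : (QuotientGroup.mk v : W ⧸ N) = QuotientGroup.mk' N v := rfl
    rw [h1, hv, map_prod]
    have h2 : ∀ y : Y, QuotientGroup.mk' N (y • (⟨u, hu⟩ : W)) = QuotientGroup.mk' N ⟨u, hu⟩ := by
      intro y
      exact (hmk _ _).2 (hsm y _)
    rw [Finset.prod_congr rfl (fun y _ => h2 y), Finset.prod_const, Finset.card_univ,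
      ← Nat.card_eq_fintype_card, ← map_pow]
    rfl
  refine ⟨(v ^ t : W), (v ^ t).2, fun y hy => ?_, ?_⟩
  · have h1 : (⟨y, hy⟩ : Y) • (v ^ t) = v ^ t := by rw [smul_pow', hfix]
    have h2 : y * ((v ^ t : W) : G) * y⁻¹ = ((v ^ t : W) : G) := congrArg Subtype.val h1
    rwa [mul_inv_eq_iff_eq_mul] at h2
  · have h1 : (QuotientGroup.mk (v ^ t) : W ⧸ N) = QuotientGroup.mk (⟨u, hu⟩ : W) := by
      rw [QuotientGroup.mk_pow, hmv, ← QuotientGroup.mk_pow, ← pow_mul, ht]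
    rw [hmk] at h1
    exact h1.symm

theorem fixrep_cj [Finite G] (W Y U : Subgroup G)
    (hW : Cz W W) (hn : Nz Y W) (hc : (Nat.card W).Coprime (Nat.card Y))
    (hx : ∀ y ∈ Y, ∀ u ∈ W, cj y (cj u U) = cj u U) :
    ∀ u ∈ W, ∃ c ∈ W, (∀ y ∈ Y, y * c = c * y) ∧ cj u U = cj c U := by
  letI : MulAction G (Subgroup G) := { smul := cj, one_smul := cj_one, mul_smul := cj_mul }
  exact fixrep W Y U hW hn hc hx

end Pool.Agent.Work.MP_b44cb1_al
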