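import Pool.Agent.Work.MP_b44cb1_al.TowerBasic
import Pool.Agent.Work.MP_b44cb1_al.FixRep

/-!
# AbFix  (size S-M)  : from single layers to the whole orbit
-/

set_option autoImplicit false

namespace Pool.Agent.Work.MP_b44cb1_al

open Subgroup
open scoped commutatorElement

variable {G : Type*} [Group G] {P : ℕ → Subgroup G} {p : ℕ → ℕ} {n : ℕ}

/-- The stabiliser of `U` in `Y`. -/
def stabSub (Y U : Subgroup G) : Subgroup G where
  carrier := {y | y ∈ Y ∧ cj y U = U}
  one_mem' := ⟨one_mem _, cj_one U⟩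
  mul_mem' := by
    rintro y y' ⟨hy, e⟩ ⟨hy', e'⟩
    exact ⟨mul_mem hy hy', by rw [cj_mul, e', e]⟩
  inv_mem' := by
    rintro y ⟨hy, e⟩
    refine ⟨inv_mem hy, ?_⟩
    have := cj_inv_cj y U
    rwa [e] at this

theorem ab_fix [Finite G] (T : Tower P p n) {b c : ℕ} (hbn : b < n) (hcb : c < b)
    (Y U : Subgroup G) (hY : Y ≤ Gs P c)
    (H : ∀ e, c ≤ e → e < b - 1 → ∀ y ∈ Y, cj y U = U → ∀ v ∈ P e, cj y (cj v U) = cj v U) :
    ∀ y ∈ Y, cj y U = U → ∀ m ∈ NN P c (b - 1), cj y (cj m U) = cj m U := by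
  have key : ∀ d e, e + d = b - 1 → c ≤ e → ∀ y ∈ Y, cj y U = U →
      ∀ m ∈ NN P e (b - 1), cj y (cj m U) = cj m U := by
    intro d
    induction d with
    | zero =>
      intro e he hce y hy hyU m hm
      have h1 : NN P e (b - 1) = ⊥ := by
        unfold NN
        have : Finset.Ico e (b - 1) = ∅ := by
          rw [Finset.Ico_eq_empty_iff]; omega
        rw [this]; simp
      rw [h1, Subgroup.mem_bot] at hm
      rw [hm, cj_one, hyU]
    | succ d ih =>
      intro e he hce y hy hyU m hm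
      have hen : e < n := by omega
      obtain ⟨m', hm', v, hv, rfl⟩ := T.nn_split (c := e) (d := b - 1) (by omega) (by omega) hm
      have hSY : stabSub Y U ≤ Y := fun z hz => hz.1
      have hSe : stabSub Y U ≤ Gs P e := (hSY.trans hY).trans (gs_mono P hce)
      obtain ⟨c', hc', hcc, hcv⟩ := fixrep_cj (P e) (stabSub Y U) U (T.comm e hen)
        ((T.gs_nz le_rfl hen).mono hSe) (T.cop_card hen _ hSe)
        (fun z hz u hu => H e hce (by omega) z hz.1 hz.2 u hu) v hv
      have hc'b : c' ∈ Gs P (b - 1) := le_gs P (by omega) hc'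
      have hm'' : c'⁻¹ * m' * c' ∈ NN P (e + 1) (b - 1) := by
        have := T.nn_nz (c := e + 1) (d := b - 1) (by omega) (by omega) c'⁻¹ (inv_mem hc'b) m' hm'
        simpa using this
      have e1 : cj (m' * v) U = cj c' (cj (c'⁻¹ * m' * c') U) := by
        rw [cj_mul m' v, hcv, ← cj_mul, ← cj_mul]
        congr 1
        group
      have e2 := ih (e + 1) (by omega) (by omega) y hy hyU _ hm''
      rw [e1, ← cj_mul y c', hcc y ⟨hy, hyU⟩, cj_mul c' y, e2]
  exact fun y hy hyU m hm => key (b - 1 - c) c (by omega) le_rfl y hy hyU m hm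

end Pool.Agent.Work.MP_b44cb1_al
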