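import Pool.Agent.Work.MP_b44cb1_al.CopKit

/-!
# Block  (size M)  : a point of a `W`-orbit with smallest possible stabiliser in `B`
-/

set_option autoImplicit false

namespace Pool.Agent.Work.MP_b44cb1_al

open Subgroup
open scoped commutatorElement

variable {G : Type*} [Group G]

theorem block [Finite G] {α : Type*} [MulAction G α] (W B : Subgroup G) (x : α)
    (hW : Cz W W) (hB : Cz B B) (hn : Nz B W) (hc : (Nat.card W).Coprime (Nat.card B))
    (hx : ∀ b ∈ B, b • x = x) :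
    ∃ z ∈ W, ∀ b ∈ B, b • (z • x) = z • x → ∀ u ∈ W, b • (u • x) = u • x := by
  classical
  letI := czComm hW
  letI iB := czComm hB
  letI : MulDistribMulAction B W := cjAct hn
  let N : Subgroup W := (MulAction.stabilizer G x).subgroupOf W
  have hmem : ∀ w : W, w ∈ N ↔ (w : G) • x = x := fun w => by
    rw [Subgroup.mem_subgroupOf, MulAction.mem_stabilizer_iff]
  have hsm : ∀ (b : B) (w : W), ((b • w : W) : G) • x = (b : G) • (w : G) • x := by
    intro b w
    show ((b : G) * w * (b : G)⁻¹) • x = _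
    have h1 : (b : G)⁻¹ • x = x := by rw [inv_smul_eq_iff, hx b b.2]
    rw [mul_smul, mul_smul, h1]
  have hN : ∀ b : B, ∀ w ∈ N, b • w ∈ N := by
    intro b w hw
    rw [hmem] at hw ⊢
    rw [hsm, hw, hx b b.2]
  have hmk : ∀ a b : W, (QuotientGroup.mk a : W ⧸ N) = QuotientGroup.mk b ↔
      (a : G) • x = (b : G) • x := by
    intro a b
    rw [QuotientGroup.eq, hmem]
    have e : ((a⁻¹ * b : W) : G) = (a : G)⁻¹ * b := rfl
    rw [e, mul_smul, inv_smul_eq_iff]
    exact eq_comm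
  letI : MulDistribMulAction B (W ⧸ N) := quotAct (B := B) N hN
  have hqs : ∀ (b : B) (w : W), b • (QuotientGroup.mk w : W ⧸ N) = QuotientGroup.mk (b • w) :=
    fun _ _ => rfl
  have hcM : (Nat.card (W ⧸ N)).Coprime (Nat.card B) :=
    Nat.Coprime.coprime_dvd_left (Subgroup.card_quotient_dvd_card N) hc
  obtain ⟨z, hz⟩ := block_abs (M := W ⧸ N) (B := B) hcM
  obtain ⟨z', rfl⟩ := QuotientGroup.mk_surjective z
  refine ⟨z', z'.2, fun b hb hbz u hu => ?_⟩
  have h1 : (⟨b, hb⟩ : B) • (QuotientGroup.mk z' : W ⧸ N) = QuotientGroup.mk z' := by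
    rw [hqs, hmk, hsm]
    exact hbz
  have h2 := hz ⟨b, hb⟩ h1 (QuotientGroup.mk ⟨u, hu⟩)
  rw [hqs, hmk, hsm] at h2
  exact h2

theorem block_cj [Finite G] (W B U : Subgroup G)
    (hW : Cz W W) (hB : Cz B B) (hn : Nz B W) (hc : (Nat.card W).Coprime (Nat.card B))
    (hx : ∀ b ∈ B, cj b U = U) :
    ∃ z ∈ W, ∀ b ∈ B, cj b (cj z U) = cj z U → ∀ u ∈ W, cj b (cj u U) = cj u U := by
  letI : MulAction G (Subgroup G) := { smul := cj, one_smul := cj_one, mul_smul := cj_mul }
  exact block W B U hW hB hn hc hx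

theorem regvec [Finite G] (W B : Subgroup G)
    (hW : Cz W W) (hB : Cz B B) (hn : Nz B W) (hc : (Nat.card W).Coprime (Nat.card B)) :
    ∃ z ∈ W, ∀ b ∈ B, b * z = z * b → ∀ u ∈ W, b * u = u * b := by
  have hinf : ∀ g : G, g ∈ W → g ∈ B → g = 1 := by
    intro g h1 h2
    have := Subgroup.inf_eq_bot_of_coprime hc
    have h3 : g ∈ W ⊓ B := ⟨h1, h2⟩
    rw [this] at h3
    simpa using h3
  have key : ∀ b ∈ B, ∀ u ∈ W, (b • (u • ((1 : G) : G ⧸ B)) = u • ((1 : G) : G ⧸ B) ↔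
      b * u = u * b) := by
    intro b hb u hu
    rw [smul_smul]
    show ((((b * u) * 1 : G)) : G ⧸ B) = ((u * 1 : G) : G ⧸ B) ↔ _
    rw [mul_one, mul_one, eq_comm, QuotientGroup.eq]
    constructor
    · intro h
      have h1 : u⁻¹ * (b * u * b⁻¹) ∈ B := by
        have := mul_mem h (inv_mem hb)
        simpa [mul_assoc] using this
      have h2 : u⁻¹ * (b * u * b⁻¹) ∈ W := mul_mem (inv_mem hu) (hn b hb u hu)
      have h3 := hinf _ h2 h1
      rw [inv_mul_eq_one] at h3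
      rw [← mul_inv_eq_iff_eq_mul]
      exact h3.symm
    · intro h
      rw [h, inv_mul_cancel_left]
      exact hb
  obtain ⟨z, hz, hzz⟩ := block W B ((1 : G) : G ⧸ B) hW hB hn hc (by
    intro b hb
    show (((b * 1 : G)) : G ⧸ B) = ((1 : G) : G ⧸ B)
    rw [mul_one, QuotientGroup.eq, mul_one]
    exact inv_mem hb)
  refine ⟨z, hz, fun b hb h u hu => ?_⟩
  exact (key b hb u hu).1 (hzz b hb ((key b hb z hz).2 h) u hu)

end Pool.Agent.Work.MP_b44cb1_al
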