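import Pool.Agent.Work.MP_b44cb1_al.CopKit

/-!
# Glau  (size M)  : a fixed point in a `W`-orbit (Glauberman's lemma for abelian `W`)
-/

set_option autoImplicit false

namespace Pool.Agent.Work.MP_b44cb1_al

open Subgroup
open scoped commutatorElement

variable {G : Type*} [Group G]

theorem glau [Finite G] {α : Type*} [MulAction G α] (W B : Subgroup G) (x : α)
    (hW : Cz W W) (hn : Nz B W) (hc : (Nat.card W).Coprime (Nat.card B))
    (hx : ∀ b ∈ B, ∃ w ∈ W, b • x = w • x) :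
    ∃ u ∈ W, ∀ b ∈ B, b • (u • x) = u • x := by
  classical
  letI := czComm hW
  letI := cjAct hn
  let N : Subgroup W := (MulAction.stabilizer G x).subgroupOf W
  have hmem : ∀ w : W, w ∈ N ↔ (w : G) • x = x := fun w => by
    rw [Subgroup.mem_subgroupOf, MulAction.mem_stabilizer_iff]
  have hsm : ∀ (b : B) (w : W), ((b • w : W) : G) = b * w * (b : G)⁻¹ := fun _ _ => rfl
  have hN : ∀ b : B, ∀ w ∈ N, b • w ∈ N := by
    intro b w hw
    rw [hmem] at hw ⊢
    obtain ⟨w', hw', e⟩ := hx _ (inv_mem b.2)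
    have hcm : (w : G) * w' = w' * w := hW w w.2 w' hw'
    calc ((b • w : W) : G) • x = ((b : G) * w * (b : G)⁻¹) • x := by rw [hsm]
      _ = (b : G) • (w : G) • (b : G)⁻¹ • x := by rw [mul_smul, mul_smul]
      _ = (b : G) • (w : G) • w' • x := by rw [e]
      _ = (b : G) • w' • (w : G) • x := by rw [smul_smul (w : G), hcm, mul_smul]
      _ = x := by rw [hw, ← e, smul_inv_smul]
  have hmk : ∀ a b : W, (QuotientGroup.mk a : W ⧸ N) = QuotientGroup.mk b ↔
      (a : G) • x = (b : G) • x := by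
    intro a b
    rw [QuotientGroup.eq, hmem]
    constructor
    · intro h
      have : ((a⁻¹ * b : W) : G) = (a : G)⁻¹ * b := rfl
      rw [this, mul_smul, inv_smul_eq_iff] at h
      exact h.symm
    · intro h
      have : ((a⁻¹ * b : W) : G) = (a : G)⁻¹ * b := rfl
      rw [this, mul_smul, ← h, inv_smul_smul]
  letI := quotAct (B := B) N hN
  have hqs : ∀ (b : B) (w : W), b • (QuotientGroup.mk w : W ⧸ N) = QuotientGroup.mk (b • w) :=
    fun _ _ => rfl
  choose wb hwbW hwb using hx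
  let ω : B → W ⧸ N := fun b => QuotientGroup.mk ⟨wb b b.2, hwbW b b.2⟩
  have hω : ∀ b c, ω (b * c) = ω b * b • ω c := by
    intro b c
    show (QuotientGroup.mk _ : W ⧸ N) = QuotientGroup.mk _ * b • QuotientGroup.mk _
    rw [hqs, ← QuotientGroup.mk_mul, hmk]
    show wb (b * c : B) _ • x = ((⟨wb b b.2, hwbW b b.2⟩ * (b • ⟨wb c c.2, hwbW c c.2⟩) : W) : G) • x
    rw [← hwb, mul_comm]
    show ((b * c : B) : G) • x = ((b : G) * wb c c.2 * (b : G)⁻¹ * wb b b.2) • x
    rw [mul_smul _ (wb b b.2), ← hwb b b.2, smul_smul, inv_mul_cancel_right, mul_smul,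
      ← hwb c c.2, smul_smul]
    rfl
  have hcM : (Nat.card (W ⧸ N)).Coprime (Nat.card B) :=
    Nat.Coprime.coprime_dvd_left (Subgroup.card_quotient_dvd_card N) hc
  obtain ⟨u, hu⟩ := cocycle_abs hcM ω hω
  obtain ⟨u', rfl⟩ := QuotientGroup.mk_surjective u
  refine ⟨u', u'.2, fun b hb => ?_⟩
  have h1 := hu ⟨b, hb⟩
  rw [hqs] at h1
  have h2 : (QuotientGroup.mk ((⟨b, hb⟩ : B) • u' * ⟨wb b hb, hwbW b hb⟩) : W ⧸ N) =
      QuotientGroup.mk u' := h1
  rw [hmk] at h2
  have h3 : (b * u' * b⁻¹ * wb b hb) • x = (u' : G) • x := h2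
  rw [mul_smul _ (wb b hb), ← hwb b hb, smul_smul, inv_mul_cancel_right, mul_smul] at h3
  exact h3

theorem glau_cj [Finite G] (W B U : Subgroup G)
    (hW : Cz W W) (hn : Nz B W) (hc : (Nat.card W).Coprime (Nat.card B))
    (hx : ∀ b ∈ B, ∃ w ∈ W, cj b U = cj w U) :
    ∃ u ∈ W, ∀ b ∈ B, cj b (cj u U) = cj u U := by
  letI : MulAction G (Subgroup G) := { smul := cj, one_smul := cj_one, mul_smul := cj_mul }
  exact glau W B U hW hn hc hx

end Pool.Agent.Work.MP_b44cb1_al
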