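import Pool.Agent.Work.MP_b44cb1_al.OmA
import Pool.Agent.Work.MP_b44cb1_al.Glau
import Pool.Agent.Work.MP_b44cb1_al.Block

/-!
# AbOrb  (size M)  : a hyperplane with small stabiliser in an abelian group `Y`
-/

set_option autoImplicit false

namespace Pool.Agent.Work.MP_b44cb1_al

open Subgroup
open scoped commutatorElement

variable {G : Type*} [Group G] {P : ℕ → Subgroup G} {p : ℕ → ℕ} {n : ℕ}

/-- The elements of `B` mapping `U` into its `W`-orbit. -/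
def orbSub (W B U : Subgroup G) (hn : Nz B W) : Subgroup G where
  carrier := {y | y ∈ B ∧ ∃ w ∈ W, cj y U = cj w U}
  one_mem' := ⟨one_mem _, 1, one_mem _, rfl⟩
  mul_mem' := by
    rintro y y' ⟨hy, w, hw, e⟩ ⟨hy', w', hw', e'⟩
    refine ⟨mul_mem hy hy', y * w' * y⁻¹ * w, mul_mem (hn y hy w' hw') hw, ?_⟩
    have h1 : y * w' = (y * w' * y⁻¹) * y := by group
    calc cj (y * y') U = cj ((y * w' * y⁻¹) * y) U := by rw [cj_mul y y', e', ← cj_mul, ← h1]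
      _ = cj (y * w' * y⁻¹ * w) U := by rw [cj_mul (y * w' * y⁻¹) y, e, ← cj_mul]
  inv_mem' := by
    rintro y ⟨hy, w, hw, e⟩
    refine ⟨inv_mem hy, (y⁻¹ * w * y)⁻¹, inv_mem (by simpa using hn y⁻¹ (inv_mem hy) w hw), ?_⟩
    have h1 : U = cj (y⁻¹ * w) U := by
      rw [cj_mul, ← e, cj_inv_cj]
    have h2 : y⁻¹ * w = (y⁻¹ * w * y) * y⁻¹ := by group
    rw [h2, cj_mul] at h1
    have h3 := congrArg (cj (y⁻¹ * w * y)⁻¹) h1
    rw [cj_inv_cj] at h3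
    exact h3.symm

theorem mem_orbSub {W B U : Subgroup G} {hn : Nz B W} {y : G} :
    y ∈ orbSub W B U hn ↔ y ∈ B ∧ ∃ w ∈ W, cj y U = cj w U := Iff.rfl

/-- If `y` fixes a point of the `W`-orbit of `U` then it maps `U` into its `W`-orbit. -/
theorem orb_of_fix {W B U : Subgroup G} (hn : Nz B W) {y a : G} (hy : y ∈ B) (ha : a ∈ W)
    (h : cj y (cj a U) = cj a U) : cj y U = cj ((y * a * y⁻¹)⁻¹ * a) U := by
  rw [← cj_mul] at h
  have h1 : y * a = (y * a * y⁻¹) * y := by group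
  rw [h1, cj_mul] at h
  have h2 := congrArg (cj (y * a * y⁻¹)⁻¹) h
  rw [cj_inv_cj, ← cj_mul] at h2
  exact h2

theorem ab_orb [Finite G] (T : Tower P p n) {b c : ℕ} (hbn : b < n) (hcb : c < b)
    (Y : Subgroup G) (hY : Y ≤ Gs P c) (hYc : Cz Y Y) :
    ∃ U ∈ Om P p b, ∀ e, c ≤ e → e < b - 1 → ∀ y ∈ Y, cj y U = U →
      ∀ v ∈ P e, cj y (cj v U) = cj v U := by
  have hb : 1 ≤ b := by omega
  obtain ⟨U, hU, hmin⟩ := WellFounded.has_min
    (measure fun U : Subgroup G => ({y : G | y ∈ Y ∧ cj y U = U} : Set G).ncard).wf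
    (Om P p b) (om_nonempty T hb hbn)
  refine ⟨U, hU, ?_⟩
  intro e hce heb
  have hen : e < n := by omega
  have hYW : Nz Y (P e) := (T.gs_nz hce hen).mono hY
  have hYe : Y ≤ Gs P e := hY.trans (gs_mono P hce)
  set Y₁ := orbSub (P e) Y U hYW with hY₁
  have hY₁Y : Y₁ ≤ Y := fun y hy => hy.1
  obtain ⟨u, hu, huf⟩ := glau_cj (P e) Y₁ U (T.comm e hen) (hYW.mono hY₁Y)
    (T.cop_card hen Y₁ (hY₁Y.trans hYe)) (fun y hy => hy.2)
  obtain ⟨z, hz, hzf⟩ := block_cj (P e) Y₁ (cj u U) (T.comm e hen)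
    (fun a ha b hb => hYc a (hY₁Y ha) b (hY₁Y hb)) (hYW.mono hY₁Y)
    (T.cop_card hen Y₁ (hY₁Y.trans hYe)) huf
  have hzu : z * u ∈ P e := mul_mem hz hu
  have hU'' : cj (z * u) U ∈ Om P p b := om_cj T hb hbn hU (le_gs P (by omega) hzu)
  have key : ∀ y ∈ Y, cj y (cj (z * u) U) = cj (z * u) U → ∀ v ∈ P e,
      cj y (cj v U) = cj v U := by
    intro y hy hyf v hv
    have hy1 : y ∈ Y₁ := ⟨hy, _, mul_mem (inv_mem (hYW y hy _ hzu)) hzu, orb_of_fix hYW hy hzu hyf⟩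
    have h1 := hzf y hy1 (by rw [← cj_mul z u]; exact hyf) (v * u⁻¹) (mul_mem hv (inv_mem hu))
    rw [← cj_mul (v * u⁻¹) u, inv_mul_cancel_right] at h1
    exact h1
  have hsub : ({y : G | y ∈ Y ∧ cj y (cj (z * u) U) = cj (z * u) U} : Set G) ⊆
      {y : G | y ∈ Y ∧ cj y U = U} := by
    rintro y ⟨hy, hyf⟩
    refine ⟨hy, ?_⟩
    have := key y hy hyf 1 (one_mem _)
    rwa [cj_one] at this
  have hle : ({y : G | y ∈ Y ∧ cj y U = U} : Set G).ncard ≤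
      ({y : G | y ∈ Y ∧ cj y (cj (z * u) U) = cj (z * u) U} : Set G).ncard := by
    have h1 := hmin _ hU''
    exact not_lt.1 h1
  have heq := Set.eq_of_subset_of_ncard_le hsub hle (Set.toFinite _)
  intro y hy hyU v hv
  have h1 : y ∈ ({y : G | y ∈ Y ∧ cj y U = U} : Set G) := ⟨hy, hyU⟩
  rw [← heq] at h1
  exact key y hy h1.2 v hv

end Pool.Agent.Work.MP_b44cb1_al
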