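import Mathlib

/-!
# CL  (size M, Mathlib only)  : a subset with trivial setwise stabiliser

`B` finite of odd order acts on the finite nonempty set `α`, `w = |α|`. If `B` is trivial take any
singleton. Let `B` be nontrivial; then `S = ∅` does not satisfy the conclusion
`∀ β, (∀ a ∈ S, β • a ∈ S) → β = 1`, so it suffices to find `S` with this property.
For `β : B` let `Fix β` be the set of `S : Finset α` with `∀ a ∈ S, β • a ∈ S` (then `β • S = S`, and
`S` is a union of orbits of `⟨β⟩`).
(1) For `β ≠ 1`: the number `o` of orbits of `⟨β⟩` (`Subgroup.zpowers β`) on `α` satisfies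
`9 o ≤ 5 w`: every orbit that is not a singleton has size dividing the odd number `orderOf β`, so
size `≥ 3`; the number of singleton orbits is `f = |fixedBy α β|`, with `3 f ≤ w`; so
`w ≥ f + 3 (o - f)`, `3 o ≤ w + 2 f`, `9 o ≤ 3 w + 6 f ≤ 5 w`.
Hence `|Fix β| ≤ 2^o` (`S ↦` set of orbits contained in `S` is injective on `Fix β`), so
`|Fix β|^9 ≤ 2^(5w)`.
(2) The number of bad `S` is at most `∑_{β ≠ 1} |Fix β| < |B| * M` where `M = max |Fix β|`, `M^9 ≤
2^(5w)`; `(|B| M)^9 ≤ |B|^9 2^(5w) < 2^(4w) 2^(5w) = (2^w)^9`, so `|B| M < 2^w`. So some `S` is not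
bad.
-/

set_option autoImplicit false

namespace Pool.Agent.Work.MP_b44cb1_al

open MulAction in
private theorem cl_inv {B α : Type*} [Group B] [Finite B] [MulAction B α] (β : B)
    (S : Finset α) (hS : ∀ a ∈ S, β • a ∈ S) (g : B) (hg : g ∈ Subgroup.zpowers β) (a : α)
    (ha : a ∈ S) : g • a ∈ S := by
  have h1 : g ∈ Submonoid.powers β := by
    rwa [mem_powers_iff_mem_zpowers]
  obtain ⟨n, rfl⟩ := h1
  simp only
  induction n with
  | zero => simpa using ha
  | succ n ih =>
    rw [pow_succ', mul_smul]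
    exact hS _ (ih ⟨(n : ℤ), by simp⟩)

open MulAction in
private theorem cl_orb {B α : Type*} [Group B] [Fintype B] [Fintype α] [DecidableEq α]
    [MulAction B α]
    (hodd : ¬ 2 ∣ Nat.card B) (β : B)
    (hfix : 3 * Nat.card (MulAction.fixedBy α β) ≤ Nat.card α) :
    9 * Nat.card (orbitRel.Quotient (Subgroup.zpowers β) α) ≤ 5 * Nat.card α := by
  classical
  set H := Subgroup.zpowers β
  have : Fintype (orbitRel.Quotient H α) := Fintype.ofFinite _
  have hsum : Nat.card α = ∑ ω : orbitRel.Quotient H α, Nat.card (orbit H (Quotient.out ω)) := by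
    rw [Nat.card_congr (selfEquivSigmaOrbits H α), Nat.card_sigma]
  set Z : Finset (orbitRel.Quotient H α) :=
    Finset.univ.filter (fun ω => β • (Quotient.out ω : α) = Quotient.out ω) with hZ
  have hZcard : Z.card ≤ Nat.card (fixedBy α β) := by
    have h0 : Z.card ≤ (fixedBy α β).toFinset.card := by
      refine Finset.card_le_card_of_injOn (fun ω => (Quotient.out ω : α)) ?_
        (fun ω _ ω' _ h => Quotient.out_injective h)
      intro ω hω
      simp only [hZ, Finset.coe_filter, Finset.mem_univ, true_and, Set.mem_setOf_eq] at hω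
      simp [mem_fixedBy, hω]
    rwa [Set.toFinset_card, ← Nat.card_eq_fintype_card] at h0
  have hlow : ∀ ω : orbitRel.Quotient H α,
      3 ≤ Nat.card (orbit H (Quotient.out ω : α)) + 2 * (if ω ∈ Z then 1 else 0) := by
    intro ω
    by_cases hω : ω ∈ Z
    · simp only [hω, if_true]
      have hne : Nonempty (orbit H (Quotient.out ω : α)) := ⟨⟨_, mem_orbit_self _⟩⟩
      have : 0 < Nat.card (orbit H (Quotient.out ω : α)) := Nat.card_pos
      omega
    · simp only [hω, if_false]
      set a : α := Quotient.out ω with ha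
      have h1 : β • a ≠ a := by
        intro h
        exact hω (by simp [hZ, ← ha, h])
      have h2 : Nat.card (orbit H a) ∣ Nat.card B := by
        have : Nat.card (orbit H a) ∣ Nat.card H := by
          rw [Nat.card_congr (orbitEquivQuotientStabilizer H a)]
          exact Subgroup.card_quotient_dvd_card _
        exact this.trans (Subgroup.card_subgroup_dvd_card H)
      have h3 : ¬ 2 ∣ Nat.card (orbit H a) := fun h => hodd (h.trans h2)
      have h4 : 1 < Nat.card (orbit H a) := by
        rw [Finite.one_lt_card_iff_nontrivial]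
        refine ⟨⟨a, mem_orbit_self a⟩, ⟨β • a, ⟨⟨β, Subgroup.mem_zpowers β⟩, rfl⟩⟩, ?_⟩
        intro h
        exact h1 (congrArg Subtype.val h).symm
      omega
  have h5 : 3 * Fintype.card (orbitRel.Quotient H α) ≤ Nat.card α + 2 * Z.card := by
    have h6 := Finset.sum_le_sum (s := (Finset.univ : Finset (orbitRel.Quotient H α)))
      (fun ω _ => hlow ω)
    rw [Finset.sum_add_distrib, ← hsum, ← Finset.mul_sum] at h6
    simp only [Finset.sum_const, smul_eq_mul, Finset.card_univ, Finset.sum_ite_mem,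
      Finset.univ_inter] at h6
    omega
  rw [Nat.card_eq_fintype_card]
  omega

open MulAction in
private theorem cl_fix {B α : Type*} [Group B] [Fintype B] [Fintype α] [DecidableEq α]
    [MulAction B α] (β : B) :
    Nat.card {S : Finset α // ∀ a ∈ S, β • a ∈ S}
      ≤ 2 ^ Nat.card (orbitRel.Quotient (Subgroup.zpowers β) α) := by
  classical
  set H := Subgroup.zpowers β with hH
  have : Fintype (orbitRel.Quotient H α) := Fintype.ofFinite _
  have h1 : Nat.card (Finset (orbitRel.Quotient H α))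
      = 2 ^ Nat.card (orbitRel.Quotient H α) := by
    rw [Nat.card_eq_fintype_card, Nat.card_eq_fintype_card, Fintype.card_finset]
  rw [← h1]
  refine Nat.card_le_card_of_injective
    (fun S : {S : Finset α // ∀ a ∈ S, β • a ∈ S} =>
      S.1.image (fun a => (Quotient.mk'' a : orbitRel.Quotient H α))) ?_
  have key : ∀ S : {S : Finset α // ∀ a ∈ S, β • a ∈ S}, ∀ a : α,
      a ∈ S.1 ↔ (Quotient.mk'' a : orbitRel.Quotient H α)
        ∈ S.1.image (fun a => (Quotient.mk'' a : orbitRel.Quotient H α)) := by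
    intro S a
    constructor
    · intro ha
      exact Finset.mem_image_of_mem _ ha
    · intro ha
      obtain ⟨b, hb, hab⟩ := Finset.mem_image.1 ha
      have h2 : orbitRel H α b a := Quotient.exact hab
      rw [orbitRel_apply] at h2
      have h3 : a ∈ orbit H b := (orbitRel H α).symm (show orbitRel H α b a from h2)
      obtain ⟨g, rfl⟩ := h3
      exact cl_inv β S.1 S.2 g.1 g.2 b hb
  intro S S' h
  apply Subtype.ext
  ext a
  rw [key S a, key S' a]
  simp only at h
  rw [h]

theorem cl {B α : Type*} [Group B] [Finite B] [Finite α] [Nonempty α] [MulAction B α]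
    (hodd : ¬ 2 ∣ Nat.card B)
    (hfix : ∀ β : B, β ≠ 1 → 3 * Nat.card (MulAction.fixedBy α β) ≤ Nat.card α)
    (hcard : (Nat.card B) ^ 9 < 2 ^ (4 * Nat.card α)) :
    ∃ S : Finset α, S.Nonempty ∧ ∀ β : B, (∀ a ∈ S, β • a ∈ S) → β = 1 := by
  classical
  have : Fintype B := Fintype.ofFinite B
  have : Fintype α := Fintype.ofFinite α
  rcases subsingleton_or_nontrivial B with hB | hB
  · obtain ⟨a⟩ := ‹Nonempty α›
    exact ⟨{a}, Finset.singleton_nonempty a, fun β _ => Subsingleton.elim β 1⟩
  by_contra hcon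
  push Not at hcon
  have hall : ∀ S : Finset α, ∃ β : B, β ≠ 1 ∧ ∀ a ∈ S, β • a ∈ S := by
    intro S
    rcases S.eq_empty_or_nonempty with rfl | hS
    · obtain ⟨β, hβ⟩ := exists_ne (1 : B)
      exact ⟨β, hβ, by simp⟩
    · obtain ⟨β, h1, h2⟩ := hcon S hS
      exact ⟨β, h2, h1⟩
  set T : Finset B := Finset.univ.filter (fun β => β ≠ 1) with hT
  have hTne : T.Nonempty := by
    obtain ⟨β, hβ⟩ := exists_ne (1 : B)
    exact ⟨β, by simp [hT, hβ]⟩
  obtain ⟨β₀, hβ₀, hmax⟩ := T.exists_max_image
    (fun β => Nat.card {S : Finset α // ∀ a ∈ S, β • a ∈ S}) hTne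
  set M := Nat.card {S : Finset α // ∀ a ∈ S, β₀ • a ∈ S} with hM
  have hM9 : M ^ 9 ≤ 2 ^ (5 * Nat.card α) := by
    have h1 := cl_fix (α := α) β₀
    have h2 := cl_orb (α := α) hodd β₀ (hfix β₀ (by simpa [hT] using hβ₀))
    calc M ^ 9 ≤ (2 ^ Nat.card (MulAction.orbitRel.Quotient (Subgroup.zpowers β₀) α)) ^ 9 :=
          Nat.pow_le_pow_left h1 9
      _ = 2 ^ (9 * Nat.card (MulAction.orbitRel.Quotient (Subgroup.zpowers β₀) α)) := by
          rw [← pow_mul, mul_comm]
      _ ≤ 2 ^ (5 * Nat.card α) := Nat.pow_le_pow_right (by norm_num) h2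
  have hcover : (Finset.univ : Finset (Finset α)) ⊆
      T.biUnion (fun β => Finset.univ.filter (fun S : Finset α => ∀ a ∈ S, β • a ∈ S)) := by
    intro S _
    obtain ⟨β, h1, h2⟩ := hall S
    simp only [Finset.mem_biUnion, Finset.mem_filter, Finset.mem_univ, true_and, hT]
    exact ⟨β, h1, h2⟩
  have hc1 : 2 ^ Nat.card α ≤ Nat.card B * M := by
    have h1 := Finset.card_le_card hcover
    rw [Finset.card_univ, Fintype.card_finset, ← Nat.card_eq_fintype_card] at h1
    refine h1.trans (Finset.card_biUnion_le.trans ?_)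
    have h2 : ∀ β ∈ T,
        (Finset.univ.filter (fun S : Finset α => ∀ a ∈ S, β • a ∈ S)).card ≤ M := by
      intro β hβ
      have := hmax β hβ
      rw [← Fintype.card_subtype, ← Nat.card_eq_fintype_card]
      exact this
    refine (Finset.sum_le_sum h2).trans ?_
    rw [Finset.sum_const, smul_eq_mul]
    refine Nat.mul_le_mul_right M ?_
    rw [Nat.card_eq_fintype_card]
    exact Finset.card_le_univ T
  have h9 : (2 ^ Nat.card α) ^ 9 < (2 ^ Nat.card α) ^ 9 := by
    calc (2 ^ Nat.card α) ^ 9 ≤ (Nat.card B * M) ^ 9 := Nat.pow_le_pow_left hc1 9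
      _ = Nat.card B ^ 9 * M ^ 9 := by rw [mul_pow]
      _ ≤ Nat.card B ^ 9 * 2 ^ (5 * Nat.card α) := Nat.mul_le_mul_left _ hM9
      _ < 2 ^ (4 * Nat.card α) * 2 ^ (5 * Nat.card α) :=
          Nat.mul_lt_mul_of_pos_right hcard (by positivity)
      _ = (2 ^ Nat.card α) ^ 9 := by rw [← pow_add, ← pow_mul]; ring_nf
  exact lt_irrefl _ h9

end Pool.Agent.Work.MP_b44cb1_al
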