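import Pool.Agent.Work.MP_b44cb1_al.CopKit

/-!
# CommCop  (size S-M)  : coprime action of `A` on an abelian group `P`
-/

set_option autoImplicit false

namespace Pool.Agent.Work.MP_b44cb1_al

open Subgroup
open scoped commutatorElement

variable {G : Type*} [Group G]

theorem cop_decomp [Finite G] (P A : Subgroup G) (hP : Cz P P) (hn : Nz A P)
    (hc : (Nat.card P).Coprime (Nat.card A)) :
    ∀ v ∈ P, ∃ c ∈ P, ∃ w ∈ ⁅P, A⁆, (∀ a ∈ A, a * c = c * a) ∧ v = c * w := by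
  classical
  letI := czComm hP
  letI : MulDistribMulAction A P := cjAct hn
  haveI := Fintype.ofFinite A
  intro v hv
  let N : Subgroup P := ⁅P, A⁆.subgroupOf P
  obtain ⟨t, ht⟩ := cop_exp (A := P) (Nat.card A) hc
  set z : P := ∏ y : A, y • (⟨v, hv⟩ : P) with hz
  have hfix : ∀ y : A, y • z = z := fun y => norm_fixed_abs (⟨v, hv⟩ : P) y
  have hmz : (QuotientGroup.mk z : P ⧸ N) = QuotientGroup.mk ((⟨v, hv⟩ : P) ^ Nat.card A) := by
    have h1 : (QuotientGroup.mk z : P ⧸ N) = QuotientGroup.mk' N z := rfl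
    rw [h1, hz, map_prod]
    have h2 : ∀ y : A, QuotientGroup.mk' N (y • (⟨v, hv⟩ : P)) = QuotientGroup.mk' N ⟨v, hv⟩ := by
      intro y
      refine ((QuotientGroup.eq (s := N)).2 ?_).symm
      show v⁻¹ * ((y : G) * v * (y : G)⁻¹) ∈ ⁅P, A⁆
      have := commutator_mem_commutator (inv_mem hv) y.2
      simpa [commutatorElement_def, mul_assoc] using this
    rw [Finset.prod_congr rfl (fun y _ => h2 y), Finset.prod_const, Finset.card_univ,
      ← Nat.card_eq_fintype_card, ← map_pow]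
    rfl
  have hmc : (QuotientGroup.mk (z ^ t) : P ⧸ N) = QuotientGroup.mk (⟨v, hv⟩ : P) := by
    rw [QuotientGroup.mk_pow, hmz, ← QuotientGroup.mk_pow, ← pow_mul, ht]
  rw [QuotientGroup.eq] at hmc
  refine ⟨(z ^ t : P), (z ^ t).2, ((z ^ t : P) : G)⁻¹ * v, hmc, fun a ha => ?_, ?_⟩
  · have h1 : (⟨a, ha⟩ : A) • (z ^ t) = z ^ t := by rw [smul_pow', hfix]
    have h2 : a * ((z ^ t : P) : G) * a⁻¹ = ((z ^ t : P) : G) := congrArg Subtype.val h1
    rwa [mul_inv_eq_iff_eq_mul] at h2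
  · rw [mul_inv_cancel_left]

theorem comm_comm_cop [Finite G] (P A : Subgroup G) (hP : Cz P P) (hn : Nz A P)
    (hc : (Nat.card P).Coprime (Nat.card A)) : ⁅P, A⁆ ≤ ⁅⁅P, A⁆, A⁆ := by
  rw [commutator_le]
  intro v hv a ha
  obtain ⟨c, hcP, w, hw, hca, rfl⟩ := cop_decomp P A hP hn hc v hv
  have hwP : w ∈ P := comm_le_left hn hw
  have h1 := commutator_mem_commutator hw ha
  have h2 : ⁅w, a⁆ ∈ P := comm_le_left hn (comm_le_left (nz_comm hn (nz_self A)) h1)
  have e1 : a * c⁻¹ * a⁻¹ = c⁻¹ := by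
    have h3 : Commute a c := hca a ha
    rw [h3.inv_right.eq, mul_inv_cancel_right]
  have e2 : ⁅c * w, a⁆ = c * ⁅w, a⁆ * (a * c⁻¹ * a⁻¹) := by
    simp [commutatorElement_def, mul_assoc]
  rw [e2, e1, hP c hcP _ h2, mul_inv_cancel_right]
  exact h1

theorem comm_cop_inf [Finite G] (P A : Subgroup G) (hP : Cz P P) (hn : Nz A P)
    (hc : (Nat.card P).Coprime (Nat.card A)) :
    ∀ v ∈ ⁅P, A⁆, (∀ a ∈ A, a * v = v * a) → v = 1 := by
  classical
  letI := czComm hP
  letI : MulDistribMulAction A P := cjAct hn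
  haveI := Fintype.ofFinite A
  let ν : P →* P := ∏ y : A, MulDistribMulAction.toMonoidHom P y
  have hν : ∀ v : P, ν v = ∏ y : A, y • v := by
    intro v
    show (∏ y : A, MulDistribMulAction.toMonoidHom P y) v = _
    rw [MonoidHom.finset_prod_apply]
    rfl
  have hνa : ∀ (a : A) (v : P), ν (a • v) = ν v := by
    intro a v
    rw [hν, hν]
    simp only [smul_smul]
    exact Equiv.prod_comp (Equiv.mulRight a) (fun c => c • v)
  have hle : ⁅P, A⁆ ≤ ν.ker.map P.subtype := by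
    rw [commutator_le]
    intro v hv a ha
    have e : ⁅v, a⁆ = (((⟨v, hv⟩ : P) * ((⟨a, ha⟩ : A) • (⟨v, hv⟩ : P)⁻¹) : P) : G) := by
      show ⁅v, a⁆ = v * (a * v⁻¹ * a⁻¹)
      simp [commutatorElement_def, mul_assoc]
    rw [e]
    refine ⟨(⟨v, hv⟩ : P) * ((⟨a, ha⟩ : A) • (⟨v, hv⟩ : P)⁻¹), ?_, rfl⟩
    show ν _ = 1
    rw [map_mul, hνa, map_inv, mul_inv_cancel]
  intro v hv hva
  obtain ⟨v', hv', rfl⟩ := hle hv
  have h1 : ν v' = v' ^ Nat.card A := by
    rw [hν]
    have h2 : ∀ y : A, y • v' = v' := by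
      intro y
      apply Subtype.ext
      show (y : G) * v' * (y : G)⁻¹ = v'
      have := hva y y.2
      rw [mul_inv_eq_iff_eq_mul]
      exact this
    rw [Finset.prod_congr rfl (fun y _ => h2 y), Finset.prod_const, Finset.card_univ,
      ← Nat.card_eq_fintype_card]
  have h3 : v' ^ Nat.card A = 1 ^ Nat.card A := by
    rw [← h1, one_pow]; exact hv'
  have := cop_pow_inj hc h3
  rw [this]; rfl

end Pool.Agent.Work.MP_b44cb1_al
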