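import Pool.Agent.Work.MP_b44cb1_al.Kit

/-!
# CopKit : coprime actions on abelian groups (helper65)
-/

set_option autoImplicit false

namespace Pool.Agent.Work.MP_b44cb1_al

open Subgroup
open scoped commutatorElement

/-- A commutative subgroup as a commutative group. -/
@[reducible] def czComm {G : Type*} [Group G] {W : Subgroup G} (hW : Cz W W) : CommGroup W :=
  { (inferInstance : Group W) with mul_comm := fun a b => Subtype.ext (hW a a.2 b b.2) }

/-- Conjugation action of `B` on `W`. -/
@[reducible] def cjAct {G : Type*} [Group G] {B W : Subgroup G} (hn : Nz B W) :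
    MulDistribMulAction B W where
  smul b w := ⟨b * w * (b : G)⁻¹, hn b b.2 w w.2⟩
  one_smul w := by
    apply Subtype.ext
    show ((1 : B) : G) * w * ((1 : B) : G)⁻¹ = w
    simp
  mul_smul a b w := by
    apply Subtype.ext
    show ((a * b : B) : G) * w * ((a * b : B) : G)⁻¹ = a * (b * w * (b : G)⁻¹) * (a : G)⁻¹
    simp [mul_assoc]
  smul_mul b u v := by
    apply Subtype.ext
    show (b : G) * (u * v) * (b : G)⁻¹ = (b * u * (b : G)⁻¹) * (b * v * (b : G)⁻¹)
    group
  smul_one b := by
    apply Subtype.ext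
    show (b : G) * 1 * (b : G)⁻¹ = 1
    group

theorem cop_exp {A : Type*} [Group A] [Finite A] (n : ℕ) (h : (Nat.card A).Coprime n) :
    ∃ t : ℕ, ∀ a : A, a ^ (n * t) = a := by
  rcases Nat.lt_or_ge 1 (Nat.card A) with h1 | h1
  · obtain ⟨t, -, ht⟩ := Nat.exists_mul_mod_eq_one_of_coprime h.symm h1
    refine ⟨t, fun a => ?_⟩
    rw [← pow_mod_natCard, ht, pow_one]
  · have : Subsingleton A := (Finite.card_le_one_iff_subsingleton).1 h1
    exact ⟨0, fun a => Subsingleton.elim _ _⟩

theorem cop_pow_inj {A : Type*} [Group A] [Finite A] {n : ℕ} (h : (Nat.card A).Coprime n)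
    {a b : A} (hab : a ^ n = b ^ n) : a = b := by
  obtain ⟨t, ht⟩ := cop_exp n h
  rw [← ht a, ← ht b, pow_mul, pow_mul, hab]

/-- Induced action on a quotient. -/
@[reducible] def quotAct {W B : Type*} [CommGroup W] [Group B] [MulDistribMulAction B W]
    (N : Subgroup W) (hN : ∀ b : B, ∀ w ∈ N, b • w ∈ N) : MulDistribMulAction B (W ⧸ N) where
  smul b := QuotientGroup.map N N (MulDistribMulAction.toMonoidHom W b) (fun w hw => hN b w hw)
  one_smul q := by
    obtain ⟨w, rfl⟩ := QuotientGroup.mk_surjective q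
    show (QuotientGroup.mk ((1 : B) • w) : W ⧸ N) = QuotientGroup.mk w
    rw [one_smul]
  mul_smul a b q := by
    obtain ⟨w, rfl⟩ := QuotientGroup.mk_surjective q
    show (QuotientGroup.mk ((a * b) • w) : W ⧸ N) = QuotientGroup.mk (a • b • w)
    rw [mul_smul]
  smul_mul b q q' := by
    obtain ⟨w, rfl⟩ := QuotientGroup.mk_surjective q
    obtain ⟨w', rfl⟩ := QuotientGroup.mk_surjective q'
    show (QuotientGroup.mk (b • (w * w')) : W ⧸ N) = QuotientGroup.mk (b • w) * QuotientGroup.mk (b • w')
    rw [smul_mul', QuotientGroup.mk_mul]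
  smul_one b := by
    show (QuotientGroup.mk (b • (1 : W)) : W ⧸ N) = QuotientGroup.mk 1
    rw [smul_one]

section Abs

variable {M B : Type*} [CommGroup M] [Finite M] [Group B] [Finite B] [MulDistribMulAction B M]

/-- A 1-cocycle is a coboundary (coprime orders). -/
theorem cocycle_abs (hc : (Nat.card M).Coprime (Nat.card B)) (ω : B → M)
    (hω : ∀ b c, ω (b * c) = ω b * b • ω c) : ∃ u : M, ∀ b, b • u * ω b = u := by
  classical
  haveI := Fintype.ofFinite B
  obtain ⟨t, ht⟩ := cop_exp (A := M) (Nat.card B) hc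
  set v : M := ∏ c : B, ω c with hv
  have key : ∀ b, v = ω b ^ (Nat.card B) * b • v := by
    intro b
    have h1 : ∏ c : B, ω (b * c) = v := Equiv.prod_comp (Equiv.mulLeft b) ω
    have h2 : ∏ c : B, ω (b * c) = ∏ c : B, (ω b * b • ω c) :=
      Finset.prod_congr rfl fun c _ => hω b c
    rw [h2, Finset.prod_mul_distrib, Finset.prod_const, Finset.card_univ,
      ← Nat.card_eq_fintype_card] at h1
    rw [← h1]
    congr 1
    rw [h1, hv, Finset.smul_prod']
  refine ⟨v ^ t, fun b => ?_⟩
  have h3 := congrArg (fun z => z ^ t) (key b)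
  simp only [mul_pow, ← pow_mul, ht] at h3
  rw [smul_pow', mul_comm]
  exact h3.symm

/-- The norm: fixed by `B`, congruent to `u ^ |B|`. -/
theorem norm_fixed_abs [Fintype B] (u : M) (b : B) : b • (∏ c : B, c • u) = ∏ c : B, c • u := by
  rw [Finset.smul_prod']
  simp only [smul_smul]
  exact Equiv.prod_comp (Equiv.mulLeft b) (fun c => c • u)

end Abs

section Blk

variable {M B : Type*} [CommGroup M] [Finite M] [CommGroup B] [Finite B]
  [MulDistribMulAction B M]

/-- partial norm -/
private noncomputable def pn (β : B) (a : M) : M := ∏ i ∈ Finset.range (orderOf β), β ^ i • a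

private theorem pn_mul (β : B) (a b : M) : pn β (a * b) = pn β a * pn β b := by
  simp [pn, Finset.prod_mul_distrib]

private theorem pn_inv (β : B) (a : M) : pn β a⁻¹ = (pn β a)⁻¹ := by
  simp [pn]

private theorem pn_pow (β : B) (a : M) (n : ℕ) : pn β (a ^ n) = pn β a ^ n := by
  simp [pn, Finset.prod_pow]

private theorem pn_fix (β : B) (a : M) : β • pn β a = pn β a := by
  unfold pn
  rw [Finset.smul_prod']
  have h1 : ∀ i ∈ Finset.range (orderOf β), β • β ^ i • a = β ^ (i + 1) • a := by
    intro i _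
    rw [smul_smul, ← pow_succ']
  rw [Finset.prod_congr rfl h1]
  have h2 := Finset.prod_range_succ (fun i => β ^ i • a) (orderOf β)
  have h3 := Finset.prod_range_succ' (fun i => β ^ i • a) (orderOf β)
  rw [h2] at h3
  simp only [pow_orderOf_eq_one, pow_zero] at h3
  exact (mul_right_cancel h3).symm

private theorem pn_of_fix {β : B} {a : M} (h : β • a = a) : pn β a = a ^ orderOf β := by
  unfold pn
  have h1 : ∀ i : ℕ, β ^ i • a = a := by
    intro i
    induction i with
    | zero => simp
    | succ i ih => rw [pow_succ, mul_smul, h, ih]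
  rw [Finset.prod_congr rfl (fun i _ => h1 i), Finset.prod_const, Finset.card_range]

private theorem pn_comm (β γ : B) (a : M) : γ • pn β a = pn β (γ • a) := by
  unfold pn
  rw [Finset.smul_prod']
  refine Finset.prod_congr rfl fun i _ => ?_
  rw [smul_smul, smul_smul, mul_comm]

/-- An abelian group acting coprimely on an abelian group has a vector with stabiliser equal to
the kernel. -/
theorem block_abs (hc : (Nat.card M).Coprime (Nat.card B)) :
    ∃ z : M, ∀ b : B, b • z = z → ∀ u : M, b • u = u := by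
  classical
  obtain ⟨z, -, hz⟩ := WellFounded.has_min
    (measure fun z : M => ({b : B | b • z = z} : Set B).ncard).wf Set.univ ⟨1, trivial⟩
  refine ⟨z, fun β hβ u => ?_⟩
  by_contra hu
  have hm : (Nat.card M).Coprime (orderOf β) :=
    Nat.Coprime.coprime_dvd_right (orderOf_dvd_natCard β) hc
  set t : M := u ^ orderOf β * (pn β u)⁻¹ with ht
  have hNt : pn β t = 1 := by
    rw [ht, pn_mul, pn_pow, pn_inv, pn_of_fix (pn_fix β u), mul_inv_cancel]
  have htf : β • t ≠ t := by
    intro h
    apply hu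
    have h1 : β • (u ^ orderOf β) = u ^ orderOf β := by
      have h2 : u ^ orderOf β = t * pn β u := by rw [ht]; group
      rw [h2, smul_mul', h, pn_fix]
    rw [smul_pow'] at h1
    exact cop_pow_inj hm h1
  have hfix : ∀ γ : B, γ • (z * t) = z * t → γ • z = z ∧ γ • t = t := by
    intro γ hγ
    rw [smul_mul'] at hγ
    have h1 : (γ • z) * z⁻¹ = t * (γ • t)⁻¹ := by
      rw [mul_inv_eq_iff_eq_mul, mul_comm, ← mul_assoc, eq_mul_inv_iff_mul_eq]
      exact hγ
    have h2 : β • ((γ • z) * z⁻¹) = (γ • z) * z⁻¹ := by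
      rw [smul_mul', smul_inv', hβ, smul_smul, mul_comm β γ, mul_smul, hβ]
    have h3 : ((γ • z) * z⁻¹) ^ orderOf β = 1 := by
      rw [← pn_of_fix h2, h1, pn_mul, pn_inv, ← pn_comm, hNt]
      simp
    have h4 : (γ • z) * z⁻¹ = 1 := cop_pow_inj hm (by rw [h3, one_pow])
    have h5 : γ • z = z := by rwa [mul_inv_eq_one] at h4
    refine ⟨h5, ?_⟩
    rw [h4] at h1
    exact (mul_inv_eq_one.1 h1.symm).symm
  have hlt : ({b : B | b • (z * t) = z * t} : Set B).ncard < ({b : B | b • z = z} : Set B).ncard := by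
    refine Set.ncard_lt_ncard ⟨fun γ hγ => (hfix γ hγ).1, fun hsub => ?_⟩ (Set.toFinite _)
    exact htf (hfix β (hsub hβ)).2
  exact hz (z * t) trivial hlt

end Blk

end Pool.Agent.Work.MP_b44cb1_al
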