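import Mathlib

/-!
# MP_b44cb1_al : Fitting length and Engel type laws, definitions and basic facts (all proved)

Goal: finite soluble groups all of whose Sylow subgroups are elementary abelian and which
satisfy `[x,_r y] = [x,_s y]` for some `s > r` have Fitting height bounded in terms of `r`.
-/

set_option autoImplicit false

namespace Pool.Agent.Work.MP_b44cb1_al

open Subgroup

/-- `phi y z = [z,y] = z⁻¹ y⁻¹ z y`. -/
def phi {G : Type*} [Group G] (y z : G) : G := z⁻¹ * y⁻¹ * z * y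

/-- The law `[x,_r y] = [x,_s y]`. -/
def Law (r s : ℕ) (G : Type*) [Group G] : Prop := ∀ x y : G, (phi y)^[r] x = (phi y)^[s] x

/-- Every `p`-subgroup (equivalently, every Sylow subgroup) is elementary abelian. -/
def EA (G : Type*) [Group G] : Prop :=
  ∀ p : ℕ, p.Prime → ∀ P : Subgroup G, IsPGroup p P →
    (∀ a ∈ P, ∀ b ∈ P, a * b = b * a) ∧ ∀ a ∈ P, a ^ p = 1

/-- `L` normalises `D`. -/
def Nz {G : Type*} [Group G] (L D : Subgroup G) : Prop := ∀ g ∈ L, ∀ d ∈ D, g * d * g⁻¹ ∈ D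

/-- Elements of `A` commute with elements of `B`. -/
def Cz {G : Type*} [Group G] (A B : Subgroup G) : Prop := ∀ a ∈ A, ∀ b ∈ B, a * b = b * a

/-- `cj g K = g K g⁻¹`. -/
def cj {G : Type*} [Group G] (g : G) (K : Subgroup G) : Subgroup G :=
  K.map (MulAut.conj g).toMonoidHom

/-- Lower central series of the subgroup `K` : `lcs K 0 = K`, `lcs K (n+1) = ⁅lcs K n, K⁆`. -/
def lcs {G : Type*} [Group G] (K : Subgroup G) (n : ℕ) : Subgroup G :=
  (fun X : Subgroup G => ⁅X, K⁆)^[n] K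

/-- The nilpotent residual of `K`. The Fitting height of `K` is at most `n` iff
`res^[n] K = ⊥`. -/
def res {G : Type*} [Group G] (K : Subgroup G) : Subgroup G := ⨅ n, lcs K n

/-- `Gs P i = P 0 ⊔ ⋯ ⊔ P (i-1)`. -/
def Gs {G : Type*} [Group G] (P : ℕ → Subgroup G) : ℕ → Subgroup G
  | 0 => ⊥
  | (i + 1) => Gs P i ⊔ P i

/-- `NN P c d = P c ⊔ ⋯ ⊔ P (d-1)`. -/
def NN {G : Type*} [Group G] (P : ℕ → Subgroup G) (c d : ℕ) : Subgroup G :=
  ⨆ i ∈ Finset.Ico c d, P i

/-- A tower with `n` layers: `P i` is an elementary abelian `p i`-group, normalised by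
`Gs P i = P 0 ⋯ P (i-1)`, which is a `(p i)'`-group acting faithfully and irreducibly on it. -/
structure Tower {G : Type*} [Group G] (P : ℕ → Subgroup G) (p : ℕ → ℕ) (n : ℕ) : Prop where
  prime : ∀ i < n, (p i).Prime
  comm : ∀ i < n, Cz (P i) (P i)
  expo : ∀ i < n, ∀ a ∈ P i, a ^ (p i) = 1
  nontriv : ∀ i < n, P i ≠ ⊥
  norm : ∀ i < n, Nz (Gs P i) (P i)
  cop : ∀ i < n, ¬ p i ∣ Nat.card (Gs P i)
  faith : ∀ i < n, ∀ g ∈ Gs P i, (∀ v ∈ P i, g * v = v * g) → g = 1
  irr : ∀ i < n, ∀ Q : Subgroup G, Q ≤ P i → Nz (Gs P i) Q → Q = ⊥ ∨ Q = P i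

/-- The hyperplanes `U` of `P (b-1)` with nontrivial centraliser in `P b`. -/
def Om {G : Type*} [Group G] (P : ℕ → Subgroup G) (p : ℕ → ℕ) (b : ℕ) : Set (Subgroup G) :=
  {U | U ≤ P (b - 1) ∧ Nat.card (P (b - 1)) = p (b - 1) * Nat.card U ∧
    ∃ v ∈ P b, v ≠ 1 ∧ ∀ u ∈ U, u * v = v * u}

/-- The tail of `x` under `phi y` has length exactly `k`, and the last preperiodic term differs
from the periodic predecessor by an element outside `⟨y⟩`. -/
def Good {G : Type*} [Group G] (k : ℕ) (x y : G) : Prop :=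
  ∃ c ∈ Function.periodicPts (phi y), phi y c = (phi y)^[k] x ∧
    (phi y)^[k - 1] x * c⁻¹ ∉ zpowers y

/-- Property (TD). -/
def TDp (h : ℕ) (G : Type*) [Group G] : Prop :=
  ∀ (D L : Subgroup G) (k : G), D ≤ L → Nz L D → cj k L = L →
    res^[h] ((cj k⁻¹ D ⊔ D) ⊓ (cj k D ⊔ D)) ≤ D

/-- Property (T). -/
def Tp (h : ℕ) (G : Type*) [Group G] : Prop :=
  ∀ (C L : Subgroup G) (g : G), C ≤ L → Nz L C → cj g L = L →
    res^[2 * h + 1] C ≤ cj g C

/-- The statement to be proved by induction on `r` (with a suitable `h`). -/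
def St (r h : ℕ) : Prop :=
  ∀ (G : Type) [Group G] [Finite G], Group.IsSolvable G → EA G → (∃ s, r < s ∧ Law r s G) →
    res^[h] (⊤ : Subgroup G) = ⊥

section Basic

variable {G : Type*} [Group G]

theorem nz_iff {L D : Subgroup G} : Nz L D ↔ L ≤ normalizer (D : Set G) := by
  constructor
  · intro h g hg
    rw [mem_normalizer_iff]
    intro d
    refine ⟨fun hd => h g hg d hd, fun hd => ?_⟩
    have := h g⁻¹ (inv_mem hg) _ hd
    simpa [mul_assoc] using this
  · intro h g hg d hd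
    exact (mem_normalizer_iff.1 (h hg) d).1 hd

theorem mem_cj {g x : G} {K : Subgroup G} : x ∈ cj g K ↔ g⁻¹ * x * g ∈ K := by
  unfold cj
  rw [Subgroup.mem_map]
  constructor
  · rintro ⟨y, hy, rfl⟩
    simpa [mul_assoc] using hy
  · intro h
    exact ⟨_, h, by simp [mul_assoc]⟩

theorem conj_mem_cj {g x : G} {K : Subgroup G} (h : x ∈ K) : g * x * g⁻¹ ∈ cj g K := by
  rw [mem_cj]; simpa [mul_assoc] using h

theorem cj_one (K : Subgroup G) : cj 1 K = K := by
  ext x; simp [mem_cj]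

theorem cj_mul (g h : G) (K : Subgroup G) : cj (g * h) K = cj g (cj h K) := by
  ext x; simp [mem_cj, mul_assoc]

theorem cj_inv_cj (g : G) (K : Subgroup G) : cj g⁻¹ (cj g K) = K := by
  rw [← cj_mul]; simp [cj_one]

theorem cj_cj_inv (g : G) (K : Subgroup G) : cj g (cj g⁻¹ K) = K := by
  rw [← cj_mul]; simp [cj_one]

theorem cj_inj {g : G} {K L : Subgroup G} : cj g K = cj g L ↔ K = L := by
  constructor
  · intro h
    rw [← cj_inv_cj g K, h, cj_inv_cj]
  · rintro rfl; rfl

theorem cj_mono {g : G} {K L : Subgroup G} (h : K ≤ L) : cj g K ≤ cj g L :=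
  Subgroup.map_mono h

theorem cj_le_cj {g : G} {K L : Subgroup G} : cj g K ≤ cj g L ↔ K ≤ L := by
  constructor
  · intro h
    have := cj_mono (g := g⁻¹) h
    rwa [cj_inv_cj, cj_inv_cj] at this
  · exact cj_mono

theorem cj_sup (g : G) (K L : Subgroup G) : cj g (K ⊔ L) = cj g K ⊔ cj g L :=
  Subgroup.map_sup _ _ _

theorem cj_inf (g : G) (K L : Subgroup G) : cj g (K ⊓ L) = cj g K ⊓ cj g L := by
  ext x; simp [mem_cj]

theorem cj_bot (g : G) : cj g (⊥ : Subgroup G) = ⊥ := by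
  ext x
  simp only [mem_cj, Subgroup.mem_bot]
  constructor
  · intro h
    have : x = g * (g⁻¹ * x * g) * g⁻¹ := by group
    rw [this, h]; simp
  · rintro rfl; simp

theorem card_cj (g : G) (K : Subgroup G) : Nat.card (cj g K) = Nat.card K := by
  unfold cj
  exact Nat.card_congr (K.equivMapOfInjective _ (MulAut.conj g).injective).toEquiv.symm

theorem cj_eq_of_mem {g : G} {K L : Subgroup G} (h : Nz L K) (hg : g ∈ L) : cj g K = K := by
  ext x
  rw [mem_cj]
  constructor
  · intro hx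
    have := h g hg _ hx
    simpa [mul_assoc] using this
  · intro hx
    have := h g⁻¹ (inv_mem hg) _ hx
    simpa [mul_assoc] using this

theorem nz_of_cj {L D : Subgroup G} (h : ∀ g ∈ L, cj g D = D) : Nz L D := by
  intro g hg d hd
  have := conj_mem_cj (g := g) hd
  rwa [h g hg] at this

theorem Nz.mono {L L' D : Subgroup G} (h : Nz L D) (hL : L' ≤ L) : Nz L' D :=
  fun g hg d hd => h g (hL hg) d hd

theorem nz_self (L : Subgroup G) : Nz L L :=
  fun _ hg _ hd => mul_mem (mul_mem hg hd) (inv_mem hg)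

theorem Nz.inf {L A B : Subgroup G} (hA : Nz L A) (hB : Nz L B) : Nz L (A ⊓ B) :=
  fun g hg d hd => ⟨hA g hg d hd.1, hB g hg d hd.2⟩

theorem Nz.sup {L A B : Subgroup G} (hA : Nz L A) (hB : Nz L B) : Nz L (A ⊔ B) := by
  rw [nz_iff] at *
  exact (le_inf hA hB).trans (normalizer_inf_normalizer_le_normalizer_sup A B)

theorem phi_mem {H : Subgroup G} {x y : G} (hx : x ∈ H) (hy : y ∈ H) : phi y x ∈ H :=
  mul_mem (mul_mem (mul_mem (inv_mem hx) (inv_mem hy)) hx) hy

theorem phi_iter_mem {H : Subgroup G} {x y : G} (hx : x ∈ H) (hy : y ∈ H) (n : ℕ) :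
    (phi y)^[n] x ∈ H := by
  induction n with
  | zero => simpa using hx
  | succ n ih => rw [Function.iterate_succ_apply']; exact phi_mem ih hy

theorem map_phi {G' : Type*} [Group G'] (f : G →* G') (x y : G) :
    f (phi y x) = phi (f y) (f x) := by
  simp [phi]

theorem map_phi_iter {G' : Type*} [Group G'] (f : G →* G') (x y : G) (n : ℕ) :
    f ((phi y)^[n] x) = (phi (f y))^[n] (f x) := by
  induction n with
  | zero => simp
  | succ n ih => rw [Function.iterate_succ_apply', Function.iterate_succ_apply', map_phi, ih]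

theorem lcs_zero (K : Subgroup G) : lcs K 0 = K := rfl

theorem lcs_succ (K : Subgroup G) (n : ℕ) : lcs K (n + 1) = ⁅lcs K n, K⁆ := by
  unfold lcs; rw [Function.iterate_succ_apply']

theorem lcs_le (K : Subgroup G) (n : ℕ) : lcs K n ≤ K := by
  induction n with
  | zero => exact le_refl _
  | succ n ih =>
    rw [lcs_succ, Subgroup.commutator_le]
    intro a ha b hb
    exact mul_mem (mul_mem (mul_mem (ih ha) hb) (inv_mem (ih ha))) (inv_mem hb)

theorem res_le_lcs (K : Subgroup G) (n : ℕ) : res K ≤ lcs K n := iInf_le _ n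

theorem res_le (K : Subgroup G) : res K ≤ K := (res_le_lcs K 0).trans (lcs_le K 0)

theorem gs_zero (P : ℕ → Subgroup G) : Gs P 0 = ⊥ := rfl

theorem gs_succ (P : ℕ → Subgroup G) (i : ℕ) : Gs P (i + 1) = Gs P i ⊔ P i := rfl

end Basic

end Pool.Agent.Work.MP_b44cb1_al
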