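import Pool.Agent.Work.MP_b44cb1_al.Kit

/-!
# Maschke  (size M)  : Maschke's theorem for a normalised elementary abelian subgroup

`M` elementary abelian `p`-group, normalised by `H`, `M₁ ≤ M` normalised by `H`, and every
`p`-element of `H` centralises `M`.
Let `Γ` be the (finite) image of `H` in `MulAut M` (conjugation). `p ∤ |Γ|`: otherwise by Cauchy there
is `γ ∈ Γ` of order `p`, image of some `h ∈ H`; write `orderOf h = p^a m'` with `p ∤ m'`; `h^m'` is a
`p`-element of `H`, so centralises `M`, but its image is `γ^m' ≠ 1`, contradiction.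
Averaging: `M` is a vector space over `ZMod p`, so there is a subgroup `M'` of `M` with
`M = M₁ × M'` (e.g. complements exist: `Submodule.exists_isCompl` for the `ZMod p`-module
`Additive M`, or choose `M'` maximal with `M' ⊓ M₁ = ⊥`), and a hom `π : M → M₁` which is the identity on
`M₁`. Let `π'(m) = ∏_{γ ∈ Γ} γ (π (γ⁻¹ m))`: a `Γ`-equivariant hom `M → M₁` with
`π'(m) = m^|Γ|` for `m ∈ M₁`. Let `M₂ = ker π'` (as a subgroup of `G`). It is normalised by `H`.
`M₁ ⊓ M₂ = ⊥`: `m^|Γ| = 1` and `m^p = 1` imply `m = 1`. `M₁ ⊔ M₂ = M`: with `|Γ| t ≡ 1 mod p`,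
`m₁ = π'(m)^t ∈ M₁` satisfies `π'(m₁) = π'(m)`, so `m m₁⁻¹ ∈ M₂`.
(Alternatively use Mathlib's Maschke theorem `MonoidAlgebra.Submodule.exists_isCompl`.)
-/

set_option autoImplicit false

namespace Pool.Agent.Work.MP_b44cb1_al

open Subgroup
open scoped commutatorElement

variable {G : Type*} [Group G]

private theorem msk_proj {M : Type*} [CommGroup M] {p : ℕ} (hp : p.Prime)
    (hMp : ∀ m : M, m ^ p = 1) (M₁ : Subgroup M) :
    ∃ π : M →* M, (∀ m, π m ∈ M₁) ∧ ∀ m ∈ M₁, π m = m := by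
  have : Fact p.Prime := ⟨hp⟩
  let _ : Module (ZMod p) (Additive M) :=
    AddCommGroup.zmodModule (n := p) (fun x => hMp x.toMul)
  let W : Submodule (ZMod p) (Additive M) :=
    AddSubgroup.toZModSubmodule p (Subgroup.toAddSubgroup M₁)
  obtain ⟨W', hW⟩ := W.exists_isCompl
  let f : Additive M →ₗ[ZMod p] Additive M := W.subtype ∘ₗ (W.projectionOnto W' hW)
  refine ⟨MonoidHom.toAdditive.symm f.toAddMonoidHom, ?_, ?_⟩
  · intro m
    have h1 : f (Additive.ofMul m) ∈ W := (W.projectionOnto W' hW (Additive.ofMul m)).2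
    rw [AddSubgroup.mem_toZModSubmodule] at h1
    exact h1
  · intro m hm
    have h1 : Additive.ofMul m ∈ W := by
      rw [AddSubgroup.mem_toZModSubmodule]
      exact hm
    have h2 := Submodule.projectionOnto_apply_left hW ⟨Additive.ofMul m, h1⟩
    have h3 : f (Additive.ofMul m) = Additive.ofMul m := by
      simp only [f, LinearMap.comp_apply]
      rw [h2]
      rfl
    exact congrArg Additive.toMul h3

theorem maschke [Finite G] {p : ℕ} (hp : p.Prime) (H M M₁ : Subgroup G) (hM : Cz M M)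
    (hMp : ∀ m ∈ M, m ^ p = 1) (hM₁ : M₁ ≤ M) (hHM : Nz H M) (hHM₁ : Nz H M₁)
    (hpH : ∀ x ∈ H, (∃ k : ℕ, x ^ p ^ k = 1) → ∀ m ∈ M, x * m = m * x) :
    ∃ M₂ ≤ M, Nz H M₂ ∧ M₁ ⊓ M₂ = ⊥ ∧ M₁ ⊔ M₂ = M := by
  classical
  have : Fact p.Prime := ⟨hp⟩
  let _ : CommGroup M :=
    { (inferInstance : Group M) with mul_comm := fun a b => Subtype.ext (hM a a.2 b b.2) }
  let act : MulDistribMulAction H M :=
    { smul := fun h m => ⟨(h : G) * m * (h : G)⁻¹, hHM h h.2 m m.2⟩
      one_smul := fun m => Subtype.ext (by change (1 : G) * m * (1 : G)⁻¹ = m; simp)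
      mul_smul := fun h h' m => Subtype.ext (by
        change ((h : G) * h') * m * ((h : G) * h')⁻¹ = h * (h' * m * (h' : G)⁻¹) * (h : G)⁻¹
        simp [mul_assoc])
      smul_mul := fun h m m' => Subtype.ext (by
        change (h : G) * (m * m') * (h : G)⁻¹ = (h * m * (h : G)⁻¹) * (h * m' * (h : G)⁻¹)
        simp [mul_assoc])
      smul_one := fun h => Subtype.ext (by
        change (h : G) * 1 * (h : G)⁻¹ = 1
        simp) }
  let c : H →* MulAut M := MulDistribMulAction.toMulAut H M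
  have hc : ∀ (h : H) (m : M), ((c h m : M) : G) = h * m * (h : G)⁻¹ := fun _ _ => rfl
  set Γ := c.range with hΓ
  have : Finite Γ := inferInstance
  let _ : Fintype Γ := Fintype.ofFinite Γ
  -- the order of `Γ` is prime to `p`
  have hcop : ¬ p ∣ Nat.card Γ := by
    intro hdvd
    obtain ⟨γ, hγ⟩ := exists_prime_orderOf_dvd_card' p hdvd
    obtain ⟨h, hh⟩ := γ.2
    have hpos : orderOf h ≠ 0 := (orderOf_pos h).ne'
    obtain ⟨a, m', hm', hord⟩ := Nat.exists_eq_pow_mul_and_not_dvd hpos p hp.ne_one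
    have h1 : c (h ^ m') = 1 := by
      apply MulEquiv.ext
      intro m
      apply Subtype.ext
      rw [hc]
      have h2 : ((h ^ m' : H) : G) ^ p ^ a = 1 := by
        have : (h ^ m') ^ p ^ a = 1 := by
          rw [← pow_mul, mul_comm, ← hord, pow_orderOf_eq_one]
        have := congrArg (fun x : H => (x : G)) this
        simpa using this
      have h3 := hpH _ (h ^ m').2 ⟨a, h2⟩ m m.2
      rw [h3]
      simp
    have h4 : γ ^ m' = 1 := by
      apply Subtype.ext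
      push_cast
      rw [← hh, ← map_pow, h1]
    have h5 : p ∣ m' := by
      rw [← hγ]
      exact orderOf_dvd_of_pow_eq_one h4
    exact hm' h5
  have hcopr : Nat.Coprime p (Nat.card Γ) := (Nat.Prime.coprime_iff_not_dvd hp).2 hcop
  set M₁' : Subgroup M := M₁.subgroupOf M with hM₁'
  have hMp' : ∀ m : M, m ^ p = 1 := fun m => Subtype.ext (by push_cast; exact hMp m m.2)
  obtain ⟨π, hπ1, hπ2⟩ := msk_proj hp hMp' M₁'
  have hΓM : ∀ γ : Γ, ∀ m ∈ M₁', (γ : MulAut M) m ∈ M₁' := by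
    rintro ⟨_, h, rfl⟩ m hm
    rw [hM₁', mem_subgroupOf] at hm ⊢
    exact hHM₁ h h.2 m hm
  let N : M →* M :=
    { toFun := fun m => ∏ γ : Γ, (γ : MulAut M) (π (((γ⁻¹ : Γ) : MulAut M) m))
      map_one' := by simp
      map_mul' := fun a b => by
        simp only [map_mul]
        exact Finset.prod_mul_distrib }
  have hNdef : ∀ m, N m = ∏ γ : Γ, (γ : MulAut M) (π (((γ⁻¹ : Γ) : MulAut M) m)) :=
    fun _ => rfl
  have hN1 : ∀ m, N m ∈ M₁' := by
    intro m
    rw [hNdef]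
    exact Subgroup.prod_mem _ fun γ _ => hΓM γ _ (hπ1 _)
  have hN2 : ∀ m ∈ M₁', N m = m ^ Nat.card Γ := by
    intro m hm
    rw [hNdef]
    have h1 : ∀ γ : Γ, (γ : MulAut M) (π (((γ⁻¹ : Γ) : MulAut M) m)) = m := by
      intro γ
      rw [hπ2 _ (hΓM γ⁻¹ m hm)]
      push_cast
      exact MulAut.apply_inv_self M (γ : MulAut M) m
    rw [Finset.prod_congr rfl fun γ _ => h1 γ, Finset.prod_const, Finset.card_univ,
      Nat.card_eq_fintype_card]
  have hN3 : ∀ (δ : Γ) m, N ((δ : MulAut M) m) = (δ : MulAut M) (N m) := by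
    intro δ m
    rw [hNdef, hNdef, map_prod, ← Equiv.prod_comp (Equiv.mulLeft δ)
      (fun γ : Γ => (γ : MulAut M) (π (((γ⁻¹ : Γ) : MulAut M) ((δ : MulAut M) m))))]
    refine Finset.prod_congr rfl fun γ _ => ?_
    simp only [Equiv.coe_mulLeft, mul_inv_rev]
    push_cast
    simp only [MulAut.mul_apply]
    rw [MulAut.inv_apply_self]
  have hNh : ∀ (h : H) m, N (h • m) = h • N m := fun h m =>
    hN3 ⟨c h, h, rfl⟩ m
  have hMem : ∀ x, x ∈ (N.ker).map M.subtype ↔ ∃ hx : x ∈ M, N ⟨x, hx⟩ = 1 := by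
    intro x
    rw [Subgroup.mem_map]
    constructor
    · rintro ⟨y, hy, rfl⟩
      exact ⟨y.2, hy⟩
    · rintro ⟨hx, h⟩
      exact ⟨⟨x, hx⟩, h, rfl⟩
  refine ⟨(N.ker).map M.subtype, ?_, ?_, ?_, ?_⟩
  · rintro _ ⟨y, -, rfl⟩
    exact y.2
  · intro h hh x hx
    rw [hMem] at hx ⊢
    obtain ⟨hx, hNx⟩ := hx
    refine ⟨hHM h hh x hx, ?_⟩
    have h1 := hNh ⟨h, hh⟩ ⟨x, hx⟩
    rw [hNx, smul_one] at h1
    exact h1
  · rw [Subgroup.eq_bot_iff_forall]
    intro x hx
    obtain ⟨hx1, hx2⟩ := Subgroup.mem_inf.1 hx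
    obtain ⟨hxM, hNx⟩ := (hMem x).1 hx2
    have h1 : (⟨x, hxM⟩ : M) ∈ M₁' := by
      rw [hM₁', mem_subgroupOf]
      exact hx1
    rw [hN2 _ h1] at hNx
    have h2 : orderOf (⟨x, hxM⟩ : M) ∣ 1 := by
      have := Nat.dvd_gcd (orderOf_dvd_of_pow_eq_one (hMp' ⟨x, hxM⟩))
        (orderOf_dvd_of_pow_eq_one hNx)
      rwa [hcopr] at this
    have h3 := orderOf_eq_one_iff.1 (Nat.dvd_one.1 h2)
    exact congrArg (fun y : M => (y : G)) h3
  · refine le_antisymm (sup_le hM₁ ?_) ?_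
    · rintro _ ⟨y, -, rfl⟩
      exact y.2
    · intro x hx
      obtain ⟨t, ht⟩ := Nat.exists_mul_mod_eq_one_of_coprime hcopr.symm hp.one_lt
      set m : M := ⟨x, hx⟩ with hm
      set m₁ : M := (N m) ^ t with hm₁
      have h1 : m₁ ∈ M₁' := pow_mem (hN1 m) t
      have h2 : N m₁ = N m := by
        rw [hN2 m₁ h1, hm₁, ← pow_mul, mul_comm t, ← Nat.div_add_mod (Nat.card Γ * t) p, ht.2,
          pow_add, pow_mul, hMp']
        simp
      have h3 : N (m * m₁⁻¹) = 1 := by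
        rw [map_mul, map_inv, h2, mul_inv_cancel]
      have h4 : x = (m₁ : G) * ((m * m₁⁻¹ : M) : G) := by
        have : m = m₁ * (m * m₁⁻¹) := by
          rw [mul_comm, inv_mul_cancel_right]
        exact congrArg (fun y : M => (y : G)) this
      rw [h4]
      refine mul_mem (mem_sup_left ?_) (mem_sup_right ?_)
      · rw [hM₁', mem_subgroupOf] at h1
        exact h1
      · exact ⟨_, h3, rfl⟩

end Pool.Agent.Work.MP_b44cb1_al
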