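import Pool.Agent.Work.MP_b44cb1_al.E3A
import Pool.Agent.Work.MP_b44cb1_al.Maschke

/-!
# E3  (size M)  : a unique minimal normal subgroup is a self-centralising Sylow subgroup

`R` is commutative (`min_abel`) and `x^p = 1` on `R` (`min_expo`).
Let `C = centralizer R` (normal in `G`), `R ≤ C`. Claim `C = R`. Otherwise take `M`, `q` from
`min_above`: `R < M ≤ C`, `M` normal, `⁅M,M⁆ ≤ R`, `x^q ∈ R` for `x ∈ M`. `R` is central in `M`.
* `q ≠ p`: for `x, y ∈ M`, `z = x y x⁻¹ y⁻¹ ∈ R` is central in `M`, so `x^q y x^(-q) y⁻¹ = z^q`; it is `1`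
  as `x^q ∈ R` is central; with `z^p = 1`: `z = 1`. So `M` is commutative. `M' = {x ∈ M | x^q = 1}` is a
  subgroup, normal in `G`. Take `x ∈ M`, `x ∉ R`. `(x^p)^q = (x^q)^p = 1`, so `x^p ∈ M'`, and
  `x^p ≠ 1` (otherwise `x^p, x^q ∈ R` give `x ∈ R`). So `M' ≠ ⊥`, `R ≤ M'`, and `x^q = 1 = x^p` on `R`:
  `R = ⊥`, a contradiction.
* `q = p`: every `x ∈ M` has `x^(p^2) = 1`, so `M` is a `p`-group, elementary abelian by `EA`. A `p`-element
  `g` of `G` centralises `M`: `M ⊔ zpowers g` is a `p`-group (`M` normal; `IsPGroup.to_sup_of_normal_left`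
  or similar), hence commutative by `EA`. By `maschke` with `H = ⊤`, `M₁ = R` there is `M₂ ≤ M` normal in `G`
  with `R ⊓ M₂ = ⊥`, `R ⊔ M₂ = M`; `M₂ ≠ ⊥` as `R < M`; so `R ≤ M₂`, `R = ⊥`, a contradiction.
So `C = R`, which is the last claim. Let `S` be a Sylow `p`-subgroup of `G`; `R ≤ S` (`R` is a normal
`p`-group: `IsPGroup.le_sylow_of_normal`-like, or `R ≤` some Sylow and conjugacy), `S` is commutative, so
`S ≤ C = R`, `S = R` and `¬ p ∣ R.index` (`Sylow.not_dvd_index`).
-/

set_option autoImplicit false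

namespace Pool.Agent.Work.MP_b44cb1_al

open Subgroup
open scoped commutatorElement

private theorem e3_one {G : Type*} [Group G] {p q : ℕ} (hp : p.Prime) (hq : q.Prime)
    (hpq : q ≠ p) {x : G} (h1 : x ^ p = 1) (h2 : x ^ q = 1) : x = 1 := by
  have h3 : orderOf x ∣ 1 := by
    have := Nat.dvd_gcd (orderOf_dvd_of_pow_eq_one h1) (orderOf_dvd_of_pow_eq_one h2)
    rwa [(Nat.coprime_primes hp hq).2 (Ne.symm hpq)] at this
  exact orderOf_eq_one_iff.1 (Nat.dvd_one.1 h3)

private theorem e3_mem {G : Type*} [Group G] [Finite G] {p q : ℕ} (hp : p.Prime) (hq : q.Prime)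
    (hpq : q ≠ p) {R : Subgroup G} {x : G} (h1 : x ^ p ∈ R) (h2 : x ^ q ∈ R) : x ∈ R := by
  have hcop : Nat.Coprime p q := (Nat.coprime_primes hp hq).2 (Ne.symm hpq)
  have h3 : x = (x ^ p) ^ (Nat.gcdA p q) * (x ^ q) ^ (Nat.gcdB p q) := by
    have h4 := Nat.gcd_eq_gcd_ab p q
    rw [hcop] at h4
    rw [← zpow_natCast, ← zpow_natCast, ← zpow_mul, ← zpow_mul, ← zpow_add, ← h4]
    simp
  rw [h3]
  exact mul_mem (zpow_mem h1 _) (zpow_mem h2 _)

theorem e3 {G : Type*} [Group G] [Finite G] (hs : Group.IsSolvable G) (hea : EA G) (R : Subgroup G)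
    (hRn : R.Normal) (hR0 : R ≠ ⊥) (hmin : ∀ M : Subgroup G, M.Normal → M ≠ ⊥ → R ≤ M) :
    ∃ p : ℕ, p.Prime ∧ Cz R R ∧ (∀ x ∈ R, x ^ p = 1) ∧ ¬ p ∣ R.index ∧
      ∀ g : G, (∀ x ∈ R, g * x = x * g) → g ∈ R := by
  have hab : Cz R R := min_abel hs R hRn (fun M hM _ h0 => hmin M hM h0)
  obtain ⟨p, hp, hexp⟩ := min_expo R hRn hR0 hab (fun M hM _ h0 => hmin M hM h0)
  have hfp : Fact p.Prime := ⟨hp⟩
  have hRp : IsPGroup p R := by
    intro x
    refine ⟨1, Subtype.ext ?_⟩
    rw [pow_one]
    push_cast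
    exact hexp x x.2
  set C : Subgroup G := Subgroup.centralizer (R : Set G) with hC
  have hCmem : ∀ g, g ∈ C ↔ ∀ x ∈ R, x * g = g * x := by
    intro g
    rw [hC, Subgroup.mem_centralizer_iff]
    exact Iff.rfl
  have hCn : C.Normal := inferInstance
  have hRC : R ≤ C := by
    intro x hx
    rw [hCmem]
    intro y hy
    exact hab y hy x hx
  have hCR : C = R := by
    by_contra hne
    have hlt : R < C := lt_of_le_of_ne hRC (Ne.symm hne)
    obtain ⟨M, hMn, hRM, hMC, hMcomm, q, hq, hMq⟩ := min_above hs R C hRn hCn hlt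
    have hcent : ∀ x ∈ M, ∀ r ∈ R, r * x = x * r := fun x hx r hr =>
      (hCmem x).1 (hMC hx) r hr
    by_cases hqp : q = p
    · subst hqp
      -- `M` is a `p`-group
      have hMp : IsPGroup q M := by
        intro x
        refine ⟨2, Subtype.ext ?_⟩
        push_cast
        rw [pow_two, pow_mul]
        exact hexp _ (hMq x x.2)
      obtain ⟨hMab, hMe⟩ := hea q hq M hMp
      have hpH : ∀ x ∈ (⊤ : Subgroup G), (∃ k : ℕ, x ^ q ^ k = 1) → ∀ m ∈ M, x * m = m * x := by
        rintro x - ⟨k, hk⟩ m hm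
        have h1 : IsPGroup q (zpowers x) := by
          rintro ⟨_, j, rfl⟩
          refine ⟨k, Subtype.ext ?_⟩
          push_cast
          rw [← zpow_natCast, ← zpow_mul, mul_comm, zpow_mul, zpow_natCast, hk, one_zpow]
        have h2 : IsPGroup q (zpowers x ⊔ M : Subgroup G) := h1.to_sup_of_normal_right hMp
        obtain ⟨h3, -⟩ := hea q hq _ h2
        exact h3 x (mem_sup_left (Subgroup.mem_zpowers x)) m (mem_sup_right hm)
      obtain ⟨M₂, hM₂, hM₂n, hinf, hsup⟩ := maschke hq ⊤ M R hMab hMe hRM.le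
        (fun g _ d hd => hMn.conj_mem d hd g) (fun g _ d hd => hRn.conj_mem d hd g) hpH
      have hM₂norm : M₂.Normal := ⟨fun d hd g => hM₂n g (Subgroup.mem_top g) d hd⟩
      have hM₂0 : M₂ ≠ ⊥ := by
        intro h
        rw [h, sup_bot_eq] at hsup
        exact hRM.ne hsup
      have h1 := hmin M₂ hM₂norm hM₂0
      rw [inf_eq_left.2 h1] at hinf
      exact hR0 hinf
    · -- `q ≠ p`
      have hMab : ∀ x ∈ M, ∀ y ∈ M, x * y = y * x := by
        intro x hx y hy
        set z := x * y * x⁻¹ * y⁻¹ with hz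
        have hzR : z ∈ R := hMcomm x hx y hy
        have hzx : z * x = x * z := hcent x hx z hzR
        have hzy : z * y = y * z := hcent y hy z hzR
        have hxy : x * y = z * (y * x) := by rw [hz]; simp [mul_assoc]
        have hpow : ∀ n : ℕ, x ^ n * y = z ^ n * (y * x ^ n) := by
          intro n
          induction n with
          | zero => simp
          | succ n ih =>
            have hzn : x * z ^ n = z ^ n * x := (Commute.pow_right (hzx.symm : x * z = z * x) n)
            calc x ^ (n + 1) * y = x * (x ^ n * y) := by rw [pow_succ', mul_assoc]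
              _ = (x * z ^ n) * (y * x ^ n) := by rw [ih, mul_assoc]
              _ = z ^ n * (x * y) * x ^ n := by rw [hzn]; simp [mul_assoc]
              _ = z ^ (n + 1) * (y * x ^ (n + 1)) := by
                rw [hxy, pow_succ, pow_succ']
                simp [mul_assoc]
        have h1 := hpow q
        have h2 : x ^ q * y = y * x ^ q := hcent y hy (x ^ q) (hMq x hx)
        have h3 : z ^ q = 1 := by
          rw [h2] at h1
          exact (mul_eq_right.1 h1.symm)
        have h4 : z = 1 := e3_one hp hq hqp (hexp z hzR) h3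
        rw [hxy, h4, one_mul]
      let M' : Subgroup G :=
        { carrier := {x | x ∈ M ∧ x ^ q = 1}
          one_mem' := ⟨one_mem _, one_pow _⟩
          mul_mem' := by
            rintro x y ⟨hx, hx'⟩ ⟨hy, hy'⟩
            refine ⟨mul_mem hx hy, ?_⟩
            have hc : Commute x y := hMab x hx y hy
            rw [hc.mul_pow, hx', hy', one_mul]
          inv_mem' := by
            rintro x ⟨hx, hx'⟩
            exact ⟨inv_mem hx, by rw [inv_pow, hx', inv_one]⟩ }
      have hM'n : M'.Normal := by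
        constructor
        rintro x ⟨hx, hx'⟩ g
        refine ⟨hMn.conj_mem x hx g, ?_⟩
        rw [conj_pow, hx']
        simp
      obtain ⟨x, hxM, hxR⟩ := SetLike.exists_of_lt hRM
      have hxp : x ^ p ∈ M' := by
        refine ⟨pow_mem hxM p, ?_⟩
        rw [← pow_mul, mul_comm, pow_mul]
        exact hexp _ (hMq x hxM)
      have hxp1 : x ^ p ≠ 1 := by
        intro h
        exact hxR (e3_mem hp hq hqp (h ▸ one_mem R) (hMq x hxM))
      have hM'0 : M' ≠ ⊥ := by
        intro h
        rw [h, Subgroup.mem_bot] at hxp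
        exact hxp1 hxp
      have h1 := hmin M' hM'n hM'0
      apply hR0
      rw [Subgroup.eq_bot_iff_forall]
      intro r hr
      exact e3_one hp hq hqp (hexp r hr) (h1 hr).2
  refine ⟨p, hp, hab, hexp, ?_, ?_⟩
  · obtain ⟨S, hS⟩ := hRp.exists_le_sylow
    obtain ⟨hSab, -⟩ := hea p hp (S : Subgroup G) S.isPGroup'
    have hSR : (S : Subgroup G) = R := by
      refine le_antisymm ?_ hS
      intro s hs'
      rw [← hCR, hCmem]
      intro r hr
      exact hSab r (hS hr) s hs'
    rw [← hSR]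
    exact S.not_dvd_index
  · intro g hg
    rw [← hCR, hCmem]
    intro x hx
    exact (hg x hx).symm

end Pool.Agent.Work.MP_b44cb1_al
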