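import Pool.Agent.Work.MP_b44cb1_al.Kit

/-!
# E3A  (size S-M)  : minimal normal subgroups of finite soluble groups

* `min_abel`: `⁅R, R⁆` is normal in `G`; if it were `≠ ⊥` then `R ≤ ⁅R, R⁆`, so `⁅R, R⁆ = R`, and
  the derived series of `R` would be constant: contradiction with solubility and `R ≠ ⊥`
  (e.g. `derivedSeries G n ≥ R` for all `n` by induction: `R = ⁅R,R⁆ ≤ ⁅D_n, D_n⁆ = D_{n+1}`).
* `min_expo`: let `p` be a prime divisor of `|R| > 1`. `{x ∈ R | x^p = 1}` is a subgroup (`R` is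
  commutative), normal in `G`, nontrivial by Cauchy, so contains `R`.
* `min_above`: the relative version. `R < C`, both normal in `G` (finite soluble). Choose `M` normal in
  `G`, `R < M ≤ C`, of minimal order. Then `⁅M, M⁆ ⊔ R` is normal, between `R` and `M`, so equals `R` or
  `M`. If `⁅M, M⁆ ⊔ R = M` then by induction `M ≤ derivedSeries G n ⊔ R` for all `n`
  (`M = ⁅M,M⁆ ⊔ R ≤ ⁅D_n ⊔ R, D_n ⊔ R⁆ ⊔ R ≤ D_{n+1} ⊔ R`; or work in `G ⧸ R`), so `M ≤ R`,
  contradiction. So `⁅M, M⁆ ≤ R`. Let `q` be a prime divisor of the index of `R` in `M`.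
  `M' = {x ∈ M | x^q ∈ R}` is a subgroup (as `M/R` is commutative), normal in `G`, contains `R`
  properly by Cauchy in `M ⧸ R`. By minimality `M' = M`.
  (It may be easiest to apply `min_abel` and `min_expo` in the group `G ⧸ R` to a minimal normal
  subgroup of `G ⧸ R` contained in `C/R` and to pull back.)
-/

set_option autoImplicit false

namespace Pool.Agent.Work.MP_b44cb1_al

open Subgroup
open scoped commutatorElement

theorem min_abel {G : Type*} [Group G] [Finite G] (hs : Group.IsSolvable G) (R : Subgroup G)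
    (hRn : R.Normal) (hmin : ∀ M : Subgroup G, M.Normal → M ≤ R → M ≠ ⊥ → R ≤ M) :
    Cz R R := by
  have hle : ⁅R, R⁆ ≤ R := comm_le_left (nz_self R)
  have hbot : ⁅R, R⁆ = ⊥ := by
    by_contra hne
    have h1 : R ≤ ⁅R, R⁆ := hmin ⁅R, R⁆ inferInstance hle hne
    have h2 : ∀ n, R ≤ derivedSeries G n := by
      intro n
      induction n with
      | zero => rw [derivedSeries_zero]; exact le_top
      | succ n ih =>
        rw [derivedSeries_succ]
        exact h1.trans (commutator_mono ih ih)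
    obtain ⟨n, hn⟩ := hs.solvable
    have h3 : R = ⊥ := by
      have := h2 n
      rw [hn] at this
      exact le_bot_iff.1 this
    apply hne
    rw [h3]
    exact commutator_bot_left _
  intro a ha b hb
  have h1 := commutator_mem_commutator ha hb
  rw [hbot, Subgroup.mem_bot, commutatorElement_eq_one_iff_mul_comm] at h1
  exact h1

theorem min_expo {G : Type*} [Group G] [Finite G] (R : Subgroup G)
    (hRn : R.Normal) (hR0 : R ≠ ⊥) (hRc : Cz R R)
    (hmin : ∀ M : Subgroup G, M.Normal → M ≤ R → M ≠ ⊥ → R ≤ M) :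
    ∃ p : ℕ, p.Prime ∧ ∀ x ∈ R, x ^ p = 1 := by
  have h1 : Nat.card R ≠ 1 := fun h => hR0 (Subgroup.card_eq_one.1 h)
  obtain ⟨p, hp, hdvd⟩ := Nat.exists_prime_and_dvd h1
  have : Fact p.Prime := ⟨hp⟩
  refine ⟨p, hp, ?_⟩
  let Rp : Subgroup G :=
    { carrier := {x | x ∈ R ∧ x ^ p = 1}
      one_mem' := ⟨one_mem _, one_pow _⟩
      mul_mem' := by
        rintro x y ⟨hx, hx'⟩ ⟨hy, hy'⟩
        refine ⟨mul_mem hx hy, ?_⟩
        have hc : Commute x y := hRc x hx y hy
        rw [hc.mul_pow, hx', hy', one_mul]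
      inv_mem' := by
        rintro x ⟨hx, hx'⟩
        exact ⟨inv_mem hx, by rw [inv_pow, hx', inv_one]⟩ }
  have hRp : ∀ x, x ∈ Rp ↔ x ∈ R ∧ x ^ p = 1 := fun _ => Iff.rfl
  have hN : Rp.Normal := by
    constructor
    rintro x ⟨hx, hx'⟩ g
    refine ⟨hRn.conj_mem x hx g, ?_⟩
    rw [conj_pow, hx']
    simp
  have hne : Rp ≠ ⊥ := by
    obtain ⟨x, hx⟩ := exists_prime_orderOf_dvd_card' p hdvd
    intro h
    have h2 : (x : G) ∈ Rp := by
      refine ⟨x.2, ?_⟩
      have : x ^ p = 1 := by rw [← hx]; exact pow_orderOf_eq_one x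
      have := congrArg (fun y : R => (y : G)) this
      simpa using this
    rw [h, Subgroup.mem_bot] at h2
    have h3 : x = 1 := Subtype.ext h2
    rw [h3, orderOf_one] at hx
    exact hp.one_lt.ne hx
  have h2 := hmin Rp hN (fun x hx => hx.1) hne
  exact fun x hx => (h2 hx).2

theorem min_above {G : Type*} [Group G] [Finite G] (hs : Group.IsSolvable G) (R C : Subgroup G)
    (hRn : R.Normal) (hCn : C.Normal) (hRC : R < C) :
    ∃ M : Subgroup G, M.Normal ∧ R < M ∧ M ≤ C ∧
      (∀ x ∈ M, ∀ y ∈ M, x * y * x⁻¹ * y⁻¹ ∈ R) ∧ ∃ q : ℕ, q.Prime ∧ ∀ x ∈ M, x ^ q ∈ R := by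
  set π := QuotientGroup.mk' R with hπ
  have hker : ∀ x, π x = 1 ↔ x ∈ R := fun x => by
    rw [hπ]
    exact QuotientGroup.eq_one_iff x
  have hsurj : Function.Surjective π := QuotientGroup.mk'_surjective R
  have hCn' : (C.map π).Normal := hCn.map π hsurj
  have hCne : C.map π ≠ ⊥ := by
    intro h
    obtain ⟨x, hxC, hxR⟩ := SetLike.exists_of_lt hRC
    have : π x ∈ C.map π := ⟨x, hxC, rfl⟩
    rw [h, Subgroup.mem_bot, hker] at this
    exact hxR this
  obtain ⟨M', ⟨hMn, hMC, hM0⟩, hMmin⟩ := Set.exists_min_image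
    {M : Subgroup (G ⧸ R) | M.Normal ∧ M ≤ C.map π ∧ M ≠ ⊥} (fun M => Nat.card M)
    (Set.toFinite _) ⟨C.map π, hCn', le_rfl, hCne⟩
  have hmin : ∀ N : Subgroup (G ⧸ R), N.Normal → N ≤ M' → N ≠ ⊥ → M' ≤ N := by
    intro N hN hNM hN0
    have h1 := hMmin N ⟨hN, hNM.trans hMC, hN0⟩
    exact (Subgroup.eq_of_le_of_card_ge hNM h1).ge
  have hsq : Group.IsSolvable (G ⧸ R) := by
    have := hs
    infer_instance
  have hab := min_abel hsq M' hMn hmin
  obtain ⟨q, hq, hexp⟩ := min_expo M' hMn hM0 hab hmin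
  have hRle : R ≤ M'.comap π := by
    intro x hx
    rw [Subgroup.mem_comap, (hker x).2 hx]
    exact one_mem _
  refine ⟨M'.comap π, hMn.comap π, ?_, ?_, ?_, q, hq, ?_⟩
  · refine lt_of_le_of_ne hRle ?_
    intro h
    apply hM0
    rw [Subgroup.eq_bot_iff_forall]
    intro y hy
    obtain ⟨x, rfl⟩ := hsurj y
    have : x ∈ M'.comap π := hy
    rw [← h] at this
    exact (hker x).2 this
  · intro x hx
    obtain ⟨c, hc, hcx⟩ := hMC hx
    have h1 : c⁻¹ * x ∈ R := by
      rw [← hker, map_mul, map_inv, hcx, inv_mul_cancel]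
    have h2 : x = c * (c⁻¹ * x) := by simp
    rw [h2]
    exact mul_mem hc (hRC.le h1)
  · intro x hx y hy
    rw [← hker]
    simp only [map_mul, map_inv]
    rw [hab _ hx _ hy]
    simp
  · intro x hx
    rw [← hker, map_pow]
    exact hexp _ hx

end Pool.Agent.Work.MP_b44cb1_al
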