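import Pool.Agent.Work.MP_b44cb1_al.Kit

/-!
# ExtB  (size M)  : Frattini argument and Schur-Zassenhaus
-/

set_option autoImplicit false

namespace Pool.Agent.Work.MP_b44cb1_al

open Subgroup
open scoped commutatorElement

theorem ext_frattini {G : Type*} [Group G] [Finite G] (M R : Subgroup G) (p : ℕ)
    (hMn : M.Normal) (hRn : R.Normal) (hp : p.Prime) (hMR : M ≤ R)
    (hpow : ∀ x ∈ R, x ^ p ∈ M) (hind : ¬ p ∣ R.index) :
    ∃ Q K : Subgroup G, IsPGroup p Q ∧ Q ⊔ M = R ∧ Nz K Q ∧ ¬ p ∣ Nat.card K ∧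
      K ⊔ R = ⊤ ∧ K ⊓ R ≤ M := by
  haveI : Fact p.Prime := ⟨hp⟩
  obtain ⟨Q⟩ : Nonempty (Sylow p G) := inferInstance
  -- (a1)
  have hQR : (Q : Subgroup G) ≤ R := by
    intro x hx
    obtain ⟨k, hk⟩ := Q.isPGroup' ⟨x, hx⟩
    have hk' : x ^ p ^ k = 1 := by
      have := congrArg Subtype.val hk
      simpa using this
    have h1 : (QuotientGroup.mk' R x) ^ p ^ k = 1 := by rw [← map_pow, hk', map_one]
    have h2 : orderOf (QuotientGroup.mk' R x) ∣ p ^ k := orderOf_dvd_of_pow_eq_one h1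
    have h3 : orderOf (QuotientGroup.mk' R x) ∣ R.index := orderOf_dvd_natCard _
    have h4 : Nat.Coprime (p ^ k) R.index :=
      Nat.Coprime.pow_left k ((Nat.Prime.coprime_iff_not_dvd hp).2 hind)
    have h5 : orderOf (QuotientGroup.mk' R x) = 1 := Nat.eq_one_of_dvd_coprimes h4 h2 h3
    rw [orderOf_eq_one_iff] at h5
    exact (QuotientGroup.eq_one_iff x).1 h5
  -- (a2)
  have hRQ : R ≤ (Q : Subgroup G) ⊔ M := by
    have hRp : IsPGroup p (R.map (QuotientGroup.mk' M)) := by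
      rintro ⟨_, x, hx, rfl⟩
      refine ⟨1, ?_⟩
      apply Subtype.ext
      show (QuotientGroup.mk' M x) ^ p ^ 1 = 1
      rw [pow_one, ← map_pow]
      exact (QuotientGroup.eq_one_iff _).2 (hpow x hx)
    let Q' : Sylow p (G ⧸ M) := Q.mapSurjective (QuotientGroup.mk'_surjective M)
    haveI : (R.map (QuotientGroup.mk' M)).Normal :=
      Subgroup.Normal.map hRn _ (QuotientGroup.mk'_surjective M)
    have h1 : IsPGroup p (R.map (QuotientGroup.mk' M) ⊔ (Q' : Subgroup (G ⧸ M)) :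
        Subgroup (G ⧸ M)) := IsPGroup.to_sup_of_normal_left hRp Q'.isPGroup'
    have h2 := Q'.is_maximal' h1 le_sup_right
    have h3 : R.map (QuotientGroup.mk' M) ≤ (Q : Subgroup G).map (QuotientGroup.mk' M) := by
      have h4 : ((Q' : Subgroup (G ⧸ M))) = (Q : Subgroup G).map (QuotientGroup.mk' M) := rfl
      rw [← h4, ← h2]
      exact le_sup_left
    have h5 := (Subgroup.map_le_iff_le_comap.1 h3)
    rw [QuotientGroup.comap_map_mk', sup_comm] at h5
    exact h5
  -- (b)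
  have hFr := Sylow.normalizer_sup_eq_top' (N := R) Q hQR
  -- (c)
  set L : Subgroup G := normalizer ((Q : Subgroup G) : Set G) with hL
  have hQL : (Q : Subgroup G) ≤ L := Subgroup.le_normalizer
  set Q₀ : Subgroup L := (Q : Subgroup G).subgroupOf L with hQ₀
  haveI hQ₀n : Q₀.Normal := Subgroup.normal_in_normalizer
  have hQ₀i : ¬ p ∣ Q₀.index := by
    intro hd
    apply Q.not_dvd_index
    exact hd.trans (Subgroup.relIndex_dvd_index_of_le hQL)
  have hQ₀p : IsPGroup p Q₀ := Q.isPGroup'.comap_subtype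
  have hcop : Nat.Coprime (Nat.card Q₀) Q₀.index := by
    obtain ⟨k, hk⟩ := (IsPGroup.iff_card).1 hQ₀p
    rw [hk]
    exact Nat.Coprime.pow_left k ((Nat.Prime.coprime_iff_not_dvd hp).2 hQ₀i)
  obtain ⟨K₀, hK₀⟩ := exists_right_complement'_of_coprime hcop
  refine ⟨Q, K₀.map L.subtype, Q.isPGroup', le_antisymm (sup_le hQR hMR) hRQ, ?_, ?_, ?_, ?_⟩
  · rw [nz_iff]
    exact Subgroup.map_subtype_le K₀
  · have h1 : Nat.card (K₀.map L.subtype) = Nat.card K₀ :=
      Nat.card_congr (K₀.equivMapOfInjective _ L.subtype_injective).toEquiv.symm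
    rw [h1, ← hK₀.symm.index_eq_card]
    exact hQ₀i
  · have h1 : (Q₀ ⊔ K₀).map L.subtype = L := by
      rw [hK₀.sup_eq_top, ← MonoidHom.range_eq_map, Subgroup.range_subtype]
    rw [Subgroup.map_sup] at h1
    have h2 : Q₀.map L.subtype ≤ R := by
      rintro _ ⟨x, hx, rfl⟩
      exact hQR hx
    have h3 : L ≤ K₀.map L.subtype ⊔ R :=
      h1.ge.trans (sup_le (h2.trans le_sup_right) le_sup_left)
    rw [eq_top_iff]
    exact hFr.ge.trans (sup_le h3 le_sup_right)
  · rintro x ⟨hxK, hxR⟩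
    have h1 : orderOf x ∣ Nat.card (K₀.map L.subtype) := by
      have := orderOf_dvd_natCard (⟨x, hxK⟩ : (K₀.map L.subtype : Subgroup G))
      rwa [Subgroup.orderOf_mk] at this
    have h2 : Nat.card (K₀.map L.subtype) = Nat.card K₀ :=
      Nat.card_congr (K₀.equivMapOfInjective _ L.subtype_injective).toEquiv.symm
    rw [h2, ← hK₀.symm.index_eq_card] at h1
    have h3 : p.Coprime (orderOf x) :=
      (Nat.Prime.coprime_iff_not_dvd hp).2 (fun hd => hQ₀i (hd.trans h1))
    obtain ⟨m, hm⟩ := exists_pow_eq_self_of_coprime h3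
    rw [← hm]
    exact pow_mem (hpow x hxR) m

end Pool.Agent.Work.MP_b44cb1_al
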