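import Pool.Agent.Work.MP_b44cb1_al.TowerBasic
import Pool.Agent.Work.MP_b44cb1_al.Maschke

/-!
# ExtC  (size M)  : a faithful irreducible submodule
-/

set_option autoImplicit false

namespace Pool.Agent.Work.MP_b44cb1_al

open Subgroup
open scoped commutatorElement

private def ecCent {G : Type*} [Group G] (H U : Subgroup G) : Subgroup G where
  carrier := {g | g ∈ H ∧ ∀ v ∈ U, g * v = v * g}
  one_mem' := ⟨one_mem _, fun v _ => by simp⟩
  mul_mem' := by
    rintro a b ⟨ha, ha'⟩ ⟨hb, hb'⟩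
    refine ⟨mul_mem ha hb, fun v hv => ?_⟩
    rw [mul_assoc, hb' v hv, ← mul_assoc, ha' v hv, mul_assoc]
  inv_mem' := by
    rintro a ⟨ha, ha'⟩
    refine ⟨inv_mem ha, fun v hv => ?_⟩
    exact ((show Commute a v from ha' v hv).inv_left)

theorem ext_module {G : Type*} [Group G] [Finite G] {P : ℕ → Subgroup G} {p : ℕ → ℕ} {n : ℕ}
    (T : Tower P p (n + 1)) {q : ℕ} (hq : q.Prime) (M Q : Subgroup G) (hMn : M.Normal)
    (hQc : Cz Q Q) (hQq : ∀ x ∈ Q, x ^ q = 1) (hcop : ¬ q ∣ Nat.card (Gs P (n + 1)))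
    (hnz : Nz (Gs P (n + 1)) Q)
    (hfaith : ∀ g ∈ Gs P (n + 1), (∀ x ∈ Q, g * x * g⁻¹ * x⁻¹ ∈ M) → g = 1) :
    ∃ U ≤ Q, U ≠ ⊥ ∧ U ⊓ M = ⊥ ∧ Nz (Gs P (n + 1)) U ∧
      (∀ g ∈ Gs P (n + 1), (∀ v ∈ U, g * v = v * g) → g = 1) ∧
      ∀ W ≤ U, Nz (Gs P (n + 1)) W → W = ⊥ ∨ W = U := by
  set H := Gs P (n + 1) with hH
  have hnM : Nz H M := fun g _ d hd => hMn.conj_mem d hd g
  obtain ⟨Q₂, hQ₂Q, hQ₂n, hdis, hsup⟩ := maschke hq H Q (Q ⊓ M) hQc hQq inf_le_left hnz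
    (hnz.inf hnM) (by
      rintro x hx ⟨k, hk⟩ m _
      have h1 : orderOf x ∣ q ^ k := orderOf_dvd_of_pow_eq_one hk
      have h2 : orderOf x ∣ Nat.card H := by
        have := orderOf_dvd_natCard (⟨x, hx⟩ : H)
        rwa [Subgroup.orderOf_mk] at this
      have h3 : Nat.Coprime (q ^ k) (Nat.card H) :=
        Nat.Coprime.pow_left k ((Nat.Prime.coprime_iff_not_dvd hq).2 hcop)
      have h4 : orderOf x = 1 := Nat.eq_one_of_dvd_coprimes h3 h1 h2
      rw [orderOf_eq_one_iff] at h4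
      rw [h4]; simp)
  have hQ₂M : ∀ x ∈ Q₂, x ∈ M → x = 1 := by
    intro x hx hxM
    have : x ∈ (Q ⊓ M) ⊓ Q₂ := ⟨⟨hQ₂Q hx, hxM⟩, hx⟩
    rw [hdis, Subgroup.mem_bot] at this
    exact this
  have hf2 : ∀ g ∈ H, (∀ v ∈ Q₂, g * v = v * g) → g = 1 := by
    intro g hg hgv
    apply hfaith g hg
    intro x hx
    have hx' : x ∈ ((M ⊔ Q₂ : Subgroup G) : Set G) := by
      have h1 : x ∈ (Q ⊓ M) ⊔ Q₂ := by rw [hsup]; exact hx
      exact (sup_le_sup_right inf_le_right Q₂) h1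
    rw [Subgroup.normal_mul] at hx'
    obtain ⟨m, hm, v, hv, rfl⟩ := hx'
    have hc : v * g⁻¹ = g⁻¹ * v := ((show Commute g v from hgv v hv).inv_left).symm
    have e : g * (m * v) * g⁻¹ * (m * v)⁻¹ = (g * m * g⁻¹) * m⁻¹ := by
      calc g * (m * v) * g⁻¹ * (m * v)⁻¹ = g * m * (v * g⁻¹) * v⁻¹ * m⁻¹ := by group
        _ = g * m * (g⁻¹ * v) * v⁻¹ * m⁻¹ := by rw [hc]
        _ = _ := by group
    show g * (m * v) * g⁻¹ * (m * v)⁻¹ ∈ M
    rw [e]
    exact mul_mem (hMn.conj_mem m hm g) (inv_mem hm)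
  have hnlt : n < n + 1 := Nat.lt_succ_self n
  have hBH : P n ≤ H := le_gs P hnlt
  have hHB : Nz H (P n) := T.gs_nz_self hnlt
  set D := ⁅Q₂, P n⁆ with hD
  have hDn : Nz H D := nz_comm hQ₂n hHB
  have hDQ : D ≤ Q₂ := comm_le_left (hQ₂n.mono hBH)
  have hD0 : D ≠ ⊥ := by
    intro hbot
    apply T.nontriv n hnlt
    rw [Subgroup.eq_bot_iff_forall]
    intro b hb
    apply hf2 b (hBH hb)
    intro v hv
    have h1 : ⁅v, b⁆ ∈ D := commutator_mem_commutator hv hb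
    rw [hbot, Subgroup.mem_bot, commutatorElement_eq_one_iff_mul_comm] at h1
    exact h1.symm
  obtain ⟨U, ⟨hUD, hU0, hUn⟩, hUmin⟩ := WellFounded.has_min
    (measure fun U : Subgroup G => Nat.card U).wf
    {U : Subgroup G | U ≤ D ∧ U ≠ ⊥ ∧ Nz H U} ⟨D, le_rfl, hD0, hDn⟩
  have hUQ₂ : U ≤ Q₂ := hUD.trans hDQ
  have hcopB : (Nat.card Q₂).Coprime (Nat.card (P n)) := by
    haveI : Fact q.Prime := ⟨hq⟩
    have hp : IsPGroup q Q₂ := by
      rintro ⟨x, hx⟩
      refine ⟨1, Subtype.ext ?_⟩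
      show x ^ q ^ 1 = 1
      rw [pow_one]; exact hQq x (hQ₂Q hx)
    obtain ⟨k, hk⟩ := (IsPGroup.iff_card).1 hp
    rw [hk]
    refine Nat.Coprime.pow_left k ((Nat.Prime.coprime_iff_not_dvd hq).2 fun hd => hcop ?_)
    exact hd.trans (Subgroup.card_dvd_of_le hBH)
  refine ⟨U, hUQ₂.trans hQ₂Q, hU0, ?_, hUn, ?_, ?_⟩
  · rw [Subgroup.eq_bot_iff_forall]
    rintro x ⟨hx, hxM⟩
    exact hQ₂M x (hUQ₂ hx) hxM
  · -- faithful
    set K := ecCent H U with hK
    have hKH : K ≤ H := fun g hg => hg.1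
    have hKn : Nz H K := by
      intro g hg k hk
      refine ⟨mul_mem (mul_mem hg hk.1) (inv_mem hg), fun v hv => ?_⟩
      have hv' : g⁻¹ * v * g ∈ U := by simpa using hUn g⁻¹ (inv_mem hg) v hv
      have h1 := hk.2 _ hv'
      calc g * k * g⁻¹ * v = g * (k * (g⁻¹ * v * g)) * g⁻¹ := by group
        _ = g * ((g⁻¹ * v * g) * k) * g⁻¹ := by rw [h1]
        _ = v * (g * k * g⁻¹) := by group
    have hK0 : K = ⊥ := by
      by_contra hK0
      have hKB : K ⊓ P n ≠ ⊥ := by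
        intro hbot
        apply hK0
        rw [Subgroup.eq_bot_iff_forall]
        intro k hk
        have hkP : k ∈ P n := by
          refine T.cent_P hnlt (hKH hk) fun v hv => ?_
          have h1 : k * v * k⁻¹ * v⁻¹ ∈ K ⊓ P n := by
            refine Subgroup.mem_inf.2 ⟨?_, ?_⟩
            · have h2 := hKn v (hBH hv) _ (inv_mem hk)
              have h3 := mul_mem hk h2
              have e : k * v * k⁻¹ * v⁻¹ = k * (v * k⁻¹ * v⁻¹) := by group
              rw [e]; exact h3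
            · exact mul_mem (hHB k (hKH hk) v hv) (inv_mem hv)
          rw [hbot, Subgroup.mem_bot] at h1
          have h4 : k * v = v * k := by
            have : k * v * k⁻¹ = v := mul_inv_eq_one.1 h1
            rwa [mul_inv_eq_iff_eq_mul] at this
          exact h4
        have : k ∈ K ⊓ P n := ⟨hk, hkP⟩
        rwa [hbot, Subgroup.mem_bot] at this
      rcases T.irr n hnlt (K ⊓ P n) inf_le_right
        ((hKn.inf hHB).mono (gs_mono P (Nat.le_succ n))) with h | h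
      · exact hKB h
      · apply hU0
        rw [Subgroup.eq_bot_iff_forall]
        intro v hv
        refine comm_cop_inf Q₂ (P n) (fun a ha b hb => hQc a (hQ₂Q ha) b (hQ₂Q hb))
          (hQ₂n.mono hBH) hcopB v (hUD hv) fun a ha => ?_
        have ha' : a ∈ K ⊓ P n := by rw [h]; exact ha
        exact ha'.1.2 v hv
    intro g hg hgv
    have : g ∈ K := ⟨hg, hgv⟩
    rw [hK0, Subgroup.mem_bot] at this
    exact this
  · intro W hWU hWn
    by_cases hW0 : W = ⊥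
    · exact Or.inl hW0
    · right
      have h1 : ¬ Nat.card W < Nat.card U := hUmin W ⟨hWU.trans hUD, hW0, hWn⟩
      exact Subgroup.eq_of_le_of_card_ge hWU (not_lt.1 h1)

end Pool.Agent.Work.MP_b44cb1_al
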