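import Pool.Agent.Work.MP_b44cb1_al.TowerBasic

/-!
# ExtD  (size S)  : one-layer towers and adding a layer to a tower

* `tower_extend`: `Gs (Function.update P n U) i = Gs P i` for `i ≤ n` (induction), so all axioms for
  `i < n` are those of `T`, and those for `i = n` are the hypotheses.
* `tower_one`: `N ≠ ⊤` normal in the finite group `G` with `EA G`: let `p` be a prime divisor of `N.index`
  (`> 1`), `S` a Sylow `p`-subgroup of `G`; `¬ S ≤ N` (otherwise `N.index ∣ S.index` is prime to `p`); take
  `x ∈ S`, `x ∉ N`; `x^p = 1` by `EA`. `P = fun _ => zpowers x`, `p = fun _ => p`. `Gs P 0 = ⊥`, so all the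
  axioms for `i = 0 < 1` are clear (`irr`: a subgroup of the group `zpowers x` of prime order `p`).
  `Gs P 1 = ⊥ ⊔ zpowers x`, and `zpowers x ⊓ N = ⊥` as `x ∉ N` and `zpowers x` has prime order.
-/

set_option autoImplicit false

namespace Pool.Agent.Work.MP_b44cb1_al

open Subgroup
open scoped commutatorElement

theorem tower_extend {G : Type*} [Group G] {P : ℕ → Subgroup G} {p : ℕ → ℕ}
    {n : ℕ} (T : Tower P p n) {q : ℕ} (hq : q.Prime) (U : Subgroup G) (hUc : Cz U U)
    (hUq : ∀ x ∈ U, x ^ q = 1) (hU0 : U ≠ ⊥) (hnz : Nz (Gs P n) U)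
    (hcop : ¬ q ∣ Nat.card (Gs P n))
    (hfaith : ∀ g ∈ Gs P n, (∀ v ∈ U, g * v = v * g) → g = 1)
    (hirr : ∀ W ≤ U, Nz (Gs P n) W → W = ⊥ ∨ W = U) :
    Tower (Function.update P n U) (Function.update p n q) (n + 1) ∧
      Gs (Function.update P n U) (n + 1) = Gs P n ⊔ U := by
  have hG : ∀ i, i ≤ n → Gs (Function.update P n U) i = Gs P i := by
    intro i
    induction i with
    | zero => intro _; rfl
    | succ i ih =>
      intro hi
      rw [gs_succ, gs_succ, ih (by omega), Function.update_of_ne (by omega)]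
  have hP : ∀ i, i < n → Function.update P n U i = P i := fun i hi =>
    Function.update_of_ne (by omega) _ _
  have hp : ∀ i, i < n → Function.update p n q i = p i := fun i hi =>
    Function.update_of_ne (by omega) _ _
  have hPn : Function.update P n U n = U := Function.update_self _ _ _
  have hpn : Function.update p n q n = q := Function.update_self _ _ _
  refine ⟨?_, ?_⟩
  · refine
      { prime := ?_
        comm := ?_
        expo := ?_
        nontriv := ?_
        norm := ?_
        cop := ?_
        faith := ?_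
        irr := ?_ }
    all_goals intro i hi
    all_goals rcases Nat.lt_succ_iff_lt_or_eq.mp hi with h | h
    · rw [hp i h]; exact T.prime i h
    · rw [h, hpn]; exact hq
    · rw [hP i h]; exact T.comm i h
    · rw [h, hPn]; exact hUc
    · rw [hP i h, hp i h]; exact T.expo i h
    · rw [h, hPn, hpn]; exact hUq
    · rw [hP i h]; exact T.nontriv i h
    · rw [h, hPn]; exact hU0
    · rw [hP i h, hG i h.le]; exact T.norm i h
    · rw [h, hPn, hG n le_rfl]; exact hnz
    · rw [hp i h, hG i h.le]; exact T.cop i h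
    · rw [h, hpn, hG n le_rfl]; exact hcop
    · rw [hP i h, hG i h.le]; exact T.faith i h
    · rw [h, hPn, hG n le_rfl]; exact hfaith
    · rw [hP i h, hG i h.le]; exact T.irr i h
    · rw [h, hPn, hG n le_rfl]; exact hirr
  · rw [gs_succ, hG n le_rfl, hPn]

theorem tower_one {G : Type*} [Group G] [Finite G] (hea : EA G) (N : Subgroup G)
    (hNn : N.Normal) (hN : N ≠ ⊤) :
    ∃ (P : ℕ → Subgroup G) (p : ℕ → ℕ), Tower P p 1 ∧ Gs P 1 ⊓ N = ⊥ := by
  have hidx : N.index ≠ 1 := fun h => hN (Subgroup.index_eq_one.1 h)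
  obtain ⟨p, hp, hpd⟩ := Nat.exists_prime_and_dvd hidx
  have : Fact p.Prime := ⟨hp⟩
  let S : Sylow p G := default
  have hSN : ¬ (S : Subgroup G) ≤ N := by
    intro h
    exact S.not_dvd_index (hpd.trans (Subgroup.index_dvd_of_le h))
  obtain ⟨x, hxS, hxN⟩ := Set.not_subset.1 hSN
  have hxp : x ^ p = 1 := (hea p hp S S.isPGroup').2 x hxS
  have hx1 : x ≠ 1 := by
    rintro rfl
    exact hxN (one_mem N)
  have hord : orderOf x = p := orderOf_eq_prime hxp hx1
  have hcard : Nat.card (zpowers x) = p := by rw [Nat.card_zpowers, hord]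
  have hsub : ∀ Q : Subgroup G, Q ≤ zpowers x → Q = ⊥ ∨ Q = zpowers x := by
    intro Q hQ
    have h1 : Nat.card Q ∣ p := by
      rw [← hcard]; exact Subgroup.card_dvd_of_le hQ
    rcases (Nat.dvd_prime hp).1 h1 with h | h
    · left
      exact Subgroup.card_eq_one.1 h
    · right
      refine Subgroup.eq_of_le_of_card_ge hQ ?_
      rw [hcard, h]
  have hGs1 : Gs (fun _ : ℕ => zpowers x) 1 = zpowers x := by
    rw [gs_succ, gs_zero, bot_sup_eq]
  have hbot : ∀ i, i < 1 → ∀ g ∈ Gs (fun _ : ℕ => zpowers x) i, g = 1 := by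
    intro i hi g hg
    obtain rfl : i = 0 := by omega
    rwa [gs_zero, Subgroup.mem_bot] at hg
  refine ⟨fun _ => zpowers x, fun _ => p, ?_, ?_⟩
  · refine
      { prime := fun _ _ => hp
        comm := ?_
        expo := ?_
        nontriv := ?_
        norm := ?_
        cop := ?_
        faith := ?_
        irr := ?_ }
    · intro i _ a ha b hb
      obtain ⟨k, rfl⟩ := mem_zpowers_iff.1 ha
      obtain ⟨l, rfl⟩ := mem_zpowers_iff.1 hb
      rw [← zpow_add, ← zpow_add, add_comm]
    · intro i _ a ha
      obtain ⟨k, rfl⟩ := mem_zpowers_iff.1 ha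
      show (x ^ k) ^ p = 1
      rw [← zpow_natCast, ← zpow_mul, mul_comm, zpow_mul, zpow_natCast, hxp, one_zpow]
    · intro i _ h
      exact hx1 (Subgroup.zpowers_eq_bot.1 h)
    · intro i hi g hg d hd
      rw [hbot i hi g hg]
      simpa using hd
    · intro i hi h
      obtain rfl : i = 0 := by omega
      rw [gs_zero, Subgroup.card_bot] at h
      exact hp.one_lt.ne' (Nat.dvd_one.1 h)
    · intro i hi g hg _
      exact hbot i hi g hg
    · intro i _ Q hQ _
      exact hsub Q hQ
  · rw [hGs1]
    rcases hsub (zpowers x ⊓ N) inf_le_left with h | h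
    · exact h
    · exfalso
      have h1 : x ∈ zpowers x ⊓ N := by
        rw [h]; exact mem_zpowers x
      exact hxN h1.2

end Pool.Agent.Work.MP_b44cb1_al
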