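import Pool.Agent.Work.MP_b44cb1_al.ExtA
import Pool.Agent.Work.MP_b44cb1_al.ExtB
import Pool.Agent.Work.MP_b44cb1_al.ExtC
import Pool.Agent.Work.MP_b44cb1_al.ExtD

/-!
# Ext  : extraction of a tower (assembly, helper65)
-/

set_option autoImplicit false

namespace Pool.Agent.Work.MP_b44cb1_al

open Subgroup
open scoped commutatorElement

theorem gs_map {G H : Type*} [Group G] [Group H] (f : H →* G) (Q : ℕ → Subgroup H) (i : ℕ) :
    Gs (fun j => (Q j).map f) i = (Gs Q i).map f := by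
  induction i with
  | zero => simp [Gs]
  | succ i ih => simp only [Gs, ih, Subgroup.map_sup]

theorem ext (n : ℕ) : ∀ (G : Type) [Group G] [Finite G], Group.IsSolvable G → EA G →
    ∀ N : Subgroup G, N.Normal → ¬ res^[n] (⊤ : Subgroup G) ≤ N →
    ∃ (P : ℕ → Subgroup G) (p : ℕ → ℕ), Tower P p (n + 1) ∧ Gs P (n + 1) ⊓ N = ⊥ := by
  induction n with
  | zero =>
    intro G _ _ hs hea N hNn hN
    apply tower_one hea N hNn
    rintro rfl
    exact hN le_top
  | succ n ih =>
    intro G _ _ hs hea N hNn hN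
    obtain ⟨M, R, p, hMn, hRn, hp, hNM, hMR, hpow, hind, hcent, hres⟩ :=
      ext_max hs hea n N hNn hN
    obtain ⟨Q, K, hQp, hQM, hKQ, hKp, hKR, hKM⟩ := ext_frattini M R p hMn hRn hp hMR hpow hind
    have hQea := hea p hp Q hQp
    -- induction hypothesis for `K`
    have hK : ¬ res^[n] (⊤ : Subgroup K) ≤ M.subgroupOf K := by
      intro hcon
      apply hres
      apply resI_sup_quot K R hKR n
      rw [← resI_sub K n]
      refine (Subgroup.map_mono hcon).trans ?_
      rintro x ⟨y, hy, rfl⟩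
      exact hMR hy
    have hMK : (M.subgroupOf K).Normal := inferInstance
    haveI := hs
    obtain ⟨P', p', T', hT'⟩ := ih K inferInstance (ea_sub hea K) (M.subgroupOf K) hMK hK
    have hT := tower_map K.subtype K.subtype_injective T'
    have hGsK : Gs (fun i => (P' i).map K.subtype) (n + 1) ≤ K := by
      rw [gs_map]
      exact Subgroup.map_subtype_le _
    have hGsM : ∀ g ∈ Gs (fun i => (P' i).map K.subtype) (n + 1), g ∈ M → g = 1 := by
      intro g hg hgM
      rw [gs_map] at hg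
      obtain ⟨y, hy, rfl⟩ := hg
      have : y ∈ Gs P' (n + 1) ⊓ M.subgroupOf K := ⟨hy, hgM⟩
      rw [hT', Subgroup.mem_bot] at this
      rw [this]; simp
    have hcop : ¬ p ∣ Nat.card (Gs (fun i => (P' i).map K.subtype) (n + 1)) :=
      fun hd => hKp (hd.trans (Subgroup.card_dvd_of_le hGsK))
    have hfaith : ∀ g ∈ Gs (fun i => (P' i).map K.subtype) (n + 1),
        (∀ x ∈ Q, g * x * g⁻¹ * x⁻¹ ∈ M) → g = 1 := by
      intro g hg hgx
      have hgK := hGsK hg
      apply hGsM g hg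
      apply hKM
      refine ⟨hgK, hcent g ?_⟩
      intro x hx
      rw [← hQM, ← SetLike.mem_coe, Subgroup.mul_normal] at hx
      obtain ⟨a, ha, m, hm, rfl⟩ := hx
      have h1 := hgx a ha
      have e : g * (a * m) * g⁻¹ * (a * m)⁻¹ =
          (g * a * g⁻¹) * (g * m * g⁻¹) * (g * a * g⁻¹)⁻¹ * (g * a * g⁻¹ * a⁻¹) *
            (a * m⁻¹ * a⁻¹) := by
        group
      simp only at e ⊢
      rw [e]
      refine mul_mem (mul_mem ?_ h1) (hMn.conj_mem _ (inv_mem hm) _)
      exact hMn.conj_mem _ (hMn.conj_mem _ hm _) _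
    obtain ⟨U, hUQ, hU0, hUM, hUnz, hUf, hUi⟩ := ext_module hT hp M Q hMn hQea.1 hQea.2 hcop
      (hKQ.mono hGsK) hfaith
    obtain ⟨hTn, hGn⟩ := tower_extend hT hp U
      (fun a ha b hb => hQea.1 a (hUQ ha) b (hUQ hb)) (fun a ha => hQea.2 a (hUQ ha)) hU0 hUnz
      hcop hUf hUi
    refine ⟨_, _, hTn, ?_⟩
    rw [hGn, eq_bot_iff]
    rintro x ⟨hx, hxN⟩
    have hxM := hNM hxN
    have hx' : x ∈ ((Gs (fun i => (P' i).map K.subtype) (n + 1) ⊔ U : Subgroup G) : Set G) := hx
    rw [Subgroup.coe_mul_of_left_le_normalizer_right _ _ (nz_iff.1 hUnz)] at hx'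
    obtain ⟨g, hg, u, hu, rfl⟩ := hx'
    have hg' : g ∈ Gs (fun i => (P' i).map K.subtype) (n + 1) := hg
    have hu' : u ∈ U := hu
    have huR : u ∈ R := by rw [← hQM]; exact mem_sup_left (hUQ hu')
    have hgR : g ∈ R := by
      have := mul_mem (hMR hxM) (inv_mem huR)
      simpa using this
    have hg1 : g = 1 := hGsM g hg' (hKM ⟨hGsK hg', hgR⟩)
    subst hg1
    have : u ∈ U ⊓ M := ⟨hu', by simpa using hxM⟩
    rw [hUM, Subgroup.mem_bot] at this
    simp [this]

end Pool.Agent.Work.MP_b44cb1_al
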