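import Pool.Agent.Work.MP_b44cb1_al.ResA

/-!
# ResQ  (size S-M)  : the nilpotent residual in quotients and sections
-/

set_option autoImplicit false

namespace Pool.Agent.Work.MP_b44cb1_al

open Subgroup
open scoped commutatorElement

variable {G : Type*} [Group G]

theorem resI_quot [Finite G] (N : Subgroup G) [N.Normal] (n : ℕ) :
    res^[n] (⊤ : Subgroup G) ≤ N ↔ res^[n] (⊤ : Subgroup (G ⧸ N)) = ⊥ := by
  have h1 : (⊤ : Subgroup (G ⧸ N)) = (⊤ : Subgroup G).map (QuotientGroup.mk' N) :=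
    (Subgroup.map_top_of_surjective _ (QuotientGroup.mk'_surjective N)).symm
  rw [h1, resI_map, Subgroup.map_eq_bot_iff, QuotientGroup.ker_mk']

theorem resI_sub [Finite G] (K : Subgroup G) (n : ℕ) :
    (res^[n] (⊤ : Subgroup K)).map K.subtype = res^[n] K := by
  rw [← resI_map]
  congr 1
  rw [← MonoidHom.range_eq_map, Subgroup.range_subtype]

theorem resI_section [Finite G] (D S : Subgroup G) (hDS : D ≤ S)
    [(D.subgroupOf S).Normal] (n : ℕ)
    (h : res^[n] (⊤ : Subgroup (S ⧸ D.subgroupOf S)) = ⊥) : res^[n] S ≤ D := by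
  have h1 := (resI_quot (D.subgroupOf S) n).2 h
  rw [← resI_sub S n]
  refine (Subgroup.map_mono h1).trans ?_
  rintro x ⟨y, hy, rfl⟩
  exact hy

theorem resI_sup_quot [Finite G] (K M : Subgroup G) [M.Normal] (hKM : K ⊔ M = ⊤) (n : ℕ)
    (hK : res^[n] K ≤ M) : res^[n] (⊤ : Subgroup G) ≤ M := by
  rw [resI_quot]
  have h1 : (⊤ : Subgroup (G ⧸ M)) = K.map (QuotientGroup.mk' M) := by
    have h2 : M.map (QuotientGroup.mk' M) = ⊥ := by
      rw [Subgroup.map_eq_bot_iff, QuotientGroup.ker_mk']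
    rw [← Subgroup.map_top_of_surjective _ (QuotientGroup.mk'_surjective M), ← hKM,
      Subgroup.map_sup, h2, sup_bot_eq]
  rw [h1, resI_map, Subgroup.map_eq_bot_iff, QuotientGroup.ker_mk']
  exact hK

theorem series_of_resI [Finite G] (n : ℕ) (h : res^[n] (⊤ : Subgroup G) = ⊥) :
    ∃ H : ℕ → Subgroup G, H 0 = ⊥ ∧ H n = ⊤ ∧
      ∀ i : ℕ, i < n → (H i).Normal ∧ H i ≤ H (i + 1) ∧
        ∃ c : ℕ, (fun K : Subgroup G => ⁅K, H (i + 1)⁆)^[c] (H (i + 1)) ≤ H i := by
  refine ⟨fun i => res^[n - i] ⊤, ?_, ?_, ?_⟩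
  · simpa using h
  · simp
  · intro i hi
    have e : n - i = (n - (i + 1)) + 1 := by omega
    refine ⟨resI_normal inferInstance _, ?_, ?_⟩
    · exact resI_anti _ (by omega)
    · obtain ⟨c, hc⟩ := exists_lcs_eq_res (res^[n - (i + 1)] (⊤ : Subgroup G))
      refine ⟨c, ?_⟩
      show lcs (res^[n - (i + 1)] (⊤ : Subgroup G)) c ≤ res^[n - i] (⊤ : Subgroup G)
      rw [hc, e, Function.iterate_succ_apply']

end Pool.Agent.Work.MP_b44cb1_al
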