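import Pool.Agent.Work.MP_b44cb1_al.E3
import Pool.Agent.Work.MP_b44cb1_al.Law
import Pool.Agent.Work.MP_b44cb1_al.ResQ

/-!
# ExtA  (size M)  : the maximal normal subgroup not containing the residual

Choose `M` normal in `G` with `N ≤ M`, `¬ res^[n+1] ⊤ ≤ M`, of maximal order. Let `Ḡ = G ⧸ M`,
`π = QuotientGroup.mk' M`, `R̄ = res^[n+1] (⊤ : Subgroup Ḡ) = (res^[n+1] ⊤).map π` (`resI_map`),
normal in `Ḡ`, `≠ ⊥`. If `M̄` is a nontrivial normal subgroup of `Ḡ` then `M̄.comap π` is normal and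
properly contains `M`, so contains `res^[n+1] ⊤`, i.e. `R̄ ≤ M̄`. Apply `e3` to `Ḡ` (soluble,
`ea_quot`): prime `p`. Put `R = R̄.comap π` (`R.index = R̄.index`: `Subgroup.index_comap_of_surjective`).
All properties translate by `QuotientGroup.eq_one_iff`. Finally if `res^[n] ⊤ ≤ R` then
`res^[n] (⊤ : Subgroup Ḡ) ≤ R̄` and `R̄ = res (res^[n] ⊤) ≤ res R̄ = ⊥` (`res_of_comm`,
`Function.iterate_succ_apply'`), contradiction.
-/

set_option autoImplicit false

namespace Pool.Agent.Work.MP_b44cb1_al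

open Subgroup
open scoped commutatorElement

theorem ext_max {G : Type*} [Group G] [Finite G] (hs : Group.IsSolvable G) (hea : EA G) (n : ℕ)
    (N : Subgroup G) (hNn : N.Normal) (hN : ¬ res^[n + 1] (⊤ : Subgroup G) ≤ N) :
    ∃ (M R : Subgroup G) (p : ℕ), M.Normal ∧ R.Normal ∧ p.Prime ∧ N ≤ M ∧ M ≤ R ∧
      (∀ x ∈ R, x ^ p ∈ M) ∧ ¬ p ∣ R.index ∧
      (∀ g : G, (∀ x ∈ R, g * x * g⁻¹ * x⁻¹ ∈ M) → g ∈ R) ∧
      ¬ res^[n] (⊤ : Subgroup G) ≤ R := by
  classical
  let s : Set (Subgroup G) := {M | M.Normal ∧ N ≤ M ∧ ¬ res^[n + 1] (⊤ : Subgroup G) ≤ M}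
  have hsne : s.Nonempty := ⟨N, hNn, le_refl _, hN⟩
  obtain ⟨M, hM⟩ := (Set.toFinite s).exists_maximal hsne
  obtain ⟨hMn, hNM, hMr⟩ := hM.prop
  haveI : M.Normal := hMn
  haveI := hs
  set π := QuotientGroup.mk' M with hπ
  have hsurj : Function.Surjective π := QuotientGroup.mk'_surjective M
  set Rb : Subgroup (G ⧸ M) := res^[n + 1] (⊤ : Subgroup (G ⧸ M)) with hRb
  have hRb0 : Rb ≠ ⊥ := fun h => hMr ((resI_quot M (n + 1)).2 h)
  have hRbn : Rb.Normal := resI_normal inferInstance _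
  have htop : (⊤ : Subgroup (G ⧸ M)) = (⊤ : Subgroup G).map π :=
    (Subgroup.map_top_of_surjective _ hsurj).symm
  have hmap : ∀ m, res^[m] (⊤ : Subgroup (G ⧸ M)) = (res^[m] (⊤ : Subgroup G)).map π := by
    intro m
    rw [htop, resI_map]
  have hmin : ∀ K : Subgroup (G ⧸ M), K.Normal → K ≠ ⊥ → Rb ≤ K := by
    intro K hK hK0
    by_contra hcon
    have h1 : K.comap π ∈ s := by
      refine ⟨hK.comap π, ?_, ?_⟩
      · intro x hx
        rw [mem_comap]
        have : π x = 1 := (QuotientGroup.eq_one_iff x).2 (hNM hx)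
        rw [this]
        exact one_mem _
      · intro h
        apply hcon
        rw [hRb, hmap, Subgroup.map_le_iff_le_comap]
        exact h
    have h2 : M ≤ K.comap π := by
      intro x hx
      rw [mem_comap]
      have : π x = 1 := (QuotientGroup.eq_one_iff x).2 hx
      rw [this]
      exact one_mem _
    have h3 := hM.le_of_ge h1 h2
    apply hK0
    rw [eq_bot_iff]
    intro y hy
    obtain ⟨x, rfl⟩ := hsurj y
    have : x ∈ M := h3 (mem_comap.2 hy)
    rw [Subgroup.mem_bot]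
    exact (QuotientGroup.eq_one_iff x).2 this
  obtain ⟨p, hp, hcz, hexp, hidx, hcent⟩ := e3 (G := G ⧸ M) inferInstance (ea_quot hea M) Rb hRbn
    hRb0 hmin
  refine ⟨M, Rb.comap π, p, hMn, hRbn.comap π, hp, hNM, ?_, ?_, ?_, ?_, ?_⟩
  · intro x hx
    rw [mem_comap]
    have : π x = 1 := (QuotientGroup.eq_one_iff x).2 hx
    rw [this]
    exact one_mem _
  · intro x hx
    have h1 := hexp _ (mem_comap.1 hx)
    rw [← map_pow] at h1
    exact (QuotientGroup.eq_one_iff _).1 h1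
  · rw [Subgroup.index_comap_of_surjective _ hsurj]
    exact hidx
  · intro g hg
    rw [mem_comap]
    apply hcent
    intro y hy
    obtain ⟨x, rfl⟩ := hsurj y
    have h1 := hg x (mem_comap.2 hy)
    have h2 : π (g * x * g⁻¹ * x⁻¹) = 1 := (QuotientGroup.eq_one_iff _).2 h1
    rw [map_mul, map_mul, map_mul, map_inv, map_inv, mul_inv_eq_one, mul_inv_eq_iff_eq_mul] at h2
    exact h2
  · intro h
    have h1 : res^[n] (⊤ : Subgroup (G ⧸ M)) ≤ Rb := by
      rw [hmap, Subgroup.map_le_iff_le_comap]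
      exact h
    have h2 : Rb ≤ res Rb := by
      have h3 : Rb = res (res^[n] (⊤ : Subgroup (G ⧸ M))) := by
        rw [hRb, Function.iterate_succ_apply']
      calc Rb = res (res^[n] (⊤ : Subgroup (G ⧸ M))) := h3
        _ ≤ res Rb := res_mono h1
    rw [res_of_comm hcz] at h2
    exact hRb0 (le_bot_iff.1 h2)

end Pool.Agent.Work.MP_b44cb1_al
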