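import Mathlib

/-!
# Pigeon  (size S, Mathlib only)
-/

set_option autoImplicit false

namespace Pool.Agent.Work.MP_b44cb1_al

theorem pigeon (m : ℕ) (hm : 0 < m) (ε : ℕ → ℤ) (hε : ∀ i, ε i = 1 ∨ ε i = -1) (p : ℤ) :
    ∃ i ≤ m / 2, ∃ j ≤ m / 2, (m : ℤ) ∣ ε i * (i : ℤ) + ε j * (j : ℤ) - 2 * p := by
  haveI : NeZero m := ⟨hm.ne'⟩
  set k := m / 2 with hk
  have hk1 : m < 2 * (k + 1) := by omega
  have hk2 : 2 * k ≤ m := by omega
  let a : ℕ → ZMod m := fun i => ((ε i * (i : ℤ) : ℤ) : ZMod m)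
  -- injectivity
  have hinj : Set.InjOn a (Finset.range (k + 1) : Set ℕ) := by
    have key : ∀ i j : ℕ, i < j → j ≤ k → a i ≠ a j := by
      intro i j hij hj heq
      have h1 : (m : ℤ) ∣ ε j * (j : ℤ) - ε i * (i : ℤ) := by
        have : ((ε i * (i : ℤ) : ℤ) : ZMod m) = ((ε j * (j : ℤ) : ℤ) : ZMod m) := heq
        rwa [ZMod.intCast_eq_intCast_iff_dvd_sub] at this
      have h2 : (m : ℤ) ∣ (j : ℤ) - i ∨ (m : ℤ) ∣ (j : ℤ) + i := by
        rcases hε i with h | h <;> rcases hε j with h' | h' <;> rw [h, h'] at h1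
        · left; simpa using h1
        · right
          obtain ⟨c, hc⟩ := h1
          exact ⟨-c, by rw [mul_neg]; linarith⟩
        · right
          convert h1 using 1; ring
        · left
          obtain ⟨c, hc⟩ := h1
          exact ⟨-c, by rw [mul_neg]; linarith⟩
      rcases h2 with h2 | h2
      · have := Int.le_of_dvd (by omega) h2
        omega
      · have := Int.le_of_dvd (by omega) h2
        omega
    intro i hi j hj heq
    simp only [Finset.coe_range, Set.mem_Iio] at hi hj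
    by_contra hne
    rcases lt_or_gt_of_ne hne with h | h
    · exact key i j h (by omega) heq
    · exact key j i h (by omega) heq.symm
  set S : Finset (ZMod m) := (Finset.range (k + 1)).image a with hS
  have hScard : S.card = k + 1 := by
    rw [hS, Finset.card_image_of_injOn hinj, Finset.card_range]
  set S' : Finset (ZMod m) := S.image (fun z => (2 * (p : ZMod m)) - z) with hS'
  have hScard' : S'.card = k + 1 := by
    rw [hS', Finset.card_image_of_injective _ (fun x y hxy => by simpa using hxy), hScard]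
  have hne : (S ∩ S').Nonempty := by
    rw [← Finset.card_pos]
    have h1 := Finset.card_union_add_card_inter S S'
    have h2 : (S ∪ S').card ≤ m := by
      have := Finset.card_le_univ (S ∪ S')
      rwa [ZMod.card] at this
    omega
  obtain ⟨z, hz⟩ := hne
  rw [Finset.mem_inter] at hz
  obtain ⟨hz1, hz2⟩ := hz
  rw [hS, Finset.mem_image] at hz1
  obtain ⟨i, hi, rfl⟩ := hz1
  rw [hS', Finset.mem_image] at hz2
  obtain ⟨z', hz', hzz⟩ := hz2
  rw [hS, Finset.mem_image] at hz'
  obtain ⟨j, hj, rfl⟩ := hz'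
  rw [Finset.mem_range] at hi hj
  refine ⟨i, by omega, j, by omega, ?_⟩
  rw [← ZMod.intCast_zmod_eq_zero_iff_dvd]
  have h3 : ((ε i * (i : ℤ) : ℤ) : ZMod m) = 2 * (p : ZMod m) - ((ε j * (j : ℤ) : ℤ) : ZMod m) :=
    hzz.symm
  push_cast at h3 ⊢
  rw [h3]
  ring

end Pool.Agent.Work.MP_b44cb1_al
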