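import Pool.Agent.Work.MP_b44cb1_al.ResA

/-!
# TStep  (size S-M)  : distributing commutators
-/

set_option autoImplicit false

namespace Pool.Agent.Work.MP_b44cb1_al

open Subgroup
open scoped commutatorElement

variable {G : Type*} [Group G]

theorem lcs_le_iSup (L R : Subgroup G) (A B : ℕ → Subgroup G)
    (hA : ∀ j, A j ≤ L ∧ Nz L (A j)) (hB : ∀ j, B j ≤ L ∧ Nz L (B j))
    (hR0 : R ≤ A 0) (hR : ∀ j, R ≤ A j ⊔ B j) (k : ℕ) :
    lcs R k ≤ ⨆ S ∈ (Finset.range (k + 1)).powerset,
      ⨅ j ∈ Finset.range (k + 1), (if j ∈ S then A j else B j) := by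
  induction k with
  | zero =>
    rw [lcs_zero]
    refine hR0.trans ?_
    refine le_trans ?_ (le_iSup₂ (f := fun S (_ : S ∈ (Finset.range (0 + 1)).powerset) =>
      ⨅ j ∈ Finset.range (0 + 1), (if j ∈ S then A j else B j)) {0} (by simp))
    simp
  | succ k ih =>
    rw [lcs_succ]
    set E : ℕ → Finset ℕ → Subgroup G := fun k S =>
      ⨅ j ∈ Finset.range (k + 1), (if j ∈ S then A j else B j) with hE
    have hEL : ∀ S, E k S ≤ L := by
      intro S
      have : E k S ≤ (if 0 ∈ S then A 0 else B 0) :=
        iInf₂_le (f := fun j (_ : j ∈ Finset.range (k + 1)) => (if j ∈ S then A j else B j)) 0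
          (by simp)
      refine this.trans ?_
      split_ifs
      · exact (hA 0).1
      · exact (hB 0).1
    have hEnz : ∀ S, Nz L (E k S) := by
      intro S
      apply nz_biInf
      intro j _
      split_ifs
      · exact (hA j).2
      · exact (hB j).2
    have h1 : ⁅lcs R k, R⁆ ≤ ⁅⨆ S ∈ (Finset.range (k + 1)).powerset, E k S,
        A (k + 1) ⊔ B (k + 1)⁆ := commutator_mono ih (hR (k + 1))
    refine h1.trans ?_
    refine (comm_biSup_left _ (E k) L _ (fun S _ => hEL S) (fun S _ => hEnz S)
      (sup_le (hA _).1 (hB _).1) ((hA _).2.sup (hB _).2)).trans ?_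
    refine iSup₂_le fun S hS => ?_
    rw [Finset.mem_powerset] at hS
    refine (comm_sup_right (hEL S) (hA _).1 (hB _).1 (hEnz S) (hA _).2 (hB _).2).trans ?_
    have hnot : k + 1 ∉ S := fun h => by
      have := hS h
      simp at this
    refine sup_le ?_ ?_
    · have h2 : ⁅E k S, A (k + 1)⁆ ≤ E (k + 1) (insert (k + 1) S) := by
        refine (comm_le_inf (hEL S) (hA _).1 (hEnz S) (hA _).2).trans ?_
        refine le_iInf₂ fun j hj => ?_
        rw [Finset.mem_range] at hj
        rcases Nat.lt_or_ge j (k + 1) with h | h
        · refine inf_le_left.trans ?_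
          have h3 : E k S ≤ (if j ∈ S then A j else B j) :=
            iInf₂_le (f := fun j (_ : j ∈ Finset.range (k + 1)) => (if j ∈ S then A j else B j)) j
              (by simpa using h)
          refine h3.trans ?_
          have h4 : (j ∈ insert (k + 1) S) ↔ j ∈ S := by
            rw [Finset.mem_insert]
            constructor
            · rintro (h | h)
              · omega
              · exact h
            · exact Or.inr
          simp only [h4]
          exact le_rfl
        · have : j = k + 1 := by omega
          subst this
          simp only [Finset.mem_insert_self, if_true]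
          exact inf_le_right
      refine h2.trans ?_
      refine le_iSup₂ (f := fun S (_ : S ∈ (Finset.range (k + 1 + 1)).powerset) => E (k + 1) S)
        (insert (k + 1) S) ?_
      rw [Finset.mem_powerset]
      intro x hx
      rw [Finset.mem_insert] at hx
      rw [Finset.mem_range]
      rcases hx with rfl | hx
      · omega
      · have := Finset.mem_range.1 (hS hx)
        omega
    · have h2 : ⁅E k S, B (k + 1)⁆ ≤ E (k + 1) S := by
        refine (comm_le_inf (hEL S) (hB _).1 (hEnz S) (hB _).2).trans ?_
        refine le_iInf₂ fun j hj => ?_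
        rw [Finset.mem_range] at hj
        rcases Nat.lt_or_ge j (k + 1) with h | h
        · refine inf_le_left.trans ?_
          exact iInf₂_le (f := fun j (_ : j ∈ Finset.range (k + 1)) =>
            (if j ∈ S then A j else B j)) j (by simpa using h)
        · have : j = k + 1 := by omega
          subst this
          simp only [hnot, if_false]
          exact inf_le_right
      refine h2.trans ?_
      refine le_iSup₂ (f := fun S (_ : S ∈ (Finset.range (k + 1 + 1)).powerset) => E (k + 1) S)
        S ?_
      rw [Finset.mem_powerset]
      intro x hx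
      rw [Finset.mem_range]
      have := Finset.mem_range.1 (hS hx)
      omega

end Pool.Agent.Work.MP_b44cb1_al
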