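import Pool.Agent.Work.MP_b44cb1_al.ResB
import Pool.Agent.Work.MP_b44cb1_al.TStep
import Pool.Agent.Work.MP_b44cb1_al.Pigeon

/-!
# TMain  (size M)  : property (T) from property (TD)
-/

set_option autoImplicit false

namespace Pool.Agent.Work.MP_b44cb1_al

open Subgroup
open scoped commutatorElement

variable {G : Type*} [Group G]

private theorem tm_cj_pow {g : G} {L : Subgroup G} (h : cj g L = L) (j : ℤ) :
    cj (g ^ j) L = L := by
  have hn : ∀ n : ℕ, cj (g ^ n) L = L := by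
    intro n
    induction n with
    | zero => rw [pow_zero, cj_one]
    | succ n ih => rw [pow_succ, cj_mul, h, ih]
  obtain ⟨n, rfl | rfl⟩ := j.eq_nat_or_neg
  · rw [zpow_natCast]; exact hn n
  · rw [zpow_neg, zpow_natCast]
    have := cj_inv_cj (g ^ n) L
    rwa [hn n] at this

theorem tp_of_tdp [Finite G] {h : ℕ} (H : TDp h G) : Tp h G := by
  intro C L g hCL hCn hgL
  have hmpos : 0 < orderOf g := orderOf_pos g
  have hL : ∀ j : ℤ, cj (g ^ j) L = L := tm_cj_pow hgL
  let D : ℤ → Subgroup G := fun j => cj (g ^ j) C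
  have hDL : ∀ j, D j ≤ L := fun j => (cj_mono hCL).trans (hL j).le
  have hDn : ∀ j, Nz L (D j) := by
    intro j l hl d hd
    have hd' : (g ^ j)⁻¹ * d * g ^ j ∈ C := mem_cj.1 hd
    have hl' : (g ^ j)⁻¹ * l * g ^ j ∈ L := by
      rw [← hL j, mem_cj] at hl; exact hl
    have := hCn _ hl' _ hd'
    show l * d * l⁻¹ ∈ cj (g ^ j) C
    rw [mem_cj]
    convert this using 1
    group
  have hDcj : ∀ i j, cj (g ^ i) (D j) = D (i + j) := by
    intro i j
    show cj (g ^ i) (cj (g ^ j) C) = cj (g ^ (i + j)) C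
    rw [← cj_mul, zpow_add]
  have hDcj' : ∀ i j, cj (g ^ i)⁻¹ (D j) = D (-i + j) := by
    intro i j
    rw [← zpow_neg]; exact hDcj _ _
  have hD0 : D 0 = C := by
    show cj (g ^ (0 : ℤ)) C = C
    rw [zpow_zero, cj_one]
  have hDper : ∀ i j : ℤ, (orderOf g : ℤ) ∣ i - j → D i = D j := by
    intro i j hij
    have h1 : g ^ (i - j) = 1 := orderOf_dvd_iff_zpow_eq_one.1 hij
    have h2 : g ^ i = g ^ j := by
      have : i = (i - j) + j := by ring
      rw [this, zpow_add, h1, one_mul]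
    show cj (g ^ i) C = cj (g ^ j) C
    rw [h2]
  -- (1)
  have h1 : ∀ j : ℕ, res^[h] C ≤ D j ⊔ D (-(j : ℤ)) := by
    intro j
    have := H (D j ⊔ D (-(j : ℤ))) L (g ^ (j : ℤ)) (sup_le (hDL _) (hDL _))
      ((hDn _).sup (hDn _)) (hL _)
    refine (resI_mono ?_ h).trans this
    rw [cj_sup, cj_sup, hDcj, hDcj, hDcj', hDcj']
    have e1 : -(j : ℤ) + j = 0 := by ring
    have e2 : (j : ℤ) + -(j : ℤ) = 0 := by ring
    rw [e1, e2, hD0]
    refine le_inf ?_ ?_
    · exact le_sup_of_le_left le_sup_left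
    · exact le_sup_of_le_left le_sup_right
  -- (2)
  have h2 := lcs_le_iSup L (res^[h] C) (fun j : ℕ => D j) (fun j : ℕ => D (-(j : ℤ)))
    (fun j => ⟨hDL _, hDn _⟩) (fun j => ⟨hDL _, hDn _⟩)
    (by
      show res^[h] C ≤ D ((0 : ℕ) : ℤ)
      rw [Nat.cast_zero, hD0]; exact resI_le C h)
    h1 (orderOf g / 2)
  -- (3)
  have h3 : ∀ S : Finset ℕ, res^[h] (⨅ j ∈ Finset.range (orderOf g / 2 + 1),
      (if j ∈ S then D (j : ℤ) else D (-(j : ℤ)))) ≤ D 1 := by
    intro S
    let ε : ℕ → ℤ := fun j => if j ∈ S then 1 else -1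
    have hε : ∀ i, ε i = 1 ∨ ε i = -1 := by
      intro i
      show (if i ∈ S then (1 : ℤ) else -1) = 1 ∨ (if i ∈ S then (1 : ℤ) else -1) = -1
      split_ifs
      · exact Or.inl rfl
      · exact Or.inr rfl
    have hcomp : ∀ j ≤ orderOf g / 2, (⨅ j ∈ Finset.range (orderOf g / 2 + 1),
        (if j ∈ S then D (j : ℤ) else D (-(j : ℤ)))) ≤ D (ε j * j) := by
      intro j hj
      have e : D (ε j * j) = (if j ∈ S then D (j : ℤ) else D (-(j : ℤ))) := by
        show D ((if j ∈ S then (1 : ℤ) else -1) * j) = _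
        split_ifs
        · rw [one_mul]
        · rw [neg_one_mul]
      rw [e]
      exact iInf₂_le (f := fun j (_ : j ∈ Finset.range (orderOf g / 2 + 1)) =>
        (if j ∈ S then D (j : ℤ) else D (-(j : ℤ)))) j (Finset.mem_range.2 (by omega))
    obtain ⟨i, hi, j, hj, hdvd⟩ := pigeon (orderOf g) hmpos ε hε 1
    set t : ℤ := ε i * i - 1 with ht
    have hTD := H (D 1) L (g ^ t) (hDL _) (hDn _) (hL _)
    refine (resI_mono ?_ h).trans hTD
    rw [hDcj, hDcj']
    have e1 : t + 1 = ε i * i := by rw [ht]; ring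
    have e2 : D (-t + 1) = D (ε j * j) := by
      apply hDper
      have : -t + 1 - ε j * j = -(ε i * i + ε j * j - 2 * 1) := by rw [ht]; ring
      rw [this]
      exact (dvd_neg).2 hdvd
    rw [e1, e2]
    refine le_inf ?_ ?_
    · exact (hcomp j hj).trans le_sup_left
    · exact (hcomp i hi).trans le_sup_left
  -- (4)
  have e : 2 * h + 1 = h + (1 + h) := by ring
  rw [e, Function.iterate_add_apply, Function.iterate_add_apply]
  have h4 : res^[1] (res^[h] C) ≤ ⨆ S ∈ (Finset.range (orderOf g / 2 + 1)).powerset,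
      ⨅ j ∈ Finset.range (orderOf g / 2 + 1),
        (if j ∈ S then D (j : ℤ) else D (-(j : ℤ))) :=
    (res_le_lcs _ _).trans h2
  have hg1 : D 1 = cj g C := by
    show cj (g ^ (1 : ℤ)) C = cj g C
    rw [zpow_one]
  rw [← hg1]
  refine (resI_mono h4 h).trans ?_
  refine (resI_biSup_le _ _ L ?_ ?_ h).trans (iSup₂_le fun S _ => h3 S)
  · intro S _
    have : (⨅ j ∈ Finset.range (orderOf g / 2 + 1),
        (if j ∈ S then D (j : ℤ) else D (-(j : ℤ)))) ≤
        (if 0 ∈ S then D ((0 : ℕ) : ℤ) else D (-((0 : ℕ) : ℤ))) :=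
      iInf₂_le (f := fun j (_ : j ∈ Finset.range (orderOf g / 2 + 1)) =>
        (if j ∈ S then D (j : ℤ) else D (-(j : ℤ)))) 0 (by simp)
    refine this.trans ?_
    split_ifs
    · exact hDL _
    · exact hDL _
  · intro S _
    apply nz_biInf
    intro j _
    split_ifs
    · exact hDn _
    · exact hDn _

end Pool.Agent.Work.MP_b44cb1_al
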