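import Pool.Agent.Work.MP_b44cb1_al.Kit

/-!
# ResA  (size S-M)  : basic properties of the nilpotent residual `res K = ⨅ n, lcs K n`
-/

set_option autoImplicit false

namespace Pool.Agent.Work.MP_b44cb1_al

open Subgroup
open scoped commutatorElement

variable {G : Type*} [Group G]

theorem lcs_anti (K : Subgroup G) {m n : ℕ} (h : m ≤ n) : lcs K n ≤ lcs K m := by
  have hstep : ∀ n, lcs K (n + 1) ≤ lcs K n := by
    intro n
    induction n with
    | zero => exact lcs_le K 1
    | succ n ih =>
      rw [lcs_succ K (n + 1), lcs_succ K n]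
      refine commutator_mono ?_ le_rfl
      rw [← lcs_succ]
      exact ih
  exact antitone_nat_of_succ_le hstep h

theorem lcs_mono {K L : Subgroup G} (h : K ≤ L) (n : ℕ) : lcs K n ≤ lcs L n := by
  induction n with
  | zero => exact h
  | succ n ih => rw [lcs_succ, lcs_succ]; exact commutator_mono ih h

theorem res_mono {K L : Subgroup G} (h : K ≤ L) : res K ≤ res L :=
  iInf_mono fun n => lcs_mono h n

theorem resI_mono {K L : Subgroup G} (h : K ≤ L) (n : ℕ) : res^[n] K ≤ res^[n] L := by
  induction n with
  | zero => exact h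
  | succ n ih =>
    rw [Function.iterate_succ_apply', Function.iterate_succ_apply']
    exact res_mono ih

theorem resI_le (K : Subgroup G) (n : ℕ) : res^[n] K ≤ K := by
  induction n with
  | zero => exact le_rfl
  | succ n ih => rw [Function.iterate_succ_apply']; exact (res_le _).trans ih

theorem resI_anti (K : Subgroup G) {m n : ℕ} (h : m ≤ n) : res^[n] K ≤ res^[m] K := by
  obtain ⟨d, rfl⟩ := Nat.exists_eq_add_of_le h
  rw [add_comm, Function.iterate_add_apply]
  exact resI_le _ d

private theorem ra_stable [Finite G] (K : Subgroup G) :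
    ∃ c, ∀ n, c ≤ n → lcs K n = lcs K c := by
  obtain ⟨c, hc⟩ := WellFounded.has_min (measure fun n : ℕ => Nat.card (lcs K n)).wf
    Set.univ ⟨0, trivial⟩
  refine ⟨c, fun n hn => ?_⟩
  have h1 := lcs_anti K hn
  have h2 : ¬ Nat.card (lcs K n) < Nat.card (lcs K c) := hc.2 n trivial
  push Not at h2
  exact Subgroup.eq_of_le_of_card_ge h1 h2

theorem exists_lcs_eq_res [Finite G] (K : Subgroup G) : ∃ c, lcs K c = res K := by
  obtain ⟨c, hc⟩ := ra_stable K
  refine ⟨c, le_antisymm (le_iInf fun n => ?_) (res_le_lcs K c)⟩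
  rcases le_total c n with h | h
  · rw [hc n h]
  · exact lcs_anti K h

theorem lcs_map {G' : Type*} [Group G'] (f : G →* G') (K : Subgroup G) (n : ℕ) :
    lcs (K.map f) n = (lcs K n).map f := by
  induction n with
  | zero => rfl
  | succ n ih => rw [lcs_succ, lcs_succ, Subgroup.map_commutator, ih]

theorem res_map {G' : Type*} [Group G'] [Finite G] (f : G →* G') (K : Subgroup G) :
    res (K.map f) = (res K).map f := by
  obtain ⟨c, hc⟩ := ra_stable K
  have h1 : res K = lcs K c := by
    refine le_antisymm (res_le_lcs K c) (le_iInf fun n => ?_)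
    rcases le_total c n with h | h
    · rw [hc n h]
    · exact lcs_anti K h
  rw [h1]
  refine le_antisymm ?_ (le_iInf fun n => ?_)
  · rw [← lcs_map]; exact res_le_lcs _ c
  · rw [lcs_map]
    rcases le_total c n with h | h
    · rw [hc n h]
    · exact Subgroup.map_mono (lcs_anti K h)

theorem resI_map {G' : Type*} [Group G'] [Finite G] (f : G →* G') (K : Subgroup G) (n : ℕ) :
    res^[n] (K.map f) = (res^[n] K).map f := by
  induction n with
  | zero => rfl
  | succ n ih => rw [Function.iterate_succ_apply', Function.iterate_succ_apply', ih, res_map]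

theorem res_of_comm {K : Subgroup G} (h : Cz K K) : res K = ⊥ := by
  rw [eq_bot_iff]
  refine (res_le_lcs K 1).trans ?_
  rw [lcs_succ, lcs_zero, commutator_le]
  intro a ha b hb
  rw [Subgroup.mem_bot, commutatorElement_eq_one_iff_mul_comm]
  exact h a ha b hb

theorem resI_bot (n : ℕ) : res^[n] (⊥ : Subgroup G) = ⊥ :=
  le_bot_iff.1 (resI_le ⊥ n)

theorem le_res {X Y K : Subgroup G} (hX : X ≤ K) (hY : Y ≤ K) (h : X ≤ ⁅X, Y⁆) :
    X ≤ res K := by
  refine le_iInf fun n => ?_
  induction n with
  | zero => exact hX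
  | succ n ih => rw [lcs_succ]; exact h.trans (commutator_mono ih hY)

theorem resI_chain (m : ℕ) (A : ℕ → Subgroup G) (K : Subgroup G) (hA : ∀ l ≤ m, A l ≤ K)
    (h : ∀ l < m, A (l + 1) ≤ ⁅A (l + 1), A l⁆) : A m ≤ res^[m] K := by
  induction m generalizing A K with
  | zero => exact hA 0 le_rfl
  | succ m ih =>
    rw [Function.iterate_succ_apply]
    refine ih (fun l => A (l + 1)) (res K) (fun l hl => ?_) (fun l hl => h (l + 1) (by omega))
    exact le_res (hA (l + 1) (by omega)) (hA l (by omega)) (h l (by omega))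

private theorem ra_nz_lcs {L K : Subgroup G} (h : Nz L K) (n : ℕ) : Nz L (lcs K n) := by
  induction n with
  | zero => exact h
  | succ n ih => rw [lcs_succ]; exact nz_comm ih h

theorem nz_res {L K : Subgroup G} (h : Nz L K) : Nz L (res K) := by
  intro g hg d hd
  unfold res at *
  rw [Subgroup.mem_iInf] at *
  exact fun n => ra_nz_lcs h n g hg d (hd n)

theorem nz_resI {L K : Subgroup G} (h : Nz L K) (n : ℕ) : Nz L (res^[n] K) := by
  induction n with
  | zero => exact h
  | succ n ih => rw [Function.iterate_succ_apply']; exact nz_res ih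

theorem resI_normal {K : Subgroup G} (h : K.Normal) (n : ℕ) : (res^[n] K).Normal := by
  have h1 : Nz ⊤ K := fun g _ d hd => h.conj_mem d hd g
  have h2 := nz_resI h1 n
  exact ⟨fun d hd g => h2 g trivial d hd⟩

theorem cj_resI [Finite G] (g : G) (K : Subgroup G) (n : ℕ) :
    cj g (res^[n] K) = res^[n] (cj g K) := by
  unfold cj
  rw [resI_map]

end Pool.Agent.Work.MP_b44cb1_al
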