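import Pool.Agent.Work.MP_b44cb1_al.OmA

/-!
# OmAb  (size M)  : elements fixing an orbit of hyperplanes commute

`1 ≤ b < n`, `A = P (b-1)`, `q = p (b-1)`, `U ∈ Om P p b`, `K ≤ Gs P (b-1)` such that every `k ∈ K`
normalises every `cj g U`, `g ∈ Gs P (b-1)`. Claim: `K` is commutative.
(1) Let `I = ⨅ g ∈ Gs P (b-1), cj g U`. It is `≤ U ≤ A`, and normalised by `Gs P (b-1)`
(reindex), so `I = ⊥` or `I = A` (`T.irr (b-1)`); `I = A` is impossible as `I ≤ U` and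
`|A| = q |U| > |U|`. So `I = ⊥`.
(2) Let `k, k' ∈ K`, `c = k k' k⁻¹ k'⁻¹ ∈ Gs P (b-1)`. For every `g ∈ Gs P (b-1)` and `v ∈ A`:
`c v c⁻¹ v⁻¹ ∈ H := cj g U`. Indeed `H` has index `q` (prime) in the commutative group `A`, `k` and
`k'` act on the cyclic group `A/H` of order `q`, and endomorphisms of a cyclic group commute: pick
`v₀ ∈ A` outside `H`; every element of `A` is `v₀^i h` (`h ∈ H`); `k v₀ k⁻¹ ∈ v₀^i H`,
`k' v₀ k'⁻¹ ∈ v₀^j H`, so both `k k'` and `k' k` conjugate `v₀` into `v₀^(ij) H`.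
(3) So `c v c⁻¹ v⁻¹ ∈ I = ⊥` for all `v ∈ A`, and `c = 1` by `T.faith (b-1)`.
-/

set_option autoImplicit false

namespace Pool.Agent.Work.MP_b44cb1_al

open Subgroup
open scoped commutatorElement

variable {G : Type*} [Group G] {P : ℕ → Subgroup G} {p : ℕ → ℕ} {n : ℕ}

/-- conjugations of a hyperplane quotient commute. -/
private theorem omab_key [Finite G] {A H : Subgroup G} {q : ℕ} (hq : q.Prime) (hA : Cz A A)
    (_hAq : ∀ a ∈ A, a ^ q = 1) (hHA : H ≤ A) (hcard : Nat.card A = q * Nat.card H)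
    {k k' : G} (hk : cj k H = H) (hk' : cj k' H = H) (hkA : cj k A = A) (hkA' : cj k' A = A)
    (v : G) (hv : v ∈ A) :
    (k * k') * v * (k * k')⁻¹ * ((k' * k) * v * (k' * k)⁻¹)⁻¹ ∈ H := by
  classical
  have hkm : ∀ x ∈ A, k * x * k⁻¹ ∈ A := fun x hx => by
    rw [← hkA]; exact conj_mem_cj hx
  have hkm' : ∀ x ∈ A, k' * x * k'⁻¹ ∈ A := fun x hx => by
    rw [← hkA']; exact conj_mem_cj hx
  have hkh : ∀ x ∈ H, k * x * k⁻¹ ∈ H := fun x hx => by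
    rw [← hk]; exact conj_mem_cj hx
  have hkh' : ∀ x ∈ H, k' * x * k'⁻¹ ∈ H := fun x hx => by
    rw [← hk']; exact conj_mem_cj hx
  have hHpos : 0 < Nat.card H := Nat.card_pos
  -- a generator modulo `H`
  obtain ⟨v₀, hv₀, hv₀H⟩ : ∃ v₀ ∈ A, v₀ ∉ H := by
    by_contra hcon
    push Not at hcon
    have h1 : H = A := le_antisymm hHA hcon
    rw [h1] at hcard
    have h2 := hq.two_le
    rw [h1] at hHpos
    nlinarith
  have hgen : H ⊔ zpowers v₀ = A := by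
    have hle : H ⊔ zpowers v₀ ≤ A := sup_le hHA (by rwa [Subgroup.zpowers_le])
    obtain ⟨m, hm⟩ := Subgroup.card_dvd_of_le (le_sup_left : H ≤ H ⊔ zpowers v₀)
    have hm1 : m ≠ 1 := by
      rintro rfl
      have h1 : H = H ⊔ zpowers v₀ := Subgroup.eq_of_le_of_card_ge le_sup_left (by omega)
      apply hv₀H
      rw [h1]
      exact mem_sup_right (Subgroup.mem_zpowers v₀)
    have hmq : m ∣ q := by
      have h1 := Subgroup.card_dvd_of_le hle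
      rw [hm, hcard, mul_comm q] at h1
      exact Nat.dvd_of_mul_dvd_mul_left hHpos h1
    rcases (Nat.dvd_prime hq).1 hmq with h1 | h1
    · exact absurd h1 hm1
    · refine Subgroup.eq_of_le_of_card_ge hle ?_
      rw [hm, h1, hcard, mul_comm]
  have hN : zpowers v₀ ≤ normalizer (H : Set G) := by
    rw [← nz_iff]
    intro g hg d hd
    have hgA : g ∈ A := by
      have : zpowers v₀ ≤ A := by rwa [Subgroup.zpowers_le]
      exact this hg
    rw [hA g hgA d (hHA hd)]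
    simpa using hd
  have hdec : ∀ x ∈ A, ∃ h ∈ H, ∃ i : ℤ, x = h * v₀ ^ i := by
    intro x hx
    rw [← hgen, ← SetLike.mem_coe, coe_mul_of_right_le_normalizer_left _ _ hN] at hx
    obtain ⟨h, hh, z, hz, hhz⟩ := hx
    obtain ⟨i, rfl⟩ := hz
    exact ⟨h, hh, i, hhz.symm⟩
  obtain ⟨h₁, hh₁, i, hi⟩ := hdec _ (hkm v₀ hv₀)
  obtain ⟨h₂, hh₂, j, hj⟩ := hdec _ (hkm' v₀ hv₀)
  -- work modulo `H`
  have hAH : Nz A H := by
    intro g hg d hd
    rw [hA g hg d (hHA hd)]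
    simpa using hd
  have hnorm : (H.subgroupOf A).Normal := hAH.subgroupOf_normal
  set π := QuotientGroup.mk' (H.subgroupOf A) with hπ
  have hπeq : ∀ (x y : G) (hx : x ∈ A) (hy : y ∈ A), π ⟨x, hx⟩ = π ⟨y, hy⟩ ↔ x⁻¹ * y ∈ H := by
    intro x y hx hy
    rw [hπ]
    simp only [QuotientGroup.mk'_apply]
    rw [QuotientGroup.eq, mem_subgroupOf]
    simp
  have hπH : ∀ x (hx : x ∈ H), π ⟨x, hHA hx⟩ = 1 := by
    intro x hx
    have := (hπeq x 1 (hHA hx) (one_mem A)).2 (by simpa using inv_mem hx)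
    rw [this]
    exact map_one π
  have hact : ∀ (κ : G) (hκA : ∀ x ∈ A, κ * x * κ⁻¹ ∈ A) (hκH : ∀ x ∈ H, κ * x * κ⁻¹ ∈ H)
      (h : G) (hh : h ∈ H) (i : ℤ), κ * v₀ * κ⁻¹ = h * v₀ ^ i →
      ∀ x (hx : x ∈ A), π ⟨κ * x * κ⁻¹, hκA x hx⟩ = (π ⟨x, hx⟩) ^ i := by
    intro κ hκA hκH h hh i hi x hx
    obtain ⟨h', hh', t, ht⟩ := hdec x hx
    have e1 : π ⟨x, hx⟩ = (π ⟨v₀, hv₀⟩) ^ t := by
      have : (⟨x, hx⟩ : A) = ⟨h', hHA hh'⟩ * (⟨v₀, hv₀⟩ : A) ^ t :=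
        Subtype.ext (by push_cast; exact ht)
      rw [this, map_mul, hπH h' hh', one_mul, map_zpow]
    have e2 : π ⟨κ * v₀ * κ⁻¹, hκA v₀ hv₀⟩ = (π ⟨v₀, hv₀⟩) ^ i := by
      have : (⟨κ * v₀ * κ⁻¹, hκA v₀ hv₀⟩ : A) = ⟨h, hHA hh⟩ * (⟨v₀, hv₀⟩ : A) ^ i :=
        Subtype.ext (by push_cast; exact hi)
      rw [this, map_mul, hπH h hh, one_mul, map_zpow]
    have e3 : (⟨κ * x * κ⁻¹, hκA x hx⟩ : A)
        = ⟨κ * h' * κ⁻¹, hHA (hκH h' hh')⟩ * (⟨κ * v₀ * κ⁻¹, hκA v₀ hv₀⟩ : A) ^ t := by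
      apply Subtype.ext
      push_cast
      rw [ht, conj_zpow]
      simp [mul_assoc]
    rw [e3, map_mul, hπH _ (hκH h' hh'), one_mul, map_zpow, e2, e1, ← zpow_mul, ← zpow_mul,
      mul_comm]
  have hA1 := hact k hkm hkh h₁ hh₁ i hi
  have hA2 := hact k' hkm' hkh' h₂ hh₂ j hj
  have e1 : π ⟨k * (k' * v * k'⁻¹) * k⁻¹, hkm _ (hkm' v hv)⟩
      = π ⟨k' * (k * v * k⁻¹) * k'⁻¹, hkm' _ (hkm v hv)⟩ := by
    rw [hA1 _ (hkm' v hv), hA2 _ (hkm v hv), hA1 v hv, hA2 v hv, ← zpow_mul, ← zpow_mul,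
      mul_comm]
  have e2 := (hπeq _ _ _ _).1 e1.symm
  have e3 : (k * k') * v * (k * k')⁻¹ * ((k' * k) * v * (k' * k)⁻¹)⁻¹
      = (k' * (k * v * k⁻¹) * k'⁻¹)⁻¹ * (k * (k' * v * k'⁻¹) * k⁻¹) := by
    have h1 : (k * k') * v * (k * k')⁻¹ = k * (k' * v * k'⁻¹) * k⁻¹ := by simp [mul_assoc]
    have h2 : (k' * k) * v * (k' * k)⁻¹ = k' * (k * v * k⁻¹) * k'⁻¹ := by simp [mul_assoc]
    rw [h1, h2]
    exact hA _ (hkm _ (hkm' v hv)) _ (inv_mem (hkm' _ (hkm v hv)))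
  rw [e3]
  exact e2

theorem om_abel [Finite G] (T : Tower P p n) {b : ℕ} (hb : 1 ≤ b) (hbn : b < n)
    {U : Subgroup G} (hU : U ∈ Om P p b) (K : Subgroup G) (hK : K ≤ Gs P (b - 1))
    (hfix : ∀ k ∈ K, ∀ g ∈ Gs P (b - 1), cj k (cj g U) = cj g U) : Cz K K := by
  have hb1 : b - 1 < n := by omega
  have hq := T.prime (b - 1) hb1
  have hAn : Nz (Gs P (b - 1)) (P (b - 1)) := T.norm (b - 1) hb1
  have hA : Cz (P (b - 1)) (P (b - 1)) := T.comm (b - 1) hb1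
  -- the core
  let I : Subgroup G :=
    { carrier := {x | ∀ g ∈ Gs P (b - 1), x ∈ cj g U}
      one_mem' := fun g _ => one_mem _
      mul_mem' := fun hx hy g hg => mul_mem (hx g hg) (hy g hg)
      inv_mem' := fun hx g hg => inv_mem (hx g hg) }
  have hImem : ∀ x, x ∈ I ↔ ∀ g ∈ Gs P (b - 1), x ∈ cj g U := fun x => Iff.rfl
  have hIU : I ≤ U := by
    intro x hx
    have := hx 1 (one_mem _)
    rwa [cj_one] at this
  have hIn : Nz (Gs P (b - 1)) I := by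
    intro g hg d hd
    rw [hImem] at hd ⊢
    intro g' hg'
    have h1 := hd (g⁻¹ * g') (mul_mem (inv_mem hg) hg')
    have h2 := conj_mem_cj (g := g) h1
    rwa [← cj_mul, mul_inv_cancel_left] at h2
  have hIbot : I = ⊥ := by
    rcases T.irr (b - 1) hb1 I (hIU.trans hU.1) hIn with h | h
    · exact h
    · exfalso
      have h1 : U = P (b - 1) := le_antisymm hU.1 (h ▸ hIU)
      have h2 := hU.2.1
      rw [h1] at h2
      have h3 : 0 < Nat.card (P (b - 1)) := Nat.card_pos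
      have h4 := hq.two_le
      nlinarith
  intro k hk k' hk'
  have hkG := hK hk
  have hkG' := hK hk'
  have hc : (k' * k)⁻¹ * (k * k') ∈ Gs P (b - 1) :=
    mul_mem (inv_mem (mul_mem hkG' hkG)) (mul_mem hkG hkG')
  have h1 : (k' * k)⁻¹ * (k * k') = 1 := by
    refine T.faith (b - 1) hb1 _ hc fun v hv => ?_
    have h2 : (k * k') * v * (k * k')⁻¹ * ((k' * k) * v * (k' * k)⁻¹)⁻¹ ∈ I := by
      rw [hImem]
      intro g hg
      refine omab_key hq hA (T.expo (b - 1) hb1) ?_ ?_ (hfix k hk g hg) (hfix k' hk' g hg)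
        (cj_eq_of_mem hAn hkG) (cj_eq_of_mem hAn hkG') v hv
      · have h3 := cj_mono (g := g) hU.1
        rwa [cj_eq_of_mem hAn hg] at h3
      · rw [card_cj]
        exact hU.2.1
    rw [hIbot, Subgroup.mem_bot, mul_inv_eq_one] at h2
    have h3 : (k * k') * v = (k' * k) * v * (k' * k)⁻¹ * (k * k') := by
      rw [← h2, inv_mul_cancel_right]
    rw [mul_assoc, h3]
    simp [mul_assoc]
  rw [inv_mul_eq_one] at h1
  exact h1.symm

end Pool.Agent.Work.MP_b44cb1_al
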