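import Pool.Agent.Work.MP_b44cb1_al.AbOrb
import Pool.Agent.Work.MP_b44cb1_al.AbFix
import Pool.Agent.Work.MP_b44cb1_al.OmAb
import Pool.Agent.Work.MP_b44cb1_al.ResA

/-!
# LemAb  (size M)  : Lemma Ab
-/

set_option autoImplicit false

namespace Pool.Agent.Work.MP_b44cb1_al

open Subgroup
open scoped commutatorElement

variable {G : Type*} [Group G] {P : ℕ → Subgroup G} {p : ℕ → ℕ} {n : ℕ}

/-- The chain `Y, ⁅P c, Y⁆, ⁅P (c+1), ⁅P c, Y⁆⁆, …`. -/
def chainA (P : ℕ → Subgroup G) (c : ℕ) (Y : Subgroup G) : ℕ → Subgroup G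
  | 0 => Y
  | (j + 1) => ⁅P (c + j), chainA P c Y j⁆

/-- Elements of `H` fixing all `cj m U`, `m ∈ N`. -/
def fixSub (H N U : Subgroup G) : Subgroup G where
  carrier := {g | g ∈ H ∧ ∀ m ∈ N, cj g (cj m U) = cj m U}
  one_mem' := ⟨one_mem _, fun m _ => cj_one _⟩
  mul_mem' := by
    rintro y y' ⟨hy, e⟩ ⟨hy', e'⟩
    exact ⟨mul_mem hy hy', fun m hm => by rw [cj_mul, e' m hm, e m hm]⟩
  inv_mem' := by
    rintro y ⟨hy, e⟩
    refine ⟨inv_mem hy, fun m hm => ?_⟩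
    have := cj_inv_cj y (cj m U)
    rwa [e m hm] at this

theorem lem_ab [Finite G] (T : Tower P p n) {h : ℕ} (HT : Tp h G) {b c : ℕ} (hbn : b < n)
    (hcb : c + 2 * h + 4 ≤ b) (Y : Subgroup G) (hY : Y ≤ Gs P c) (hYc : Cz Y Y) :
    ∃ U ∈ Om P p b, ∀ y ∈ Y, cj y U = U → y = 1 := by
  obtain ⟨U, hU, horb⟩ := ab_orb T hbn (by omega : c < b) Y hY hYc
  have hfix := ab_fix T hbn (by omega : c < b) Y U hY horb
  refine ⟨U, hU, ?_⟩
  by_contra hcon
  push Not at hcon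
  obtain ⟨y₀, hy₀, hy₀U, hy₀1⟩ := hcon
  have hSne : stabSub Y U ≠ ⊥ := by
    intro hbot
    have : y₀ ∈ stabSub Y U := ⟨hy₀, hy₀U⟩
    rw [hbot, Subgroup.mem_bot] at this
    exact hy₀1 this
  set N := NN P c (b - 1) with hN
  have hNnz : Nz (Gs P (b - 1)) N := T.nn_nz (by omega) (by omega)
  have hNle : N ≤ Gs P (b - 1) := nn_le P c (b - 1)
  set F := fixSub (Gs P (b - 1)) N U with hF
  have hFN : ∀ x ∈ N, ∀ g ∈ F, x * g * x⁻¹ ∈ F := by
    intro x hx g hg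
    refine ⟨mul_mem (mul_mem (hNle hx) hg.1) (inv_mem (hNle hx)), fun m hm => ?_⟩
    have h1 := hg.2 (x⁻¹ * m) (mul_mem (inv_mem hx) hm)
    calc cj (x * g * x⁻¹) (cj m U) = cj x (cj g (cj (x⁻¹ * m) U)) := by
          rw [← cj_mul, ← cj_mul, ← cj_mul]; congr 1; group
      _ = cj x (cj (x⁻¹ * m) U) := by rw [h1]
      _ = cj m U := by rw [← cj_mul]; congr 1; group
  set C := F ⊓ N with hC
  have hCN : C ≤ N := inf_le_right
  have hCn : Nz N C := fun g hg d hd => ⟨hFN g hg d hd.1, nz_self N g hg d hd.2⟩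
  let A := chainA P c (stabSub Y U)
  have hPN : ∀ j, c + j < b - 1 → P (c + j) ≤ N := fun j hj => le_nn P (by omega) hj
  have hA : ∀ j, c + j ≤ b - 1 → A j ≤ Gs P (c + j) ∧ A j ≠ ⊥ ∧ A j ≤ F := by
    intro j
    induction j with
    | zero =>
      intro _
      refine ⟨fun y hy => hY hy.1, hSne, fun y hy => ?_⟩
      exact ⟨gs_mono P (by omega) (hY hy.1), fun m hm => hfix y hy.1 hy.2 m hm⟩
    | succ j ih =>
      intro hj
      obtain ⟨h1, h2, h3⟩ := ih (by omega)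
      have hcn : c + j < n := by omega
      have h4 : ⁅P (c + j), A j⁆ ≤ P (c + j) := comm_le_left ((T.gs_nz le_rfl hcn).mono h1)
      refine ⟨h4.trans (le_gs P (by omega)), T.comm_ne_bot hcn (A j) h1 h2, ?_⟩
      show ⁅P (c + j), A j⁆ ≤ F
      rw [commutator_le]
      intro x hx g hg
      exact mul_mem (hFN x (hPN j (by omega) hx) g (h3 hg)) (inv_mem (h3 hg))
  have hAP : ∀ j, c + j + 1 ≤ b - 1 → A (j + 1) ≤ P (c + j) := by
    intro j hj
    obtain ⟨h1, -, -⟩ := hA j (by omega)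
    exact comm_le_left ((T.gs_nz le_rfl (by omega)).mono h1)
  have hAC : ∀ j, c + j + 1 ≤ b - 1 → A (j + 1) ≤ C := by
    intro j hj
    exact le_inf (hA (j + 1) (by omega)).2.2 ((hAP j hj).trans (hPN j (by omega)))
  have hAcomm : ∀ j, c + j + 1 ≤ b - 1 → A (j + 1) ≤ ⁅A (j + 1), A j⁆ := by
    intro j hj
    obtain ⟨h1, -, -⟩ := hA j (by omega)
    have hcn : c + j < n := by omega
    exact comm_comm_cop (P (c + j)) (A j) (T.comm _ hcn) ((T.gs_nz le_rfl hcn).mono h1)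
      (T.cop_card hcn (A j) h1)
  have hch := resI_chain (b - 2 - c) (fun l => A (l + 1)) C (fun l hl => hAC l (by omega))
    (fun l hl => hAcomm (l + 1) (by omega))
  have hch2 : A (b - 2 - c + 1) ≤ res^[2 * h + 1 + 1] C := hch.trans (resI_anti C (by omega))
  -- but `res^[2h+2] C = ⊥`
  have hRle : ∀ g ∈ Gs P (b - 1), res^[2 * h + 1] C ≤ cj g C := fun g hg =>
    HT C N g hCN hCn (cj_eq_of_mem hNnz hg)
  have hab : Cz (res^[2 * h + 1] C) (res^[2 * h + 1] C) := by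
    refine om_abel T (by omega) hbn hU _ ((resI_le C _).trans (hCN.trans hNle)) ?_
    intro k hk g hg
    have h1 := mem_cj.1 (hRle g hg hk)
    have h2 : cj (g⁻¹ * k * g) U = U := by
      have := h1.1.2 1 (one_mem _)
      rwa [cj_one] at this
    calc cj k (cj g U) = cj g (cj (g⁻¹ * k * g) U) := by
          rw [← cj_mul, ← cj_mul]; congr 1; group
      _ = cj g U := by rw [h2]
  rw [Function.iterate_succ_apply', res_of_comm hab, le_bot_iff] at hch2
  exact (hA (b - 2 - c + 1) (by omega)).2.1 hch2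

end Pool.Agent.Work.MP_b44cb1_al
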