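import Pool.Agent.Work.MP_b44cb1_al.TowerA

/-!
# TowerB  (size M)  : elementary facts on towers, part 2

* `nn_nz`: `Gs P d` normalises `NN P c d` (`c ≤ d ≤ n`), by induction on `d`:
  `NN P c (d+1) = NN P c d ⊔ P d` (`c ≤ d`); `Gs P d` normalises both; `P d` normalises
  `P d`, and for `x ∈ P d`, `y ∈ NN P c d ≤ Gs P d`: `x y x⁻¹ = y (y⁻¹ x y) x⁻¹ ∈ NN P c d ⊔ P d`.
* `nn_split`: for `c < d ≤ n` every element of `NN P c d` is `m * v` with `m ∈ NN P (c+1) d`,
  `v ∈ P c`: `NN P c d = NN P (c+1) d ⊔ P c` and `P c ≤ Gs P (c+1) ≤ Gs P d` normalises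
  `NN P (c+1) d`; use `coe_mul_of_right_le_normalizer_left`.
* `comm_ne_bot`: if `⁅P i, A⁆ = ⊥` then every `a ∈ A ≤ Gs P i` centralises `P i`, so `a = 1`.
* `comm_eq`: `⁅P (i+1), P i⁆` is `≤ P (i+1)`, normalised by `Gs P (i+1)` (`nz_comm`; `Gs P (i+1)`
  normalises `P (i+1)` and `P i`), nontrivial by `comm_ne_bot` (`P i ≠ ⊥`), so equal to
  `P (i+1)` by irreducibility.
* `cent_P`: an element of `Gs P (i+1)` commuting with `P i` lies in `P i` (write it `g v`; `g`
  commutes with `P i`, so `g = 1` by `faith`).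
* `trunc`: clear.
* `tower_map`: transfer along an injective hom `f : H →* G`: `Gs (fun i => (P i).map f) i =
  (Gs P i).map f` (`Subgroup.map_sup`); a subgroup `Q ≤ (P i).map f` is `(Q.comap f).map f`.
-/

set_option autoImplicit false

namespace Pool.Agent.Work.MP_b44cb1_al

open Subgroup
open scoped commutatorElement

variable {G : Type*} [Group G]

variable {P : ℕ → Subgroup G} {p : ℕ → ℕ} {n : ℕ}

private theorem nn_succ_top (P : ℕ → Subgroup G) {c d : ℕ} (hcd : c ≤ d) :
    NN P c (d + 1) = NN P c d ⊔ P d := by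
  unfold NN
  rw [Nat.Ico_succ_right_eq_insert_Ico hcd, Finset.iSup_insert, sup_comm]

private theorem nn_succ_bot (P : ℕ → Subgroup G) {c d : ℕ} (hcd : c < d) :
    NN P c d = NN P (c + 1) d ⊔ P c := by
  unfold NN
  rw [← Finset.insert_Ico_add_one_left_eq_Ico hcd, Finset.iSup_insert, sup_comm]

private theorem nn_self (P : ℕ → Subgroup G) (c : ℕ) : NN P c c = ⊥ := by
  unfold NN
  simp

theorem Tower.nn_nz (T : Tower P p n) {c d : ℕ} (hcd : c ≤ d) (hd : d ≤ n) :
    Nz (Gs P d) (NN P c d) := by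
  induction d, hcd using Nat.le_induction with
  | base =>
    rw [nn_self]
    intro g _ x hx
    rw [Subgroup.mem_bot] at hx ⊢
    rw [hx]
    simp
  | succ d hcd ih =>
    have hdn : d < n := by omega
    have ih := ih (by omega)
    have h1 : Nz (Gs P d) (NN P c (d + 1)) := by
      rw [nn_succ_top P hcd]
      exact ih.sup (T.norm d hdn)
    have h2 : Nz (P d) (NN P c (d + 1)) := by
      have hsub : P d ≤ NN P c (d + 1) := le_nn P hcd (Nat.lt_succ_self d)
      exact (nz_self (NN P c (d + 1))).mono hsub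
    rw [nz_iff] at *
    rw [gs_succ]
    exact sup_le h1 h2

theorem Tower.nn_split (T : Tower P p n) {c d : ℕ} (hcd : c < d) (hd : d ≤ n) {x : G}
    (hx : x ∈ NN P c d) : ∃ m ∈ NN P (c + 1) d, ∃ v ∈ P c, x = m * v := by
  have h1 : P c ≤ normalizer (NN P (c + 1) d : Set G) := by
    rw [← nz_iff]
    exact (T.nn_nz (c := c + 1) hcd hd).mono (le_gs P hcd)
  rw [nn_succ_bot P hcd, ← SetLike.mem_coe, coe_mul_of_right_le_normalizer_left _ _ h1] at hx
  obtain ⟨m, hm, v, hv, hmv⟩ := hx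
  exact ⟨m, hm, v, hv, hmv.symm⟩

theorem Tower.comm_ne_bot (T : Tower P p n) {i : ℕ} (hi : i < n) (A : Subgroup G)
    (hA : A ≤ Gs P i) (hA0 : A ≠ ⊥) : ⁅P i, A⁆ ≠ ⊥ := by
  intro h
  apply hA0
  rw [Subgroup.eq_bot_iff_forall]
  intro a ha
  refine T.faith i hi a (hA ha) fun v hv => ?_
  have h1 := commutator_mem_commutator hv ha
  rw [h, Subgroup.mem_bot, commutatorElement_eq_one_iff_mul_comm] at h1
  exact h1.symm

theorem Tower.comm_eq (T : Tower P p n) {i : ℕ} (hi : i + 1 < n) :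
    ⁅P (i + 1), P i⁆ = P (i + 1) := by
  have hle : P i ≤ Gs P (i + 1) := le_gs P (Nat.lt_succ_self i)
  have h1 : Nz (P i) (P (i + 1)) := (T.norm (i + 1) hi).mono hle
  rcases T.irr (i + 1) hi ⁅P (i + 1), P i⁆ (comm_le_left h1)
    (nz_comm (T.norm (i + 1) hi) (T.gs_nz_self (by omega))) with h | h
  · exact absurd h (T.comm_ne_bot hi (P i) hle (T.nontriv i (by omega)))
  · exact h

theorem Tower.cent_P (T : Tower P p n) {i : ℕ} (hi : i < n) {x : G}
    (hx : x ∈ Gs P (i + 1)) (hc : ∀ v ∈ P i, x * v = v * x) : x ∈ P i := by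
  obtain ⟨g, hg, v, hv, rfl⟩ := T.mem_gs_succ hi hx
  have : g = 1 := by
    refine T.faith i hi g hg fun w hw => ?_
    have h1 := hc w hw
    have h2 : v * w = w * v := T.comm i hi v hv w hw
    have h3 : g * w * v = w * g * v := by
      rw [mul_assoc, ← h2, ← mul_assoc, h1, ← mul_assoc]
    exact mul_right_cancel h3
  rw [this, one_mul]
  exact hv

theorem Tower.trunc (T : Tower P p n) {m : ℕ} (hm : m ≤ n) : Tower P p m := by
  exact ⟨fun i hi => T.prime i (hi.trans_le hm), fun i hi => T.comm i (hi.trans_le hm),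
    fun i hi => T.expo i (hi.trans_le hm), fun i hi => T.nontriv i (hi.trans_le hm),
    fun i hi => T.norm i (hi.trans_le hm), fun i hi => T.cop i (hi.trans_le hm),
    fun i hi => T.faith i (hi.trans_le hm), fun i hi => T.irr i (hi.trans_le hm)⟩

theorem tower_map {H : Type*} [Group H] (f : H →* G) (hf : Function.Injective f)
    {Q : ℕ → Subgroup H} {q : ℕ → ℕ} {m : ℕ} (T : Tower Q q m) :
    Tower (fun i => (Q i).map f) q m := by
  have hgs : ∀ i, Gs (fun i => (Q i).map f) i = (Gs Q i).map f := by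
    intro i
    induction i with
    | zero => rw [gs_zero, gs_zero, Subgroup.map_bot]
    | succ i ih => rw [gs_succ, gs_succ, ih, Subgroup.map_sup]
  refine ⟨T.prime, ?_, ?_, ?_, ?_, ?_, ?_, ?_⟩
  · rintro i hi _ ⟨a, ha, rfl⟩ _ ⟨b, hb, rfl⟩
    rw [← map_mul, ← map_mul, T.comm i hi a ha b hb]
  · rintro i hi _ ⟨a, ha, rfl⟩
    rw [← map_pow, T.expo i hi a ha, map_one]
  · intro i hi h
    apply T.nontriv i hi
    rwa [Subgroup.map_eq_bot_iff_of_injective _ hf] at h
  · intro i hi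
    rw [hgs]
    rintro _ ⟨g, hg, rfl⟩ _ ⟨d, hd, rfl⟩
    exact ⟨g * d * g⁻¹, T.norm i hi g hg d hd, by simp⟩
  · intro i hi
    rw [hgs, Subgroup.card_map_of_injective hf]
    exact T.cop i hi
  · intro i hi
    rw [hgs]
    rintro _ ⟨g, hg, rfl⟩ h
    rw [T.faith i hi g hg, map_one]
    intro v hv
    apply hf
    rw [map_mul, map_mul]
    exact h (f v) ⟨v, hv, rfl⟩
  · intro i hi R hR hn
    rw [hgs] at hn
    have h1 : R = (R.comap f).map f := by
      rw [Subgroup.map_comap_eq, right_eq_inf]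
      exact hR.trans (Subgroup.map_le_range f _)
    have h2 : R.comap f ≤ Q i := by
      intro x hx
      obtain ⟨y, hy, hxy⟩ := hR hx
      rwa [← hf hxy]
    have h3 : Nz (Gs Q i) (R.comap f) := by
      intro g hg d hd
      have := hn (f g) ⟨g, hg, rfl⟩ (f d) hd
      rw [Subgroup.mem_comap]
      simpa using this
    rcases T.irr i hi _ h2 h3 with h4 | h4
    · left
      rw [h1, h4, Subgroup.map_bot]
    · right
      rw [h1, h4]

end Pool.Agent.Work.MP_b44cb1_al
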