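import Pool.Agent.Work.MP_b44cb1_al.GainB

/-!
# Gain  (size M)  : the gain lemma
-/

set_option autoImplicit false

namespace Pool.Agent.Work.MP_b44cb1_al

open Subgroup
open scoped commutatorElement

variable {G : Type*} [Group G]

private theorem gn_iter_periodic {α : Type*} {f : α → α} {a : α}
    (h : a ∈ Function.periodicPts f) (n : ℕ) : f^[n] a ∈ Function.periodicPts f := by
  obtain ⟨m, hm, hp⟩ := h
  exact ⟨m, hm, hp.apply_iterate n⟩

private theorem gn_fact {α : Type*} [Finite α] (f : α → α) {a : α}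
    (h : a ∈ Function.periodicPts f) : f^[(Nat.card α).factorial] a = a := by
  have hpos := Function.minimalPeriod_pos_of_mem_periodicPts h
  have hle : Function.minimalPeriod f a ≤ Nat.card α := by
    have hinj : Function.Injective (fun i : Fin (Function.minimalPeriod f a) => f^[(i : ℕ)] a) := by
      intro i j hij
      apply Fin.ext
      exact Function.iterate_injOn_Iio_minimalPeriod i.2 j.2 hij
    have := Nat.card_le_card_of_injective _ hinj
    simpa using this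
  have hd : Function.minimalPeriod f a ∣ (Nat.card α).factorial := Nat.dvd_factorial hpos hle
  exact (Function.isPeriodicPt_iff_minimalPeriod_dvd.2 hd)

private theorem gn_eventually {α : Type*} [Finite α] (f : α → α) (a : α) {n : ℕ}
    (hn : Nat.card α ≤ n) : f^[n] a ∈ Function.periodicPts f := by
  have hni : ¬ Function.Injective (fun i : Fin (Nat.card α + 1) => f^[(i : ℕ)] a) := by
    intro hinj
    have := Nat.card_le_card_of_injective _ hinj
    simp at this
  obtain ⟨i, j, hij, hne⟩ : ∃ i j : Fin (Nat.card α + 1), f^[(i : ℕ)] a = f^[(j : ℕ)] a ∧ i ≠ j := by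
    by_contra hcon
    apply hni
    intro i j hij
    by_contra hne
    exact hcon ⟨i, j, hij, hne⟩
  wlog hlt : (i : ℕ) < j generalizing i j
  · have hne' : (i : ℕ) ≠ j := fun h => hne (Fin.ext h)
    exact this j i hij.symm hne.symm (by omega)
  have hper : f^[(i : ℕ)] a ∈ Function.periodicPts f := by
    refine ⟨(j : ℕ) - i, by omega, ?_⟩
    show f^[(j : ℕ) - i] (f^[(i : ℕ)] a) = f^[(i : ℕ)] a
    rw [← Function.iterate_add_apply, Nat.sub_add_cancel hlt.le]
    exact hij.symm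
  have hi : (i : ℕ) ≤ n := by
    have := i.2
    have := j.2
    omega
  have := gn_iter_periodic hper (n - i)
  rwa [← Function.iterate_add_apply, Nat.sub_add_cancel hi] at this

private theorem gn_gen {p : ℕ} (hp : p.Prime) {u v : G} (hu : u ^ p = 1) (hv : v ∈ zpowers u)
    (hv1 : v ≠ 1) : u ∈ zpowers v := by
  obtain ⟨a, rfl⟩ := mem_zpowers_iff.1 hv
  have hpa : ¬ (p : ℤ) ∣ a := by
    rintro ⟨b, rfl⟩
    apply hv1
    rw [zpow_mul, zpow_natCast, hu, one_zpow]
  have hcop : IsCoprime a (p : ℤ) := by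
    have : IsCoprime (p : ℤ) a := (Prime.coprime_iff_not_dvd (Nat.prime_iff_prime_int.1 hp)).2 hpa
    exact this.symm
  obtain ⟨s, t, hst⟩ := hcop
  rw [mem_zpowers_iff]
  refine ⟨s, ?_⟩
  calc (u ^ a) ^ s = u ^ (s * a) := by rw [← zpow_mul, mul_comm]
    _ = u ^ (s * a) * (u ^ p) ^ t := by rw [hu, one_zpow, mul_one]
    _ = u ^ (s * a + t * p) := by
        rw [zpow_add, ← zpow_natCast, ← zpow_mul, mul_comm (p : ℤ) t]
    _ = u := by rw [hst, zpow_one]

theorem gain [Finite G] {X V : Subgroup G} {p : ℕ} (hp : p.Prime) (hXV : Nz X V)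
    (hinf : X ⊓ V = ⊥) (hV : Cz V V) (hVp : ∀ v ∈ V, v ^ p = 1) {x y : G} (hx : x ∈ X)
    (hy : y ∈ X) (hpy : ¬ p ∣ orderOf y) {k : ℕ} (hk : 1 ≤ k) (hG : Good k x y)
    (H1 : ∀ g ∈ X, g ∉ zpowers y → ∃ w ∈ V, w * y = y * w ∧ g * w ≠ w * g)
    (H0 : ∃ w ∈ V, w ≠ 1 ∧ ∀ g ∈ X, g * w = w * g) :
    ∃ k', k < k' ∧ ∃ w ∈ V, w * y = y * w ∧ Good k' x (y * w) := by
  classical
  obtain ⟨c, hc, hck, hcz⟩ := hG
  -- a first element `w₁` with a longer tail
  have hcX : c ∈ X := by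
    obtain ⟨K0, hK0, hK0c⟩ := hc
    obtain ⟨K, rfl⟩ : ∃ K, K0 = K + 1 := ⟨K0 - 1, by omega⟩
    have : (phi y)^[K + k] x = c := by
      rw [Function.iterate_add_apply, ← hck, ← Function.iterate_succ_apply]
      exact hK0c
    rw [← this]; exact phi_iter_mem hx hy _
  obtain ⟨w₁', hw₁'V, hw₁'y, hw₁'g⟩ := H1 _ (mul_mem (phi_iter_mem hx hy (k - 1)) (inv_mem hcX)) hcz
  have hnp : (phi (y * w₁'))^[k] x ∉ Function.periodicPts (phi (y * w₁')) := fun hper =>
    hw₁'g (gain_tail hp hXV hinf hV hVp hx hy (orderOf_pos y) hpy hk hc hck hw₁'V hw₁'y hper)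
  -- the maximal tail
  let S : ℕ → Prop := fun n => ∃ w ∈ V, w * y = y * w ∧
    (phi (y * w))^[n] x ∉ Function.periodicPts (phi (y * w))
  have hSk : S k := ⟨w₁', hw₁'V, hw₁'y, hnp⟩
  have hSb : ∀ n, S n → n ≤ Nat.card G := by
    rintro n ⟨w, -, -, hn⟩
    by_contra hcon
    exact hn (gn_eventually _ x (by omega))
  set m := Nat.findGreatest S (Nat.card G) with hm
  have hkm : k ≤ m := Nat.le_findGreatest (hSb k hSk) hSk
  have hSm : S m := Nat.findGreatest_spec (hSb k hSk) hSk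
  have hSm1 : ∀ w ∈ V, w * y = y * w →
      (phi (y * w))^[m + 1] x ∈ Function.periodicPts (phi (y * w)) := by
    intro w hw hwy
    by_contra hcon
    have h1 : S (m + 1) := ⟨w, hw, hwy, hcon⟩
    have := Nat.le_findGreatest (hSb _ h1) h1
    omega
  set K := (Nat.card G).factorial with hK
  have hKpos : 0 < K := Nat.factorial_pos _
  -- `t_m` is periodic
  have htm : (phi y)^[m + K] x = (phi y)^[m] x := by
    have h1 : (phi y)^[k] x ∈ Function.periodicPts (phi y) := by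
      rw [← hck]; exact gn_iter_periodic hc 1
    have h2 : (phi y)^[m] x ∈ Function.periodicPts (phi y) := by
      have := gn_iter_periodic h1 (m - k)
      rwa [← Function.iterate_add_apply, Nat.sub_add_cancel hkm] at this
    rw [add_comm, Function.iterate_add_apply]
    exact gn_fact _ h2
  -- the defect
  let Xi : G → G := fun w => (phi (y * w))^[m] x * ((phi (y * w))^[m + K] x)⁻¹
  have hXi : ∀ w, Xi w = (phi y)^[m] x * (vv x y m w * (vv x y (m + K) w)⁻¹) *
      ((phi y)^[m] x)⁻¹ := by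
    intro w
    have e1 : (phi (y * w))^[m] x = (phi y)^[m] x * vv x y m w := by unfold vv; group
    have e2 : (phi (y * w))^[m + K] x = (phi y)^[m] x * vv x y (m + K) w := by
      unfold vv; rw [htm]; group
    show (phi (y * w))^[m] x * ((phi (y * w))^[m + K] x)⁻¹ = _
    rw [e1, e2]; group
  have htmX := phi_iter_mem (H := X) hx hy m
  have hXiV : ∀ w ∈ V, w * y = y * w → Xi w ∈ V := by
    intro w hw hwy
    rw [hXi]
    exact hXV _ htmX _ (mul_mem (vv_mem hXV hV hx hy hw hwy _)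
      (inv_mem (vv_mem hXV hV hx hy hw hwy _)))
  have hXimul : ∀ w ∈ V, w * y = y * w → ∀ w' ∈ V, w' * y = y * w' →
      Xi (w * w') = Xi w * Xi w' := by
    intro w hw hwy w' hw' hwy'
    rw [hXi, hXi, hXi, vv_mul hXV hV hx hy hw hwy hw' hwy', vv_mul hXV hV hx hy hw hwy hw' hwy']
    have a1 := vv_mem hXV hV hx hy hw hwy m
    have a2 := vv_mem hXV hV hx hy hw hwy (m + K)
    have b1 := vv_mem hXV hV hx hy hw' hwy' m
    have b2 := vv_mem hXV hV hx hy hw' hwy' (m + K)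
    have c1 : (vv x y (m + K) w * vv x y (m + K) w')⁻¹ =
        (vv x y (m + K) w)⁻¹ * (vv x y (m + K) w')⁻¹ := by
      rw [hV _ a2 _ b2, mul_inv_rev]
    have c2 : vv x y m w' * (vv x y (m + K) w)⁻¹ = (vv x y (m + K) w)⁻¹ * vv x y m w' :=
      hV _ b1 _ (inv_mem a2)
    rw [c1]
    calc (phi y)^[m] x * (vv x y m w * vv x y m w' *
          ((vv x y (m + K) w)⁻¹ * (vv x y (m + K) w')⁻¹)) * ((phi y)^[m] x)⁻¹
        = (phi y)^[m] x * (vv x y m w * (vv x y m w' * (vv x y (m + K) w)⁻¹) *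
          (vv x y (m + K) w')⁻¹) * ((phi y)^[m] x)⁻¹ := by group
      _ = _ := by rw [c2]; group
  have hXione : ∀ w ∈ V, (∀ g ∈ X, g * w = w * g) → Xi w = 1 := by
    intro w hw hwX
    rw [hXi, vv_one hXV hV hx hy hw hwX, vv_one hXV hV hx hy hw hwX]
    group
  -- `t'_{m+K}` is the periodic predecessor of `t'_{m+1}`
  have hcper : ∀ w ∈ V, w * y = y * w →
      (phi (y * w))^[m + K] x ∈ Function.periodicPts (phi (y * w)) := by
    intro w hw hwy
    have := gn_iter_periodic (hSm1 w hw hwy) (K - 1)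
    rw [← Function.iterate_add_apply] at this
    have e : K - 1 + (m + 1) = m + K := by omega
    rwa [e] at this
  have hcpred : ∀ w ∈ V, w * y = y * w →
      phi (y * w) ((phi (y * w))^[m + K] x) = (phi (y * w))^[m + 1] x := by
    intro w hw hwy
    rw [← Function.iterate_succ_apply' (phi (y * w))]
    have e : (m + K).succ = K + (m + 1) := by omega
    rw [e, Function.iterate_add_apply]
    exact gn_fact _ (hSm1 w hw hwy)
  have hXine : ∀ w ∈ V, w * y = y * w →
      (phi (y * w))^[m] x ∉ Function.periodicPts (phi (y * w)) → Xi w ≠ 1 := by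
    intro w hw hwy hnot h1
    apply hnot
    have h2 : (phi (y * w))^[m] x = (phi (y * w))^[m + K] x := by
      have h3 : (phi (y * w))^[m] x * ((phi (y * w))^[m + K] x)⁻¹ = 1 := h1
      rwa [mul_inv_eq_one] at h3
    rw [h2]
    exact hcper w hw hwy
  have hgood : ∀ w ∈ V, w * y = y * w → Xi w ∉ zpowers w → Good (m + 1) x (y * w) := by
    intro w hw hwy hnot
    refine ⟨(phi (y * w))^[m + K] x, hcper w hw hwy, hcpred w hw hwy, ?_⟩
    rw [Nat.add_sub_cancel]
    intro hmem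
    obtain ⟨j, hj⟩ := mem_zpowers_iff.1 hmem
    have hcomm : Commute y w := hwy.symm
    rw [hcomm.mul_zpow] at hj
    have hyj : y ^ j ∈ X ⊓ V := by
      refine Subgroup.mem_inf.2 ⟨zpow_mem hy j, ?_⟩
      have : y ^ j = Xi w * (w ^ j)⁻¹ := by
        show y ^ j = (phi (y * w))^[m] x * ((phi (y * w))^[m + K] x)⁻¹ * (w ^ j)⁻¹
        rw [← hj]; group
      rw [this]
      exact mul_mem (hXiV w hw hwy) (inv_mem (zpow_mem hw j))
    rw [hinf, Subgroup.mem_bot] at hyj
    rw [hyj, one_mul] at hj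
    exact hnot (mem_zpowers_iff.2 ⟨j, hj⟩)
  obtain ⟨w₁, hw₁, hw₁y, hw₁n⟩ := hSm
  have hXi1 := hXine w₁ hw₁ hw₁y hw₁n
  refine ⟨m + 1, by omega, ?_⟩
  by_cases hcase : Xi w₁ ∈ zpowers w₁
  · obtain ⟨w₀, hw₀, hw₀1, hw₀X⟩ := H0
    have hw₀y : w₀ * y = y * w₀ := (hw₀X y hy).symm
    have hwy : w₁ * w₀ * y = y * (w₁ * w₀) := by
      rw [mul_assoc, hw₀y, ← mul_assoc, hw₁y, mul_assoc]
    refine ⟨w₁ * w₀, mul_mem hw₁ hw₀, hwy, hgood _ (mul_mem hw₁ hw₀) hwy ?_⟩
    rw [hXimul w₁ hw₁ hw₁y w₀ hw₀ hw₀y, hXione w₀ hw₀ hw₀X, mul_one]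
    intro hmem
    -- both `w₁` and `w₁ w₀` are powers of `Xi w₁`
    have h1 : w₁ ∈ zpowers (Xi w₁) := gn_gen hp (hVp _ hw₁) hcase hXi1
    have h2 : w₁ * w₀ ∈ zpowers (Xi w₁) := gn_gen hp (hVp _ (mul_mem hw₁ hw₀)) hmem hXi1
    have h3 : w₀ ∈ zpowers (Xi w₁) := by
      have := mul_mem (inv_mem h1) h2
      simpa using this
    have h4 : w₀ ∈ zpowers w₁ := (zpowers_le.2 hcase) h3
    have h5 : w₁ ∈ zpowers w₀ := gn_gen hp (hVp _ hw₁) h4 hw₀1
    obtain ⟨j, hj⟩ := mem_zpowers_iff.1 h5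
    apply hXi1
    apply hXione w₁ hw₁
    intro g hg
    rw [← hj]
    exact ((show Commute g w₀ from hw₀X g hg).zpow_right j)
  · exact ⟨w₁, hw₁, hw₁y, hgood w₁ hw₁ hw₁y hcase⟩

end Pool.Agent.Work.MP_b44cb1_al
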