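import Pool.Agent.Work.MP_b44cb1_al.Kit

/-!
# GainA  (size M)  : `(phi (y w))^[n] x` modulo `V`
-/

set_option autoImplicit false

namespace Pool.Agent.Work.MP_b44cb1_al

open Subgroup
open scoped commutatorElement

variable {G : Type*} [Group G]

/-- `(phi (y*w))^[n] x = (phi y)^[n] x * vv x y n w`. -/
def vv (x y : G) (n : ℕ) (w : G) : G := ((phi y)^[n] x)⁻¹ * (phi (y * w))^[n] x

/-- The recursion step: `phi (y w) (t v) = phi y t * gaF t y v w`. -/
private def gaF (t y v w : G) : G :=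
  ((phi y t)⁻¹ * v⁻¹ * phi y t) * ((t * y)⁻¹ * w⁻¹ * (t * y)) * ((y⁻¹ * v * y) * w)

private theorem ga_step (t y v w : G) (hwy : w * y = y * w) :
    phi (y * w) (t * v) = phi y t * gaF t y v w := by
  unfold phi gaF phi
  have h : y⁻¹ * w⁻¹ = w⁻¹ * y⁻¹ := by
    rw [← mul_inv_rev, ← mul_inv_rev, hwy]
  calc (t * v)⁻¹ * (y * w)⁻¹ * (t * v) * (y * w)
      = v⁻¹ * t⁻¹ * (w⁻¹ * y⁻¹) * t * v * y * w := by group
    _ = v⁻¹ * t⁻¹ * (y⁻¹ * w⁻¹) * t * v * y * w := by rw [h]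
    _ = _ := by group

private theorem ga_conj {X V : Subgroup G} (hXV : Nz X V) {g v : G} (hg : g ∈ X) (hv : v ∈ V) :
    g⁻¹ * v * g ∈ V := by
  simpa using hXV g⁻¹ (inv_mem hg) v hv

private theorem gaF_mem {X V : Subgroup G} (hXV : Nz X V) {t y : G} (ht : t ∈ X) (hy : y ∈ X)
    {v w : G} (hv : v ∈ V) (hw : w ∈ V) : gaF t y v w ∈ V := by
  unfold gaF
  refine mul_mem (mul_mem ?_ ?_) (mul_mem ?_ hw)
  · exact ga_conj hXV (phi_mem ht hy) (inv_mem hv)
  · exact ga_conj hXV (mul_mem ht hy) (inv_mem hw)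
  · exact ga_conj hXV hy hv

private theorem ga_four {V : Subgroup G} (hV : Cz V V) {a b c d : G} (hb : b ∈ V) (hc : c ∈ V) :
    a * b * (c * d) = a * c * (b * d) := by
  have := hV b hb c hc
  calc a * b * (c * d) = a * (b * c) * d := by group
    _ = a * (c * b) * d := by rw [this]
    _ = _ := by group

private theorem gaF_mul {X V : Subgroup G} (hXV : Nz X V) (hV : Cz V V) {t y : G} (ht : t ∈ X)
    (hy : y ∈ X) {v w v' w' : G} (hv : v ∈ V) (hw : w ∈ V) (hv' : v' ∈ V) (hw' : w' ∈ V) :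
    gaF t y (v * v') (w * w') = gaF t y v w * gaF t y v' w' := by
  have e1 : (phi y t)⁻¹ * (v * v')⁻¹ * phi y t =
      ((phi y t)⁻¹ * v⁻¹ * phi y t) * ((phi y t)⁻¹ * v'⁻¹ * phi y t) := by
    rw [hV v hv v' hv']; group
  have e2 : (t * y)⁻¹ * (w * w')⁻¹ * (t * y) =
      ((t * y)⁻¹ * w⁻¹ * (t * y)) * ((t * y)⁻¹ * w'⁻¹ * (t * y)) := by
    rw [hV w hw w' hw']; group
  have e3 : (y⁻¹ * (v * v') * y) = (y⁻¹ * v * y) * (y⁻¹ * v' * y) := by group
  unfold gaF
  rw [e1, e2, e3]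
  have m1 := ga_conj hXV (phi_mem ht hy) (inv_mem hv)
  have m1' := ga_conj hXV (phi_mem ht hy) (inv_mem hv')
  have m2 := ga_conj hXV (mul_mem ht hy) (inv_mem hw)
  have m2' := ga_conj hXV (mul_mem ht hy) (inv_mem hw')
  have m3 := ga_conj hXV hy hv
  have m3' := ga_conj hXV hy hv'
  rw [ga_four hV m1' m2, ga_four hV m3' hw, ga_four hV (mul_mem m1' m2') (mul_mem m3 hw)]

private theorem vv_succ (x y : G) (n : ℕ) (w : G) (hwy : w * y = y * w) :
    vv x y (n + 1) w = gaF ((phi y)^[n] x) y (vv x y n w) w := by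
  have h := ga_step ((phi y)^[n] x) y (vv x y n w) w hwy
  have e : (phi y)^[n] x * vv x y n w = (phi (y * w))^[n] x := by
    unfold vv; group
  rw [e] at h
  unfold vv at *
  rw [Function.iterate_succ_apply', Function.iterate_succ_apply', h]
  group

theorem vv_zero (x y w : G) : vv x y 0 w = 1 := by
  simp [vv]

theorem vv_mem {X V : Subgroup G} (hXV : Nz X V) (hV : Cz V V) {x y : G} (hx : x ∈ X)
    (hy : y ∈ X) {w : G} (hw : w ∈ V) (hwy : w * y = y * w) (n : ℕ) : vv x y n w ∈ V := by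
  induction n with
  | zero => rw [vv_zero]; exact one_mem _
  | succ n ih =>
    rw [vv_succ x y n w hwy]
    exact gaF_mem hXV (phi_iter_mem hx hy n) hy ih hw

theorem vv_mul {X V : Subgroup G} (hXV : Nz X V) (hV : Cz V V) {x y : G} (hx : x ∈ X)
    (hy : y ∈ X) {w w' : G} (hw : w ∈ V) (hwy : w * y = y * w) (hw' : w' ∈ V)
    (hwy' : w' * y = y * w') (n : ℕ) : vv x y n (w * w') = vv x y n w * vv x y n w' := by
  have hww : w * w' * y = y * (w * w') := by
    rw [mul_assoc, hwy', ← mul_assoc, hwy, mul_assoc]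
  induction n with
  | zero => simp [vv_zero]
  | succ n ih =>
    rw [vv_succ x y n _ hww, vv_succ x y n _ hwy, vv_succ x y n _ hwy', ih]
    exact gaF_mul hXV hV (phi_iter_mem hx hy n) hy (vv_mem hXV hV hx hy hw hwy n) hw
      (vv_mem hXV hV hx hy hw' hwy' n) hw'

theorem vv_one {X V : Subgroup G} (hXV : Nz X V) (hV : Cz V V) {x y : G} (hx : x ∈ X)
    (hy : y ∈ X) {w : G} (hw : w ∈ V) (hwX : ∀ g ∈ X, g * w = w * g) (n : ℕ) :
    vv x y n w = 1 := by
  have hwy : w * y = y * w := (hwX y hy).symm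
  induction n with
  | zero => rw [vv_zero]
  | succ n ih =>
    rw [vv_succ x y n w hwy, ih]
    unfold gaF
    have h := hwX _ (mul_mem (phi_iter_mem hx hy n) hy)
    have h' : w⁻¹ * ((phi y)^[n] x * y) = ((phi y)^[n] x * y) * w⁻¹ := by
      rw [inv_mul_eq_iff_eq_mul, ← mul_assoc, ← h, mul_assoc, mul_inv_cancel, mul_one]
    have e : ((phi y)^[n] x * y)⁻¹ * w⁻¹ * ((phi y)^[n] x * y) = w⁻¹ := by
      rw [mul_assoc, h']; group
    rw [e]
    group

end Pool.Agent.Work.MP_b44cb1_al
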