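import Pool.Agent.Work.MP_b44cb1_al.GainA

/-!
# GainB  (size M)  : if the tail does not grow then `g` centralises `w`
-/

set_option autoImplicit false

namespace Pool.Agent.Work.MP_b44cb1_al

open Subgroup
open scoped commutatorElement

variable {G : Type*} [Group G]

theorem phi_eq_iff (y a b : G) : phi y a = phi y b ↔ (a * b⁻¹) * y = y * (a * b⁻¹) := by
  unfold phi
  constructor
  · intro h
    have h1 : a⁻¹ * y⁻¹ * a = b⁻¹ * y⁻¹ * b := mul_right_cancel h
    have h2 : a * b⁻¹ * y * (a * b⁻¹)⁻¹ = y := by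
      have : (a⁻¹ * y⁻¹ * a)⁻¹ = (b⁻¹ * y⁻¹ * b)⁻¹ := by rw [h1]
      have h3 : a⁻¹ * y * a = b⁻¹ * y * b := by
        simpa [mul_assoc] using this
      calc a * b⁻¹ * y * (a * b⁻¹)⁻¹ = a * (b⁻¹ * y * b) * a⁻¹ := by group
        _ = a * (a⁻¹ * y * a) * a⁻¹ := by rw [h3]
        _ = y := by group
    calc a * b⁻¹ * y = (a * b⁻¹ * y * (a * b⁻¹)⁻¹) * (a * b⁻¹) := by group
      _ = y * (a * b⁻¹) := by rw [h2]
  · intro h
    have h1 : b⁻¹ * y⁻¹ * b = a⁻¹ * y⁻¹ * a := by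
      have h2 : y⁻¹ * (a * b⁻¹) = (a * b⁻¹) * y⁻¹ := by
        rw [inv_mul_eq_iff_eq_mul, ← mul_assoc, ← h, mul_assoc, mul_inv_cancel, mul_one]
      calc b⁻¹ * y⁻¹ * b = a⁻¹ * ((a * b⁻¹) * y⁻¹) * b := by group
        _ = a⁻¹ * (y⁻¹ * (a * b⁻¹)) * b := by rw [h2]
        _ = _ := by group
    rw [← h1]

theorem gain_tail {X V : Subgroup G} {p : ℕ} (hp : p.Prime) (hXV : Nz X V)
    (_hinf : X ⊓ V = ⊥) (hV : Cz V V) (hVp : ∀ v ∈ V, v ^ p = 1) {x y : G} (hx : x ∈ X)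
    (hy : y ∈ X) (_hfin : 0 < orderOf y) (hpy : ¬ p ∣ orderOf y) {k : ℕ} (hk : 1 ≤ k) {c : G}
    (hc : c ∈ Function.periodicPts (phi y)) (hck : phi y c = (phi y)^[k] x) {w : G}
    (hw : w ∈ V) (hwy : w * y = y * w)
    (hper : (phi (y * w))^[k] x ∈ Function.periodicPts (phi (y * w))) :
    ((phi y)^[k - 1] x * c⁻¹) * w = w * ((phi y)^[k - 1] x * c⁻¹) := by
  obtain ⟨K0, hK0, hK0c⟩ := hc
  obtain ⟨K1, hK1, hK1c⟩ := hper
  have hKc : Function.IsPeriodicPt (phi y) (K0 * K1) c := hK0c.mul_const K1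
  have hKt : Function.IsPeriodicPt (phi (y * w)) (K0 * K1) ((phi (y * w))^[k] x) :=
    hK1c.const_mul K0
  obtain ⟨K, hK⟩ : ∃ K, K0 * K1 = K + 1 :=
    ⟨K0 * K1 - 1, (Nat.sub_add_cancel (Nat.mul_pos hK0 hK1)).symm⟩
  rw [hK] at hKc hKt
  -- `c = (phi y)^[K + k] x`
  have hcx : (phi y)^[K + k] x = c := by
    rw [Function.iterate_add_apply, ← hck, ← Function.iterate_succ_apply]
    exact hKc
  have hcX : c ∈ X := by rw [← hcx]; exact phi_iter_mem hx hy _
  set g := (phi y)^[k - 1] x * c⁻¹ with hg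
  have hgX : g ∈ X := mul_mem (phi_iter_mem hx hy _) (inv_mem hcX)
  have hgy : g * y = y * g := by
    rw [hg, ← phi_eq_iff, hck, ← Function.iterate_succ_apply' (phi y)]
    congr 1
    omega
  -- the element `c'`
  have h1 : phi (y * w) ((phi (y * w))^[k - 1] x) = phi (y * w) ((phi (y * w))^[K + k] x) := by
    rw [← Function.iterate_succ_apply' (phi (y * w)), ← Function.iterate_succ_apply' (phi (y * w))]
    have e1 : (k - 1).succ = k := by omega
    have e2 : (K + k).succ = (K + 1) + k := by omega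
    rw [e1, e2, Function.iterate_add_apply]
    exact hKt.symm
  rw [phi_eq_iff] at h1
  have e1 : (phi (y * w))^[k - 1] x = (phi y)^[k - 1] x * vv x y (k - 1) w := by
    unfold vv; group
  have e2 : (phi (y * w))^[K + k] x = c * vv x y (K + k) w := by
    unfold vv; rw [hcx]; group
  have m1 := vv_mem hXV hV hx hy hw hwy (k - 1)
  have m2 := vv_mem hXV hV hx hy hw hwy (K + k)
  set v' := c * (vv x y (k - 1) w * (vv x y (K + k) w)⁻¹) * c⁻¹ with hv'
  have hv'V : v' ∈ V := hXV c hcX _ (mul_mem m1 (inv_mem m2))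
  have e3 : (phi (y * w))^[k - 1] x * ((phi (y * w))^[K + k] x)⁻¹ = g * v' := by
    rw [e1, e2, hg, hv']; group
  rw [e3] at h1
  -- `wg = g⁻¹ w g`
  set wg := g⁻¹ * w * g with hwg
  have hwgV : wg ∈ V := by simpa using hXV g⁻¹ (inv_mem hgX) w hw
  have hyi : y * g⁻¹ = g⁻¹ * y := by
    rw [eq_inv_mul_iff_mul_eq, ← mul_assoc, hgy, mul_assoc, mul_inv_cancel, mul_one]
  have hwgy : wg * y = y * wg := by
    calc wg * y = g⁻¹ * w * (g * y) := by rw [hwg]; group
      _ = g⁻¹ * (w * y) * g := by rw [hgy]; group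
      _ = g⁻¹ * y * w * g := by rw [hwy]; group
      _ = y * wg := by rw [← hyi, hwg]; group
  have h2 : y⁻¹ * v' * y * w = wg * v' := by
    calc y⁻¹ * v' * y * w = y⁻¹ * g⁻¹ * (g * v' * (y * w)) := by group
      _ = y⁻¹ * g⁻¹ * (y * w * (g * v')) := by rw [h1]
      _ = y⁻¹ * (g⁻¹ * y) * w * g * v' := by group
      _ = y⁻¹ * (y * g⁻¹) * w * g * v' := by rw [hyi]
      _ = wg * v' := by rw [hwg]; group
  set δ := wg * w⁻¹ with hδ
  have hδV : δ ∈ V := mul_mem hwgV (inv_mem hw)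
  have hyw' : y * w⁻¹ = w⁻¹ * y := by
    rw [eq_inv_mul_iff_mul_eq, ← mul_assoc, hwy, mul_assoc, mul_inv_cancel, mul_one]
  have hδy : δ * y = y * δ := by
    rw [hδ, mul_assoc, ← hyw', ← mul_assoc, hwgy, mul_assoc]
  have hvδ : y⁻¹ * v' * y = v' * δ := by
    have : y⁻¹ * v' * y = wg * v' * w⁻¹ := by
      rw [← h2]; group
    rw [this, hδ, hV wg hwgV v' hv'V, mul_assoc]
  have hiter : ∀ j : ℕ, (y ^ j)⁻¹ * v' * y ^ j = v' * δ ^ j := by
    intro j
    induction j with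
    | zero => simp
    | succ j ih =>
      have hc1 : y⁻¹ * δ ^ j * y = δ ^ j := by
        have : Commute δ y := hδy
        have := this.pow_left j
        rw [mul_assoc, this.eq]; group
      calc (y ^ (j + 1))⁻¹ * v' * y ^ (j + 1) = y⁻¹ * ((y ^ j)⁻¹ * v' * y ^ j) * y := by
            rw [pow_succ]; group
        _ = y⁻¹ * (v' * δ ^ j) * y := by rw [ih]
        _ = (y⁻¹ * v' * y) * (y⁻¹ * δ ^ j * y) := by group
        _ = v' * δ * δ ^ j := by rw [hvδ, hc1]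
        _ = v' * δ ^ (j + 1) := by rw [pow_succ']; group
  have hm := hiter (orderOf y)
  rw [pow_orderOf_eq_one] at hm
  have hδm : δ ^ orderOf y = 1 := by
    have : v' * δ ^ orderOf y = v' * 1 := by rw [← hm]; group
    exact mul_left_cancel this
  have hδ1 : δ = 1 := by
    have hd1 : orderOf δ ∣ orderOf y := orderOf_dvd_of_pow_eq_one hδm
    have hd2 : orderOf δ ∣ p := orderOf_dvd_of_pow_eq_one (hVp δ hδV)
    have hcop : Nat.Coprime p (orderOf y) := (Nat.Prime.coprime_iff_not_dvd hp).2 hpy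
    have : orderOf δ ∣ 1 := by
      rw [← hcop]
      exact Nat.dvd_gcd hd2 hd1
    exact orderOf_eq_one_iff.1 (Nat.dvd_one.1 this)
  have hww : wg = w := by
    have : wg * w⁻¹ = 1 := hδ1
    rwa [mul_inv_eq_one] at this
  calc g * w = g * wg := by rw [hww]
    _ = w * g := by rw [hwg]; group

end Pool.Agent.Work.MP_b44cb1_al
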