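import Pool.Agent.Work.MP_b44cb1_al.Kit

/-!
# GoodLe  (size S)  : bounds for `Good`
-/

set_option autoImplicit false

namespace Pool.Agent.Work.MP_b44cb1_al

open Subgroup
open scoped commutatorElement

variable {G : Type*} [Group G]

private theorem iter_periodic {α : Type*} {f : α → α} {a : α}
    (h : a ∈ Function.periodicPts f) (n : ℕ) : f^[n] a ∈ Function.periodicPts f := by
  obtain ⟨m, hm, hp⟩ := h
  refine ⟨m, hm, ?_⟩
  exact hp.apply_iterate n

theorem good_le {r s k : ℕ} (hrs : r < s) (hlaw : Law r s G) {x y : G} (hG : Good k x y) :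
    k ≤ r := by
  by_contra hk
  have hk' : r ≤ k - 1 := by omega
  obtain ⟨c, hc, hck, hcz⟩ := hG
  have h1 : (phi y)^[r] x ∈ Function.periodicPts (phi y) := by
    refine ⟨s - r, by omega, ?_⟩
    show (phi y)^[s - r] ((phi y)^[r] x) = (phi y)^[r] x
    rw [← Function.iterate_add_apply, Nat.sub_add_cancel hrs.le]
    exact (hlaw x y).symm
  have h2 : (phi y)^[k - 1] x ∈ Function.periodicPts (phi y) := by
    have := iter_periodic h1 (k - 1 - r)
    rwa [← Function.iterate_add_apply, Nat.sub_add_cancel hk'] at this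
  have h3 : phi y ((phi y)^[k - 1] x) = phi y c := by
    rw [hck, ← Function.iterate_succ_apply' (phi y)]
    congr 1
    omega
  have h4 : (phi y)^[k - 1] x = c := (Function.bijOn_periodicPts (phi y)).injOn h2 hc h3
  apply hcz
  rw [h4, mul_inv_cancel]
  exact one_mem _

theorem good_start {x : G} (hx : x ≠ 1) : Good 1 x 1 := by
  refine ⟨1, ⟨1, Nat.one_pos, ?_⟩, ?_, ?_⟩
  · show (phi (1 : G))^[1] 1 = 1
    simp [phi]
  · simp [phi]
  · simpa using hx

end Pool.Agent.Work.MP_b44cb1_al
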