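import Pool.Agent.Work.MP_b44cb1_al.TowerBasic
import Pool.Agent.Work.MP_b44cb1_al.Block

/-!
# Growth  (size M)  : layers of an odd tower grow

* `card_double`: for `i + 1 < n`: `2 |P i| + 1 ≤ |P (i+1)|`. `W = P (i+1)`, `B = P i`, `B` normalises
  `W` (`B ≤ Gs P (i+1)`), coprime. By `regvec` there is `z ∈ W` such that every `b ∈ B` commuting
  with `z` commutes with `W`, hence is `1` (`T.faith (i+1)`). So the elements `b z b⁻¹`, `b ∈ B`, are
  `|B|` distinct elements of `W`, and `z ≠ 1` (as `B ≠ ⊥`). The elements `(b z b⁻¹)⁻¹` are distinct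
  too. None of them is `1`, and `b z b⁻¹ ≠ (b' z b'⁻¹)⁻¹`: otherwise with `g = b'⁻¹ b ∈ B`:
  `g z g⁻¹ = z⁻¹`, so `g²` commutes with `z`, so `g² = 1`, and `g = 1` as `|B| = p i ^ k` is odd
  (`g ^ p i = 1`), so `z = z⁻¹`, `z² = 1`, and `z = 1` (`z ^ p (i+1) = 1`, `p (i+1)` odd).
  So `1 + 2 |B| ≤ |W|`.
* `pow9`: `w ^ 9 ≤ 2 ^ (4 w + 4)` for all `w : ℕ`: check `w ≤ 9` by `decide`/`norm_num`; for `w ≥ 9`
  induct: `(w+1)^9 ≤ 16 w^9`, e.g. because `(1 + 1/w)^9 ≤ (10/9)^9 < 16`; alternatively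
  `9 * w^8`-free proof: `(w+1)^9 * 9^9 ≤ w^9 * 10^9` and `10^9 ≤ 16 * 9^9`.
* `growth`: induction on `i`. `i = 0`: `|Gs P 0| = 1` and `1 < 2 ^ (4 |P 0|)`.
  `i → i+1`: `|Gs P (i+1)|^9 = |Gs P i|^9 |P i|^9 < 2^(4|P i|) 2^(4|P i|+4) = 2^(4 (2 |P i| + 1))
  ≤ 2^(4 |P (i+1)|)`.
-/

set_option autoImplicit false

namespace Pool.Agent.Work.MP_b44cb1_al

open Subgroup
open scoped commutatorElement

variable {G : Type*} [Group G] {P : ℕ → Subgroup G} {p : ℕ → ℕ} {n : ℕ}

private theorem growth_odd {Q : Type*} [Group Q] {q : ℕ} (hq : q.Prime) (h2 : q ≠ 2) {g : Q}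
    (h : g ^ 2 = 1) (h' : g ^ q = 1) : g = 1 := by
  have h3 : orderOf g ∣ 2 := orderOf_dvd_of_pow_eq_one h
  have h4 : orderOf g ∣ q := orderOf_dvd_of_pow_eq_one h'
  have h5 : Nat.Coprime 2 q := (Nat.coprime_primes Nat.prime_two hq).2 (Ne.symm h2)
  have h6 : orderOf g ∣ 1 := by
    have := Nat.dvd_gcd h3 h4
    rwa [h5] at this
  exact orderOf_eq_one_iff.1 (Nat.dvd_one.1 h6)

theorem card_double [Finite G] (T : Tower P p n) (hodd : ∀ i < n, p i ≠ 2) {i : ℕ}
    (hi : i + 1 < n) : 2 * Nat.card (P i) + 1 ≤ Nat.card (P (i + 1)) := by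
  have hBle : P i ≤ Gs P (i + 1) := le_gs P (Nat.lt_succ_self i)
  have hn : Nz (P i) (P (i + 1)) := (T.norm (i + 1) hi).mono hBle
  obtain ⟨z, hz, hreg⟩ := regvec (P (i + 1)) (P i) (T.comm (i + 1) hi)
    (T.comm i (by omega)) hn (T.cop_card hi (P i) hBle)
  have hreg1 : ∀ b ∈ P i, b * z = z * b → b = 1 := by
    intro b hb hbz
    exact T.faith (i + 1) hi b (hBle hb) (hreg b hb hbz)
  have hz1 : z ≠ 1 := by
    rintro rfl
    apply T.nontriv i (by omega)
    rw [Subgroup.eq_bot_iff_forall]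
    intro b hb
    exact hreg1 b hb (by simp)
  have hinj1 : ∀ b ∈ P i, ∀ b' ∈ P i, b * z * b⁻¹ = b' * z * b'⁻¹ → b = b' := by
    intro b hb b' hb' h
    have h1 : (b'⁻¹ * b) * z = z * (b'⁻¹ * b) := by
      have : b * z = b' * z * b'⁻¹ * b := by rw [← h]; simp
      rw [mul_assoc, this]; simp [mul_assoc]
    have h2 := hreg1 _ (mul_mem (inv_mem hb') hb) h1
    rw [inv_mul_eq_one] at h2
    exact h2.symm
  have hne : ∀ b ∈ P i, ∀ b' ∈ P i, b * z * b⁻¹ ≠ (b' * z * b'⁻¹)⁻¹ := by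
    intro b hb b' hb' h
    set g := b'⁻¹ * b with hg
    have hgm : g ∈ P i := mul_mem (inv_mem hb') hb
    have h1 : g * z * g⁻¹ = z⁻¹ := by
      have h2 : b * z * b⁻¹ = b' * z⁻¹ * b'⁻¹ := by rw [h]; simp [mul_assoc]
      calc g * z * g⁻¹ = b'⁻¹ * (b * z * b⁻¹) * b' := by rw [hg]; simp [mul_assoc]
        _ = z⁻¹ := by rw [h2]; simp [mul_assoc]
    have h3 : g * z⁻¹ * g⁻¹ = z := by
      have : (g * z * g⁻¹)⁻¹ = g * z⁻¹ * g⁻¹ := by simp [mul_assoc]
      rw [← this, h1, inv_inv]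
    have h4 : (g * g) * z = z * (g * g) := by
      calc (g * g) * z = g * (g * z * g⁻¹) * g⁻¹ * (g * g) := by simp [mul_assoc]
        _ = z * (g * g) := by rw [h1, h3]
    have h5 : g ^ 2 = 1 := by
      rw [pow_two]
      exact hreg1 _ (mul_mem hgm hgm) h4
    have h6 : g = 1 := growth_odd (T.prime i (by omega)) (hodd i (by omega)) h5
      (T.expo i (by omega) g hgm)
    rw [h6] at h1
    have h7 : z ^ 2 = 1 := by
      have : z = z⁻¹ := by simpa using h1
      rw [pow_two]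
      nth_rewrite 2 [this]
      simp
    exact hz1 (growth_odd (T.prime (i + 1) hi) (hodd (i + 1) hi) h7 (T.expo (i + 1) hi z hz))
  have hconj : ∀ b ∈ P i, b * z * b⁻¹ ∈ P (i + 1) := fun b hb => hn b hb z hz
  have hcz1 : ∀ b : G, b * z * b⁻¹ ≠ 1 := by
    intro b h
    apply hz1
    have : z = b⁻¹ * (b * z * b⁻¹) * b := by simp [mul_assoc]
    rw [this, h]
    simp
  let F : Option (P i ⊕ P i) → P (i + 1) := fun o =>
    match o with
    | none => 1
    | some (Sum.inl b) => ⟨b * z * (b : G)⁻¹, hconj b b.2⟩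
    | some (Sum.inr b) => ⟨(b * z * (b : G)⁻¹)⁻¹, inv_mem (hconj b b.2)⟩
  have hF : Function.Injective F := by
    intro o o' h
    match o, o' with
    | none, none => rfl
    | none, some (Sum.inl b) =>
      exact absurd (congrArg Subtype.val h).symm (hcz1 b)
    | none, some (Sum.inr b) =>
      exact absurd (inv_eq_one.1 (congrArg Subtype.val h).symm) (hcz1 b)
    | some (Sum.inl b), none =>
      exact absurd (congrArg Subtype.val h) (hcz1 b)
    | some (Sum.inr b), none =>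
      exact absurd (inv_eq_one.1 (congrArg Subtype.val h)) (hcz1 b)
    | some (Sum.inl b), some (Sum.inl b') =>
      have := hinj1 b b.2 b' b'.2 (congrArg Subtype.val h)
      rw [Subtype.ext this]
    | some (Sum.inr b), some (Sum.inr b') =>
      have := hinj1 b b.2 b' b'.2 (inv_inj.1 (congrArg Subtype.val h))
      rw [Subtype.ext this]
    | some (Sum.inl b), some (Sum.inr b') =>
      exact absurd (congrArg Subtype.val h) (hne b b.2 b' b'.2)
    | some (Sum.inr b), some (Sum.inl b') =>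
      exact absurd (congrArg Subtype.val h).symm (hne b' b'.2 b b.2)
  have hcard := Nat.card_le_card_of_injective F hF
  rw [Finite.card_option, Nat.card_sum] at hcard
  omega

theorem pow9 (w : ℕ) : w ^ 9 ≤ 2 ^ (4 * w + 4) := by
  rcases Nat.lt_or_ge w 9 with h | h
  · interval_cases w <;> norm_num
  · induction w, h using Nat.le_induction with
    | base => norm_num
    | succ w hw ih =>
      have h1 : (9 * (w + 1)) ^ 9 ≤ (10 * w) ^ 9 := Nat.pow_le_pow_left (by omega) 9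
      have h2 : (w + 1) ^ 9 ≤ 16 * w ^ 9 := by
        rw [mul_pow, mul_pow] at h1
        have h3 : 9 ^ 9 * (w + 1) ^ 9 ≤ 9 ^ 9 * (16 * w ^ 9) := by
          refine h1.trans ?_
          rw [← mul_assoc]
          exact Nat.mul_le_mul_right _ (by norm_num)
        exact Nat.le_of_mul_le_mul_left h3 (by norm_num)
      calc (w + 1) ^ 9 ≤ 16 * w ^ 9 := h2
        _ ≤ 16 * 2 ^ (4 * w + 4) := Nat.mul_le_mul_left _ ih
        _ = 2 ^ (4 * (w + 1) + 4) := by ring

theorem growth [Finite G] (T : Tower P p n) (hodd : ∀ i < n, p i ≠ 2) {i : ℕ} (hi : i < n) :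
    (Nat.card (Gs P i)) ^ 9 < 2 ^ (4 * Nat.card (P i)) := by
  induction i with
  | zero =>
    rw [gs_zero]
    have : 0 < Nat.card (P 0) := Nat.card_pos
    simp only [Subgroup.card_bot, one_pow]
    exact Nat.one_lt_two_pow (by omega)
  | succ i ih =>
    have hi' : i < n := by omega
    have h1 := ih hi'
    have h2 := card_double T hodd hi
    rw [T.card_gs_succ hi', mul_pow]
    calc Nat.card (Gs P i) ^ 9 * Nat.card (P i) ^ 9
        < 2 ^ (4 * Nat.card (P i)) * 2 ^ (4 * Nat.card (P i) + 4) :=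
          Nat.mul_lt_mul_of_lt_of_le h1 (pow9 _) (by positivity)
      _ = 2 ^ (4 * (2 * Nat.card (P i) + 1)) := by rw [← pow_add]; ring_nf
      _ ≤ 2 ^ (4 * Nat.card (P (i + 1))) :=
          Nat.pow_le_pow_right (by norm_num) (by omega)

end Pool.Agent.Work.MP_b44cb1_al
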