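import Pool.Agent.Work.MP_b44cb1_al.Defs

/-!
# Kit: commutators of subgroups normalised by `L` (all proved)
-/

set_option autoImplicit false

namespace Pool.Agent.Work.MP_b44cb1_al

open Subgroup
open scoped commutatorElement

variable {G : Type*} [Group G]

theorem Nz.subgroupOf_normal {L D : Subgroup G} (h : Nz L D) : (D.subgroupOf L).Normal := by
  constructor
  intro d hd g
  rw [mem_subgroupOf] at *
  simpa using h g g.2 d hd

/-- `L` normalises `⨆ i ∈ s, A i` if it normalises each `A i`. -/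
theorem nz_biSup {ι : Type*} (s : Finset ι) (A : ι → Subgroup G) (L : Subgroup G)
    (hn : ∀ i ∈ s, Nz L (A i)) : Nz L (⨆ i ∈ s, A i) := by
  rw [nz_iff]
  intro g hg
  rw [mem_normalizer_iff_map_conj_eq]
  simp only [Subgroup.map_iSup]
  refine iSup_congr fun i => iSup_congr fun hi => ?_
  have := (nz_iff.1 (hn i hi)) hg
  rwa [mem_normalizer_iff_map_conj_eq] at this

theorem nz_biInf {ι : Type*} (s : Finset ι) (A : ι → Subgroup G) (L : Subgroup G)
    (hn : ∀ i ∈ s, Nz L (A i)) : Nz L (⨅ i ∈ s, A i) := by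
  intro g hg d hd
  simp only [Subgroup.mem_iInf] at *
  exact fun i hi => hn i hi g hg d (hd i hi)

theorem nz_comm {L X Y : Subgroup G} (hX : Nz L X) (hY : Nz L Y) : Nz L ⁅X, Y⁆ := by
  apply nz_of_cj
  intro g hg
  unfold cj
  rw [Subgroup.map_commutator]
  have h1 := cj_eq_of_mem hX hg
  have h2 := cj_eq_of_mem hY hg
  unfold cj at h1 h2
  rw [h1, h2]

theorem comm_le_left {X Y : Subgroup G} (h : Nz Y X) : ⁅X, Y⁆ ≤ X := by
  rw [commutator_le]
  intro a ha b hb
  have := h b hb _ (inv_mem ha)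
  have h2 := mul_mem ha this
  simpa [commutatorElement_def, mul_assoc] using h2

theorem comm_le_right {X Y : Subgroup G} (h : Nz X Y) : ⁅X, Y⁆ ≤ Y := by
  rw [commutator_comm]; exact comm_le_left h

theorem comm_le_inf {L X Y : Subgroup G} (hXL : X ≤ L) (hYL : Y ≤ L) (hX : Nz L X)
    (hY : Nz L Y) : ⁅X, Y⁆ ≤ X ⊓ Y :=
  le_inf (comm_le_left (hX.mono hYL)) (comm_le_right (hY.mono hXL))

theorem comm_sup_right {L X A B : Subgroup G} (hXL : X ≤ L) (hAL : A ≤ L) (hBL : B ≤ L)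
    (hX : Nz L X) (hA : Nz L A) (hB : Nz L B) : ⁅X, A ⊔ B⁆ ≤ ⁅X, A⁆ ⊔ ⁅X, B⁆ := by
  rw [commutator_le]
  intro x hx y hy
  have hR : Nz L (⁅X, A⁆ ⊔ ⁅X, B⁆) := (nz_comm hX hA).sup (nz_comm hX hB)
  have hN : B ≤ normalizer (A : Set G) := (nz_iff.1 hA).trans' hBL
  rw [← SetLike.mem_coe, coe_mul_of_right_le_normalizer_left A B hN] at hy
  obtain ⟨a, ha, b, hb, rfl⟩ := hy
  have h1 : ⁅x, a * b⁆ = ⁅x, a⁆ * (a * ⁅x, b⁆ * a⁻¹) := by
    simp [commutatorElement_def, mul_assoc]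
  simp only at h1 ⊢
  rw [h1]
  refine mul_mem (mem_sup_left (commutator_mem_commutator hx ha)) ?_
  exact hR a (hAL ha) _ (mem_sup_right (commutator_mem_commutator hx hb))

theorem comm_biSup_left {ι : Type*} (s : Finset ι) (E : ι → Subgroup G) (L Y : Subgroup G)
    (hEL : ∀ i ∈ s, E i ≤ L) (hE : ∀ i ∈ s, Nz L (E i)) (hYL : Y ≤ L) (hY : Nz L Y) :
    ⁅⨆ i ∈ s, E i, Y⁆ ≤ ⨆ i ∈ s, ⁅E i, Y⁆ := by
  classical
  induction s using Finset.induction_on with
  | empty => simp [commutator_bot_left]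
  | insert a s has ih =>
    rw [Finset.iSup_insert, Finset.iSup_insert]
    have h1 : Nz L (⨆ i ∈ s, E i) :=
      nz_biSup s E L (fun i hi => hE i (Finset.mem_insert_of_mem hi))
    have h2 : (⨆ i ∈ s, E i) ≤ L :=
      iSup₂_le (fun i hi => hEL i (Finset.mem_insert_of_mem hi))
    have h3 := comm_sup_right (L := L) (X := Y) (A := E a) (B := ⨆ i ∈ s, E i) hYL
      (hEL a (Finset.mem_insert_self _ _)) h2 hY (hE a (Finset.mem_insert_self _ _)) h1
    rw [commutator_comm]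
    refine h3.trans (sup_le_sup ?_ ?_)
    · rw [commutator_comm]
    · rw [commutator_comm]
      exact ih (fun i hi => hEL i (Finset.mem_insert_of_mem hi))
        (fun i hi => hE i (Finset.mem_insert_of_mem hi))

end Pool.Agent.Work.MP_b44cb1_al
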