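import Pool.Agent.Work.MP_b44cb1_al.OmA

/-!
# OmSupp  (size M)  : elements of `P b` with prescribed support

`1 ≤ b < n`, `V = P b`, `A = P (b-1)`, `U ∈ Om P p b`; let `v₀ ∈ V`, `v₀ ≠ 1` commute with `U`.
Put `v = ∏_{u ∈ S} u v₀ u⁻¹`, product in the commutative group `V` (normalised by `Gs P b`).
The factor `u v₀ u⁻¹` commutes with `cj u U ∈ Om P p b` (`om_cj`).

Norm maps: for a subgroup `U₁ ≤ A` and `a ∈ V` let `N_{U₁}(a) = ∏_{t ∈ U₁} t a t⁻¹ ∈ V`; it is
multiplicative in `a` and commutes with `U₁`; if `a` commutes with `U₂ ≤ A` then so does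
`N_{U₁}(a)` (`A` is commutative). If `U₁, U₂ ∈ Om P p b` are distinct and `a` commutes with `U₂`
then `N_{U₁}(a) = 1` by `om_max`; if `a` commutes with `U₁` then `N_{U₁}(a) = a ^ |U₁|`,
which is `≠ 1` if `a ≠ 1` (`|U₁|` divides `|A|`, which is prime to `|V|`).

(1) Let `g ∈ Gs P b` commute with `v`, `u₁ ∈ S`, and suppose `U₁ := cj (g * u₁) U` is not of the form
`cj u' U`, `u' ∈ S`. Then `N_{U₁}(v) = 1` (all factors of `v`). But
`v = g v g⁻¹ = ∏_{u ∈ S} (g u) v₀ (g u)⁻¹`, where the factor of `u` commutes with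
`cj (g * u) U`, and `cj (g * u) U = U₁` only for `u = u₁` (`cj_mul`, `cj_inj`, injectivity `hinj`).
So `N_{U₁}(v) = ((g u₁) v₀ (g u₁)⁻¹)^|U₁| ≠ 1`, a contradiction.
(2) If `g ∈ Gs P b` and `g u ∈ S` for all `u ∈ S`, then `u ↦ g u` is a permutation of `S` and
`g v g⁻¹ = ∏_{u ∈ S} (g u) v₀ (g u)⁻¹ = v`.
(3) If `u₁ ∈ S` then `N_{cj u₁ U}(v) = (u₁ v₀ u₁⁻¹)^|U| ≠ 1`, so `v ≠ 1`.
-/

set_option autoImplicit false

namespace Pool.Agent.Work.MP_b44cb1_al

open Subgroup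
open scoped commutatorElement

variable {G : Type*} [Group G] {P : ℕ → Subgroup G} {p : ℕ → ℕ} {n : ℕ}

section Norm

variable {V A K : Subgroup G}

/-- the commutative group structure of `V`. -/
private abbrev osComm (hV : Cz V V) : CommGroup V :=
  { (inferInstance : Group V) with
    mul_comm := fun a b => Subtype.ext (hV a a.2 b b.2) }

/-- the action of `K` on `V` by conjugation. -/
private def osAct (hn : Nz K V) (g : K) : V →* V :=
  { toFun := fun v => ⟨(g : G) * v * (g : G)⁻¹, hn g g.2 v v.2⟩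
    map_one' := Subtype.ext (by simp)
    map_mul' := fun a b => Subtype.ext (by simp [mul_assoc]) }

private theorem osAct_coe (hn : Nz K V) (g : K) (v : V) :
    ((osAct hn g v : V) : G) = (g : G) * v * (g : G)⁻¹ := rfl

private theorem osAct_mul (hn : Nz K V) (g g' : K) (v : V) :
    osAct hn (g * g') v = osAct hn g (osAct hn g' v) :=
  Subtype.ext (by simp [osAct_coe, mul_assoc])

private theorem osAct_fix (hn : Nz K V) (g : K) (v : V) :
    osAct hn g v = v ↔ (g : G) * v = v * g := by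
  constructor
  · intro h
    have := congrArg (fun x : V => (x : G)) h
    simp only [osAct_coe] at this
    exact mul_inv_eq_iff_eq_mul.1 this
  · intro h
    apply Subtype.ext
    rw [osAct_coe, h]
    simp

/-- the norm map. -/
private noncomputable def osNm [Finite G] (hV : Cz V V) (hn : Nz K V) (U : Subgroup G)
    (hU : U ≤ K) : V →* V :=
  let _ := osComm hV
  let _ := Fintype.ofFinite U
  { toFun := fun a => ∏ t : U, osAct hn ⟨t, hU t.2⟩ a
    map_one' := by simp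
    map_mul' := fun a b => by
      simp only [map_mul]
      exact Finset.prod_mul_distrib }

private theorem osNm_comm [Finite G] (hV : Cz V V) (hn : Nz K V) (U : Subgroup G)
    (hU : U ≤ K) (a : V) (u : G) (hu : u ∈ U) :
    (u : G) * (osNm hV hn U hU a : V) = (osNm hV hn U hU a : V) * u := by
  let _ := osComm hV
  let _ := Fintype.ofFinite U
  have h : osAct hn ⟨u, hU hu⟩ (osNm hV hn U hU a) = osNm hV hn U hU a := by
    change osAct hn ⟨u, hU hu⟩ (∏ t : U, osAct hn ⟨t, hU t.2⟩ a) = ∏ t : U, osAct hn ⟨t, hU t.2⟩ a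
    rw [map_prod, ← Equiv.prod_comp (Equiv.mulLeft (⟨u, hu⟩ : U))
      (fun t : U => osAct hn ⟨t, hU t.2⟩ a)]
    refine Finset.prod_congr rfl fun t _ => ?_
    rw [← osAct_mul]
    rfl
  exact (osAct_fix hn _ _).1 h

private theorem osNm_comm' [Finite G] (hV : Cz V V) (hn : Nz K V) (hA : Cz A A) (hAK : A ≤ K)
    (U U' : Subgroup G) (hU : U ≤ A) (hU' : U' ≤ A) (a : V)
    (ha : ∀ u ∈ U', (u : G) * a = a * u) (u : G) (hu : u ∈ U') :
    (u : G) * (osNm hV hn U (hU.trans hAK) a : V)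
      = (osNm hV hn U (hU.trans hAK) a : V) * u := by
  let _ := osComm hV
  let _ := Fintype.ofFinite U
  have hu2 : u ∈ K := hAK (hU' hu)
  have h : osAct hn ⟨u, hu2⟩ (osNm hV hn U (hU.trans hAK) a)
      = osNm hV hn U (hU.trans hAK) a := by
    change osAct hn ⟨u, hu2⟩ (∏ t : U, osAct hn ⟨t, (hU.trans hAK) t.2⟩ a)
      = ∏ t : U, osAct hn ⟨t, (hU.trans hAK) t.2⟩ a
    rw [map_prod]
    refine Finset.prod_congr rfl fun t _ => ?_
    rw [← osAct_mul]
    have e : (⟨u, hu2⟩ : K) * ⟨t, (hU.trans hAK) t.2⟩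
        = ⟨t, (hU.trans hAK) t.2⟩ * ⟨u, hu2⟩ :=
      Subtype.ext (hA u (hU' hu) t (hU t.2))
    rw [e, osAct_mul, (osAct_fix hn ⟨u, hu2⟩ a).2 (ha u hu)]
  exact (osAct_fix hn _ _).1 h

private theorem osNm_pow [Finite G] (hV : Cz V V) (hn : Nz K V) (U : Subgroup G)
    (hU : U ≤ K) (a : V) (ha : ∀ u ∈ U, (u : G) * a = a * u) :
    osNm hV hn U hU a = a ^ Nat.card U := by
  let _ := osComm hV
  let _ := Fintype.ofFinite U
  change ∏ t : U, osAct hn ⟨t, hU t.2⟩ a = a ^ Nat.card U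
  have e : ∀ t : U, osAct hn ⟨t, hU t.2⟩ a = a := fun t =>
    (osAct_fix hn ⟨t, hU t.2⟩ a).2 (ha t t.2)
  rw [Finset.prod_congr rfl fun t _ => e t]
  rw [Finset.prod_const, Finset.card_univ, Nat.card_eq_fintype_card]

end Norm

theorem om_supp [Finite G] (T : Tower P p n) {b : ℕ} (hb : 1 ≤ b) (hbn : b < n)
    {U : Subgroup G} (hU : U ∈ Om P p b) (S : Finset G) (hS : ∀ u ∈ S, u ∈ Gs P b)
    (hinj : ∀ u ∈ S, ∀ u' ∈ S, cj u U = cj u' U → u = u') :
    ∃ v ∈ P b, (∀ g ∈ Gs P b, g * v = v * g → ∀ u ∈ S, ∃ u' ∈ S, cj (g * u) U = cj u' U) ∧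
      (∀ g ∈ Gs P b, (∀ u ∈ S, g * u ∈ S) → g * v = v * g) ∧ (S.Nonempty → v ≠ 1) := by
  classical
  have hV : Cz (P b) (P b) := T.comm b hbn
  have hn : Nz (Gs P b) (P b) := T.norm b hbn
  have hA : Cz (P (b - 1)) (P (b - 1)) := T.comm (b - 1) (by omega)
  have hAK : P (b - 1) ≤ Gs P b := le_gs P (by omega)
  obtain ⟨v₀, hv₀, hv₀1, hv₀U⟩ := hU.2.2
  let _ := osComm hV
  let f : G → P b := fun u =>
    if h : u ∈ Gs P b then osAct hn ⟨u, h⟩ ⟨v₀, hv₀⟩ else 1
  have hf : ∀ u (h : u ∈ Gs P b), f u = osAct hn ⟨u, h⟩ ⟨v₀, hv₀⟩ := fun u h => dif_pos h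
  have hfne : ∀ u ∈ Gs P b, f u ≠ 1 := by
    intro u hu h1
    rw [hf u hu] at h1
    have h2 := congrArg (fun x : P b => (x : G)) h1
    simp only [osAct_coe] at h2
    apply hv₀1
    have h3 : v₀ = u⁻¹ * (u * v₀ * u⁻¹) * u := by simp [mul_assoc]
    rw [h3, h2]
    simp
  have hfc : ∀ u ∈ Gs P b, ∀ t ∈ cj u U, (t : G) * (f u : P b) = (f u : P b) * t := by
    intro u hu t ht
    rw [mem_cj] at ht
    have h1 := hv₀U _ ht
    rw [hf u hu, osAct_coe]
    change t * (u * v₀ * u⁻¹) = u * v₀ * u⁻¹ * t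
    calc t * (u * v₀ * u⁻¹) = u * ((u⁻¹ * t * u) * v₀) * u⁻¹ := by simp [mul_assoc]
      _ = u * v₀ * u⁻¹ * t := by rw [h1]; simp [mul_assoc]
  have hOm : ∀ u ∈ Gs P b, cj u U ∈ Om P p b := fun u hu => om_cj T hb hbn hU hu
  have hOmA : ∀ U' ∈ Om P p b, U' ≤ P (b - 1) := fun U' h => h.1
  -- distinct members
  have hN1 : ∀ u ∈ Gs P b, ∀ U' (hU' : U' ∈ Om P p b), U' ≠ cj u U →
      osNm hV hn U' ((hOmA U' hU').trans hAK) (f u) = 1 := by
    intro u hu U' hU' hne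
    have h1 := om_max T hb hbn hU' (hOm u hu) hne
      (v := (osNm hV hn U' ((hOmA U' hU').trans hAK) (f u) : P b)) (Subtype.mem _)
      (fun t ht => osNm_comm hV hn U' _ (f u) t ht)
      (fun t ht => osNm_comm' hV hn hA hAK U' (cj u U) (hOmA U' hU') (hOmA _ (hOm u hu)) (f u)
        (hfc u hu) t ht)
    exact Subtype.ext h1
  have hN2 : ∀ u (hu : u ∈ Gs P b),
      osNm hV hn (cj u U) ((hOmA _ (hOm u hu)).trans hAK) (f u) ≠ 1 := by
    intro u hu h1
    rw [osNm_pow hV hn _ _ _ (hfc u hu)] at h1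
    have hcop : (Nat.card (P b)).Coprime (Nat.card (cj u U)) :=
      T.cop_card hbn _ ((hOmA _ (hOm u hu)).trans hAK)
    have h2 : orderOf (f u) ∣ Nat.card (cj u U) := orderOf_dvd_of_pow_eq_one h1
    have h3 : orderOf (f u) ∣ Nat.card (P b) := orderOf_dvd_natCard _
    have h4 : orderOf (f u) ∣ 1 := by
      have := Nat.dvd_gcd h3 h2
      rwa [hcop] at this
    exact hfne u hu (orderOf_eq_one_iff.1 (Nat.dvd_one.1 h4))
  have hmain : ∀ g ∈ Gs P b, ∀ u₁ ∈ S, ∀ (hm : g * u₁ ∈ Gs P b),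
      osNm hV hn (cj (g * u₁) U) ((hOmA _ (hOm _ hm)).trans hAK)
        (∏ u ∈ S, f (g * u)) ≠ 1 := by
    intro g hg u₁ hu₁ hm
    rw [map_prod, Finset.prod_eq_single u₁]
    · exact hN2 _ hm
    · intro u hu hne
      refine hN1 (g * u) (mul_mem hg (hS u hu)) _ (hOm _ hm) ?_
      intro he
      rw [cj_mul, cj_mul, cj_inj] at he
      exact hne (hinj u hu u₁ hu₁ he.symm)
    · intro h
      exact absurd hu₁ h
  have hact : ∀ g (hg : g ∈ Gs P b),
      osAct hn ⟨g, hg⟩ (∏ u ∈ S, f u) = ∏ u ∈ S, f (g * u) := by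
    intro g hg
    rw [map_prod]
    refine Finset.prod_congr rfl fun u hu => ?_
    rw [hf u (hS u hu), hf (g * u) (mul_mem hg (hS u hu)), ← osAct_mul]
    rfl
  refine ⟨(∏ u ∈ S, f u : P b), Subtype.mem _, ?_, ?_, ?_⟩
  · intro g hg hgv u₁ hu₁
    by_contra hcon
    push Not at hcon
    have h1 : osAct hn ⟨g, hg⟩ (∏ u ∈ S, f u) = ∏ u ∈ S, f u :=
      (osAct_fix hn ⟨g, hg⟩ _).2 hgv
    rw [hact g hg] at h1
    have hm : g * u₁ ∈ Gs P b := mul_mem hg (hS u₁ hu₁)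
    apply hmain g hg u₁ hu₁ hm
    rw [h1, map_prod]
    refine Finset.prod_eq_one fun u hu => ?_
    exact hN1 u (hS u hu) _ (hOm _ hm) (hcon u hu)
  · intro g hg hgS
    refine (osAct_fix hn ⟨g, hg⟩ _).1 ?_
    rw [hact g hg]
    have himg : S.image (fun u => g * u) = S := by
      apply Finset.eq_of_subset_of_card_le
      · intro x hx
        obtain ⟨u, hu, rfl⟩ := Finset.mem_image.1 hx
        exact hgS u hu
      · rw [Finset.card_image_of_injective _ (mul_right_injective g)]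
    conv_rhs => rw [← himg]
    rw [Finset.prod_image]
    intro x _ y _ h
    exact mul_left_cancel h
  · rintro ⟨u₁, hu₁⟩ h1
    have hm : 1 * u₁ ∈ Gs P b := by
      rw [one_mul]
      exact hS u₁ hu₁
    apply hmain 1 (one_mem _) u₁ hu₁ hm
    have h2 : ∏ u ∈ S, f (1 * u) = 1 := by
      simp only [one_mul]
      exact Subtype.ext h1
    rw [h2, map_one]

end Pool.Agent.Work.MP_b44cb1_al
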