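import Pool.Agent.Work.MP_b44cb1_al.LemAb
import Pool.Agent.Work.MP_b44cb1_al.OmSupp
import Pool.Agent.Work.MP_b44cb1_al.Growth
import Pool.Agent.Work.MP_b44cb1_al.CL
import Pool.Agent.Work.MP_b44cb1_al.Glau

/-!
# M12  (size M-L)  : an element of `P c` with trivial centraliser in `Gs P i`

`i + 2h + 5 ≤ c < n`, odd tower, property `Tp h`.
(1) `W = P i ≤ Gs P (i+1)` is abelian; `lem_ab` (with `c := i+1`, `b := c`): `U ∈ Om P p c` with
`∀ y ∈ W, cj y U = U → y = 1`. Let `B = {g ∈ Gs P i | ∃ w ∈ W, cj g U = cj w U}` (a subgroup: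
`cj (g g') U = cj g (cj w' U) = cj (g w' g⁻¹) (cj g U) = cj (g w' g⁻¹ w) U`). By `glau_cj`
(`W`, `B` coprime by `cop_card`) there is `u₀ ∈ W` with `cj g U₁ = U₁` for all `g ∈ B`,
`U₁ = cj u₀ U ∈ Om P p c`. Still `∀ y ∈ W, cj y U₁ = U₁ → y = 1` (`W` abelian), so
`u ↦ cj u U₁` is injective on `W`, and for `g ∈ Gs P i`, `u, u' ∈ W`: if `cj (g u) U₁ = cj u' U₁`
then `g ∈ B` (`cj g U = cj g (cj u₀⁻¹ U₁) = cj (g u₀⁻¹ u⁻¹ g⁻¹) (cj (g u) U₁)`
`= cj (g u₀⁻¹ u⁻¹ g⁻¹ u') U₁ = cj (… u' u₀) U`, and `g (u₀⁻¹ u⁻¹) g⁻¹ ∈ W`), and moreover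
`cj (g u) U₁ = cj (g u g⁻¹) (cj g U₁) = cj (g u g⁻¹) U₁`, so `g u g⁻¹ = u'`.
(2) `B` acts on the type `W` by conjugation (`Nz`), e.g. through
`MulAction B W` with `b • w = ⟨b w b⁻¹, _⟩`. If `β ∈ B`, `β ≠ 1`, then `C_W(β)` is a subgroup of
`W` different from `W` (`T.faith i`), so its index in `W` is divisible by (is a power `≥ 1` of)
`p i ≥ 3`: `3 * |fixedBy| ≤ |W|`. `|B|` is odd: it divides `|Gs P i| = ∏_{j<i} |P j|`, powers of odd
primes (`card_gs_succ`, `exists_card`). `|B|^9 ≤ |Gs P i|^9 < 2^(4 |W|)` by `growth`.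
By `cl` there is a nonempty finite `S ⊆ W` with: `β ∈ B`, `β S β⁻¹ ⊆ S` implies `β = 1`.
(3) `om_supp` for `U₁` and `S` (as a `Finset G`): `v ∈ P c`. Let `g ∈ Gs P i` commute with `v`. Then
for every `u ∈ S` there is `u' ∈ S` with `cj (g u) U₁ = cj u' U₁`. As `S ≠ ∅`, `g ∈ B` by (1), and
`g u g⁻¹ = u' ∈ S` for every `u ∈ S`; so `g = 1`.
-/

set_option autoImplicit false

namespace Pool.Agent.Work.MP_b44cb1_al

open Subgroup
open scoped commutatorElement

variable {G : Type*} [Group G] {P : ℕ → Subgroup G} {p : ℕ → ℕ} {n : ℕ}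

private theorem m12_odd [Finite G] (T : Tower P p n) (hodd : ∀ i < n, p i ≠ 2) {i : ℕ}
    (hi : i ≤ n) : ¬ 2 ∣ Nat.card (Gs P i) := by
  induction i with
  | zero =>
    rw [gs_zero, Subgroup.card_bot]
    norm_num
  | succ i ih =>
    have hi' : i < n := by omega
    rw [T.card_gs_succ hi']
    intro h
    rcases (Nat.Prime.dvd_mul Nat.prime_two).1 h with h1 | h1
    · exact ih (by omega) h1
    · obtain ⟨k, -, hk⟩ := T.exists_card hi'
      rw [hk] at h1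
      have h2 := Nat.prime_two.dvd_of_dvd_pow h1
      exact hodd i hi' ((Nat.prime_dvd_prime_iff_eq Nat.prime_two (T.prime i hi')).1 h2).symm

private theorem m12_fix [Finite G] (T : Tower P p n) (hodd : ∀ i < n, p i ≠ 2) {i : ℕ}
    (hi : i < n) {β : G} (hβ : β ∈ Gs P i) (hβ1 : β ≠ 1) (C : Subgroup G) (hC : C ≤ P i)
    (hcent : ∀ w ∈ C, β * w = w * β) : 3 * Nat.card C ≤ Nat.card (P i) := by
  obtain ⟨m, hm⟩ := Subgroup.card_dvd_of_le hC
  obtain ⟨k, -, hk⟩ := T.exists_card hi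
  have hp := T.prime i hi
  have hm1 : m ≠ 1 := by
    rintro rfl
    have : C = P i := Subgroup.eq_of_le_of_card_ge hC (by omega)
    exact hβ1 (T.faith i hi β hβ fun v hv => hcent v (this ▸ hv))
  have hmd : m ∣ p i ^ k := by
    rw [← hk, hm]
    exact dvd_mul_left _ _
  obtain ⟨j, -, rfl⟩ := (Nat.dvd_prime_pow hp).1 hmd
  have hj : j ≠ 0 := by
    rintro rfl
    exact hm1 (pow_zero _)
  have h3 : 3 ≤ p i := by
    have h2 := hp.two_le
    have := hodd i hi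
    omega
  have h4 : p i ≤ p i ^ j := Nat.le_self_pow hj _
  rw [hm, mul_comm]
  exact Nat.mul_le_mul_left _ (h3.trans h4)

theorem m12 [Finite G] (T : Tower P p n) (hodd : ∀ i < n, p i ≠ 2) {h : ℕ} (HT : Tp h G)
    {i c : ℕ} (hcn : c < n) (hic : i + 2 * h + 5 ≤ c) :
    ∃ v ∈ P c, ∀ g ∈ Gs P i, g * v = v * g → g = 1 := by
  classical
  have hin : i < n := by omega
  have hWle : P i ≤ Gs P (i + 1) := le_gs P (Nat.lt_succ_self i)
  have hWc : P i ≤ Gs P c := le_gs P (by omega)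
  have hGc : Gs P i ≤ Gs P c := gs_mono P (by omega)
  have hcomm := T.comm i hin
  have hnorm := T.norm i hin
  obtain ⟨U, hU, hUreg⟩ := lem_ab T HT (b := c) (c := i + 1) hcn (by omega) (P i) hWle hcomm
  -- the subgroup `B`
  let B : Subgroup G :=
    { carrier := {g | g ∈ Gs P i ∧ ∃ w ∈ P i, cj g U = cj w U}
      one_mem' := ⟨one_mem _, 1, one_mem _, rfl⟩
      mul_mem' := by
        rintro g g' ⟨hg, w, hw, hgw⟩ ⟨hg', w', hw', hgw'⟩
        refine ⟨mul_mem hg hg', g * w' * g⁻¹ * w, mul_mem (hnorm g hg w' hw') hw, ?_⟩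
        calc cj (g * g') U = cj (g * w') U := by rw [cj_mul, hgw', ← cj_mul]
          _ = cj ((g * w' * g⁻¹) * g) U := by congr 1; simp [mul_assoc]
          _ = cj (g * w' * g⁻¹ * w) U := by rw [cj_mul, hgw, ← cj_mul]
      inv_mem' := by
        rintro g ⟨hg, w, hw, hgw⟩
        have hm : g⁻¹ * w⁻¹ * g ∈ P i := by
          have := hnorm g⁻¹ (inv_mem hg) w⁻¹ (inv_mem hw)
          simpa using this
        refine ⟨inv_mem hg, g⁻¹ * w⁻¹ * g, hm, ?_⟩
        have h1 : cj w⁻¹ (cj g U) = U := by rw [hgw, cj_inv_cj]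
        have e : g⁻¹ * w⁻¹ * g = g⁻¹ * (w⁻¹ * g) := by simp [mul_assoc]
        rw [e, cj_mul, cj_mul w⁻¹ g, h1] }
  have hBmem : ∀ g, g ∈ B ↔ g ∈ Gs P i ∧ ∃ w ∈ P i, cj g U = cj w U := fun g => Iff.rfl
  have hBle : B ≤ Gs P i := fun g hg => hg.1
  obtain ⟨u₀, hu₀, hB₀⟩ := glau_cj (P i) B U hcomm (hnorm.mono hBle)
    (T.cop_card hin B hBle) (fun b hb => hb.2)
  set U₁ := cj u₀ U with hU₁d
  have hU₁ : U₁ ∈ Om P p c := om_cj T (by omega) hcn hU (hWc hu₀)
  have hreg₁ : ∀ y ∈ P i, cj y U₁ = U₁ → y = 1 := by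
    intro y hy hyU
    apply hUreg y hy
    have e : y * u₀ = u₀ * y := hcomm y hy u₀ hu₀
    rw [hU₁d, ← cj_mul, e, cj_mul, cj_inj] at hyU
    exact hyU
  have hinjW : ∀ u ∈ P i, ∀ u' ∈ P i, cj u U₁ = cj u' U₁ → u = u' := by
    intro u hu u' hu' he
    have h1 : cj (u'⁻¹ * u) U₁ = U₁ := by rw [cj_mul, he, cj_inv_cj]
    have h2 := hreg₁ _ (mul_mem (inv_mem hu') hu) h1
    rw [inv_mul_eq_one] at h2
    exact h2.symm
  have hclaim : ∀ g ∈ Gs P i, ∀ u ∈ P i, ∀ u' ∈ P i, cj (g * u) U₁ = cj u' U₁ →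
      g ∈ B ∧ g * u * g⁻¹ = u' := by
    intro g hg u hu u' hu' he
    have hgB : g ∈ B := by
      rw [hBmem]
      refine ⟨hg, g * (u₀⁻¹ * u⁻¹) * g⁻¹ * u' * u₀, ?_, ?_⟩
      · exact mul_mem (mul_mem (hnorm g hg _ (mul_mem (inv_mem hu₀) (inv_mem hu))) hu') hu₀
      · have e0 : U = cj u₀⁻¹ U₁ := by rw [hU₁d, cj_inv_cj]
        have e1 : g * u₀⁻¹ = (g * (u₀⁻¹ * u⁻¹) * g⁻¹) * (g * u) := by simp [mul_assoc]
        calc cj g U = cj (g * u₀⁻¹) U₁ := by rw [cj_mul, ← e0]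
          _ = cj (g * (u₀⁻¹ * u⁻¹) * g⁻¹) (cj (g * u) U₁) := by rw [e1, cj_mul]
          _ = cj (g * (u₀⁻¹ * u⁻¹) * g⁻¹ * u' * u₀) U := by
            rw [he, cj_mul _ u₀, cj_mul _ u']
    refine ⟨hgB, ?_⟩
    have e1 : g * u = (g * u * g⁻¹) * g := by simp [mul_assoc]
    rw [e1, cj_mul, hB₀ g hgB] at he
    exact hinjW _ (hnorm g hg u hu) u' hu' he
  -- the action of `B` on `P i`
  letI act : MulAction B (P i) :=
    { smul := fun b w => ⟨b * w * (b : G)⁻¹, hnorm b (hBle b.2) w w.2⟩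
      one_smul := by
        intro w
        apply Subtype.ext
        change (1 : G) * w * (1 : G)⁻¹ = w
        simp
      mul_smul := by
        intro b b' w
        apply Subtype.ext
        change ((b : G) * b') * w * ((b : G) * b')⁻¹ = b * (b' * w * (b' : G)⁻¹) * (b : G)⁻¹
        simp [mul_assoc] }
  have hsm : ∀ (b : B) (w : P i), ((b • w : P i) : G) = b * w * (b : G)⁻¹ := fun _ _ => rfl
  have hBodd : ¬ 2 ∣ Nat.card B := fun h2 =>
    m12_odd T hodd hin.le (h2.trans (Subgroup.card_dvd_of_le hBle))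
  have hne : Nonempty (P i) := ⟨1⟩
  have hfix : ∀ β : B, β ≠ 1 →
      3 * Nat.card (MulAction.fixedBy (P i) β) ≤ Nat.card (P i) := by
    intro β hβ
    let C : Subgroup G :=
      { carrier := {w | w ∈ P i ∧ (β : G) * w = w * β}
        one_mem' := ⟨one_mem _, by simp⟩
        mul_mem' := by
          rintro a b ⟨ha, ha'⟩ ⟨hb, hb'⟩
          refine ⟨mul_mem ha hb, ?_⟩
          rw [← mul_assoc, ha', mul_assoc, hb', mul_assoc]
        inv_mem' := by
          rintro a ⟨ha, ha'⟩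
          refine ⟨inv_mem ha, ?_⟩
          have : a * ((β : G) * a⁻¹) = β := by
            rw [← mul_assoc, ← ha', mul_assoc, mul_inv_cancel, mul_one]
          rw [← mul_left_cancel_iff (a := a), this]
          simp }
    have h1 := m12_fix T hodd hin (β := (β : G)) (hBle β.2)
      (fun h0 => hβ (Subtype.ext h0)) C (fun w hw => hw.1) (fun w hw => hw.2)
    have h2 : Nat.card (MulAction.fixedBy (P i) β) ≤ Nat.card C := by
      refine Nat.card_le_card_of_injective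
        (fun w : MulAction.fixedBy (P i) β => (⟨w.1.1, w.1.2, ?_⟩ : C)) ?_
      · have h3 : β • w.1 = w.1 := w.2
        have h4 := congrArg Subtype.val h3
        rw [hsm] at h4
        exact mul_inv_eq_iff_eq_mul.1 h4
      · intro w w' hww
        apply Subtype.ext
        apply Subtype.ext
        exact congrArg (fun x : C => (x : G)) hww
    omega
  have hcard : (Nat.card B) ^ 9 < 2 ^ (4 * Nat.card (P i)) :=
    lt_of_le_of_lt (Nat.pow_le_pow_left (Subgroup.card_le_of_le hBle) 9) (growth T hodd hin)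
  obtain ⟨S, hSne, hS⟩ := cl hBodd hfix hcard
  obtain ⟨v, hv, hv1, -, -⟩ := om_supp T (b := c) (by omega) hcn hU₁ (S.image Subtype.val)
    (by
      intro u hu
      obtain ⟨w, -, rfl⟩ := Finset.mem_image.1 hu
      exact hWc w.2)
    (by
      intro u hu u' hu' he
      obtain ⟨w, -, rfl⟩ := Finset.mem_image.1 hu
      obtain ⟨w', -, rfl⟩ := Finset.mem_image.1 hu'
      exact hinjW w w.2 w' w'.2 he)
  refine ⟨v, hv, fun g hg hgv => ?_⟩
  have h1 := hv1 g (hGc hg) hgv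
  obtain ⟨u, hu⟩ := hSne
  have hgB : g ∈ B := by
    obtain ⟨u', hu', he⟩ := h1 u (Finset.mem_image_of_mem _ hu)
    obtain ⟨w', -, rfl⟩ := Finset.mem_image.1 hu'
    exact (hclaim g hg u u.2 w' w'.2 he).1
  have h2 := hS ⟨g, hgB⟩ ?_
  · exact congrArg Subtype.val h2
  · intro a ha
    obtain ⟨u', hu', he⟩ := h1 a (Finset.mem_image_of_mem _ ha)
    obtain ⟨w', hw', rfl⟩ := Finset.mem_image.1 hu'
    have h3 := (hclaim g hg a a.2 w' w'.2 he).2
    have h4 : (⟨g, hgB⟩ : B) • a = w' := Subtype.ext h3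
    rw [h4]
    exact hw'

end Pool.Agent.Work.MP_b44cb1_al
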