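import Pool.Agent.Work.MP_b44cb1_al.M12

/-!
# M13  (size S-M)  : a hyperplane with trivial stabiliser in `Gs P i`

Let `c = i + 2h + 5`; `c + 1 + 2h + 4 ≤ b < n`. By `m12` there is `v ∈ W := P c` with trivial
centraliser in `Gs P i`. By `lem_ab` for `Y = W ≤ Gs P (c+1)` there is `U ∈ Om P p b` with
`∀ y ∈ W, cj y U = U → y = 1`. Let `B = {g ∈ Gs P i | ∃ w ∈ W, cj g U = cj w U}` (a subgroup; it
normalises `W`, and `|W|`, `|B|` are coprime). By `glau_cj` there is `u₀ ∈ W` such that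
`U₁ = cj u₀ U` is fixed by `B`. Take `U₂ = cj v U₁ = cj (v u₀) U ∈ Om P p b` (`om_cj`).
Let `g ∈ Gs P i` fix `U₂`. Then
`cj g U = cj (g (v u₀)⁻¹ g⁻¹) (cj g U₂) = cj (g (v u₀)⁻¹ g⁻¹ (v u₀)) U`, so `g ∈ B` and `g` fixes
`U₁`. Hence `cj v U₁ = U₂ = cj g (cj v U₁) = cj (g v g⁻¹) U₁`, so `v⁻¹ g v g⁻¹ ∈ W` fixes `U₁`,
hence (`W` abelian) fixes `U`, hence is `1`: `g v = v g` and `g = 1`.
-/

set_option autoImplicit false

namespace Pool.Agent.Work.MP_b44cb1_al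

open Subgroup
open scoped commutatorElement

variable {G : Type*} [Group G] {P : ℕ → Subgroup G} {p : ℕ → ℕ} {n : ℕ}

theorem m13 [Finite G] (T : Tower P p n) (hodd : ∀ i < n, p i ≠ 2) {h : ℕ} (HT : Tp h G)
    {i b : ℕ} (hbn : b < n) (hib : i + 4 * h + 10 ≤ b) :
    ∃ U ∈ Om P p b, ∀ g ∈ Gs P i, cj g U = U → g = 1 := by
  obtain ⟨c, hc⟩ : ∃ c, c = i + 2 * h + 5 := ⟨_, rfl⟩
  have hcn : c < n := by omega
  have hWb : P c ≤ Gs P b := le_gs P (by omega)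
  have hGc : Gs P i ≤ Gs P c := gs_mono P (by omega)
  have hcomm := T.comm c hcn
  have hnorm : Nz (Gs P i) (P c) := (T.norm c hcn).mono hGc
  obtain ⟨v, hv, hvc⟩ := m12 T hodd HT (i := i) (c := c) hcn (by omega)
  obtain ⟨U, hU, hUreg⟩ := lem_ab T HT (b := b) (c := c + 1) hbn (by omega) (P c)
    (le_gs P (Nat.lt_succ_self c)) hcomm
  let B : Subgroup G :=
    { carrier := {g | g ∈ Gs P i ∧ ∃ w ∈ P c, cj g U = cj w U}
      one_mem' := ⟨one_mem _, 1, one_mem _, rfl⟩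
      mul_mem' := by
        rintro g g' ⟨hg, w, hw, hgw⟩ ⟨hg', w', hw', hgw'⟩
        refine ⟨mul_mem hg hg', g * w' * g⁻¹ * w, mul_mem (hnorm g hg w' hw') hw, ?_⟩
        calc cj (g * g') U = cj (g * w') U := by rw [cj_mul, hgw', ← cj_mul]
          _ = cj ((g * w' * g⁻¹) * g) U := by congr 1; simp [mul_assoc]
          _ = cj (g * w' * g⁻¹ * w) U := by rw [cj_mul, hgw, ← cj_mul]
      inv_mem' := by
        rintro g ⟨hg, w, hw, hgw⟩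
        have hm : g⁻¹ * w⁻¹ * g ∈ P c := by
          have := hnorm g⁻¹ (inv_mem hg) w⁻¹ (inv_mem hw)
          simpa using this
        refine ⟨inv_mem hg, g⁻¹ * w⁻¹ * g, hm, ?_⟩
        have h1 : cj w⁻¹ (cj g U) = U := by rw [hgw, cj_inv_cj]
        have e : g⁻¹ * w⁻¹ * g = g⁻¹ * (w⁻¹ * g) := by simp [mul_assoc]
        rw [e, cj_mul, cj_mul w⁻¹ g, h1] }
  have hBmem : ∀ g, g ∈ B ↔ g ∈ Gs P i ∧ ∃ w ∈ P c, cj g U = cj w U := fun g => Iff.rfl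
  have hBle : B ≤ Gs P i := fun g hg => hg.1
  obtain ⟨u₀, hu₀, hB₀⟩ := glau_cj (P c) B U hcomm (hnorm.mono hBle)
    (T.cop_card hcn B (hBle.trans hGc)) (fun b hb => hb.2)
  have hvu : v * u₀ ∈ P c := mul_mem hv hu₀
  refine ⟨cj (v * u₀) U, om_cj T (by omega) hbn hU (hWb hvu), ?_⟩
  intro g hg hgU
  have hgB : g ∈ B := by
    rw [hBmem]
    refine ⟨hg, g * (v * u₀)⁻¹ * g⁻¹ * (v * u₀),
      mul_mem (hnorm g hg _ (inv_mem hvu)) hvu, ?_⟩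
    calc cj g U = cj ((g * (v * u₀)⁻¹ * g⁻¹) * (g * (v * u₀))) U := by
          congr 1; simp [mul_assoc]
      _ = cj (g * (v * u₀)⁻¹ * g⁻¹ * (v * u₀)) U := by
          rw [cj_mul, cj_mul g, hgU, ← cj_mul]
  have hgu := hB₀ g hgB
  have h1 : cj (v⁻¹ * (g * v * g⁻¹)) (cj u₀ U) = cj u₀ U := by
    have h2 : cj (g * v * g⁻¹) (cj u₀ U) = cj v (cj u₀ U) := by
      calc cj (g * v * g⁻¹) (cj u₀ U) = cj (g * v * g⁻¹) (cj g (cj u₀ U)) := by rw [hgu]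
        _ = cj g (cj (v * u₀) U) := by
            rw [← cj_mul, ← cj_mul, ← cj_mul]
            congr 1
            simp [mul_assoc]
        _ = cj v (cj u₀ U) := by rw [hgU, cj_mul]
    rw [cj_mul, h2, cj_inv_cj]
  have hy : v⁻¹ * (g * v * g⁻¹) ∈ P c := mul_mem (inv_mem hv) (hnorm g hg v hv)
  have h3 : v⁻¹ * (g * v * g⁻¹) = 1 := by
    apply hUreg _ hy
    have e : (v⁻¹ * (g * v * g⁻¹)) * u₀ = u₀ * (v⁻¹ * (g * v * g⁻¹)) := hcomm _ hy u₀ hu₀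
    rw [← cj_mul, e, cj_mul, cj_inj] at h1
    exact h1
  refine hvc g hg ?_
  rw [inv_mul_eq_one] at h3
  exact (eq_mul_inv_iff_mul_eq.1 h3).symm

end Pool.Agent.Work.MP_b44cb1_al
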