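import Pool.Agent.Work.MP_b44cb1_al.OmSupp

/-!
# M14  (size S)  : elements of `P b` with prescribed centraliser

`U ∈ Om P p b` has trivial stabiliser in `Gs P i`, `i ≤ b`. So `u ↦ cj u U` is injective on
`Gs P i` (`cj_mul`, `cj_inj`).
* `m14a`: `om_supp` with `S = (zpowers y : Set G).toFinset` (`Finite G`): `w`. `y u ∈ S` for `u ∈ S`, so
  `y` commutes with `w`. If `g` commuted with `w` then for `u = 1 ∈ S` there would be
  `u' ∈ zpowers y` with `cj g U = cj u' U`, so `g = u' ∈ zpowers y`, contradiction.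
* `m14b`: `om_supp` with `S = Gs P i` as a finset.
-/

set_option autoImplicit false

namespace Pool.Agent.Work.MP_b44cb1_al

open Subgroup
open scoped commutatorElement

variable {G : Type*} [Group G] {P : ℕ → Subgroup G} {p : ℕ → ℕ} {n : ℕ}

private theorem m14_inj {i : ℕ} {U : Subgroup G} (hst : ∀ g ∈ Gs P i, cj g U = U → g = 1)
    {u u' : G} (hu : u ∈ Gs P i) (hu' : u' ∈ Gs P i) (h : cj u U = cj u' U) : u = u' := by
  have h1 : cj (u'⁻¹ * u) U = U := by rw [cj_mul, h, cj_inv_cj]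
  have h2 := hst _ (mul_mem (inv_mem hu') hu) h1
  rw [inv_mul_eq_one] at h2
  exact h2.symm

theorem m14a [Finite G] (T : Tower P p n) {i b : ℕ} (hb : 1 ≤ b) (hbn : b < n) (hib : i ≤ b)
    {U : Subgroup G} (hU : U ∈ Om P p b) (hst : ∀ g ∈ Gs P i, cj g U = U → g = 1)
    {y g : G} (hy : y ∈ Gs P i) (hg : g ∈ Gs P i) (hgy : g ∉ zpowers y) :
    ∃ w ∈ P b, w * y = y * w ∧ g * w ≠ w * g := by
  classical
  have hle : Gs P i ≤ Gs P b := gs_mono P hib
  have hzi : ∀ u, u ∈ zpowers y → u ∈ Gs P i := by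
    intro u hu
    have : zpowers y ≤ Gs P i := by rwa [Subgroup.zpowers_le]
    exact this hu
  set S : Finset G := (Set.toFinite (zpowers y : Set G)).toFinset with hSd
  have hmem : ∀ u, u ∈ S ↔ u ∈ zpowers y := by
    intro u
    rw [hSd, Set.Finite.mem_toFinset, SetLike.mem_coe]
  obtain ⟨w, hw, h1, h2, -⟩ := om_supp T hb hbn hU S
    (fun u hu => hle (hzi u ((hmem u).1 hu)))
    (fun u hu u' hu' h => m14_inj hst (hzi u ((hmem u).1 hu)) (hzi u' ((hmem u').1 hu')) h)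
  refine ⟨w, hw, ?_, ?_⟩
  · refine (h2 y (hle hy) fun u hu => ?_).symm
    rw [hmem] at hu ⊢
    exact mul_mem (Subgroup.mem_zpowers y) hu
  · intro hcom
    obtain ⟨u', hu', he⟩ := h1 g (hle hg) hcom 1 ((hmem 1).2 (one_mem _))
    rw [mul_one] at he
    rw [hmem] at hu'
    have h3 := m14_inj hst hg (hzi u' hu') he
    exact hgy (h3 ▸ hu')

theorem m14b [Finite G] (T : Tower P p n) {i b : ℕ} (hb : 1 ≤ b) (hbn : b < n) (hib : i ≤ b)
    {U : Subgroup G} (hU : U ∈ Om P p b) (hst : ∀ g ∈ Gs P i, cj g U = U → g = 1) :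
    ∃ w ∈ P b, w ≠ 1 ∧ ∀ g ∈ Gs P i, g * w = w * g := by
  classical
  have hle : Gs P i ≤ Gs P b := gs_mono P hib
  set S : Finset G := (Set.toFinite (Gs P i : Set G)).toFinset with hSd
  have hmem : ∀ u, u ∈ S ↔ u ∈ Gs P i := by
    intro u
    rw [hSd, Set.Finite.mem_toFinset, SetLike.mem_coe]
  obtain ⟨w, hw, -, h2, h3⟩ := om_supp T hb hbn hU S
    (fun u hu => hle ((hmem u).1 hu))
    (fun u hu u' hu' h => m14_inj hst ((hmem u).1 hu) ((hmem u').1 hu') h)
  refine ⟨w, hw, h3 ⟨1, (hmem 1).2 (one_mem _)⟩, fun g hg => ?_⟩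
  refine h2 g (hle hg) fun u hu => ?_
  rw [hmem] at hu ⊢
  exact mul_mem hg hu

end Pool.Agent.Work.MP_b44cb1_al
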