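import Pool.Agent.Work.MP_b44cb1_al.TowerBasic

/-!
# NNOdd  (size S)  : `NN P c d` has odd order if the primes `p i`, `c ≤ i < d`, are odd

Induction on `d ≥ c`: `NN P c c = ⊥`; `NN P c (d+1) = NN P c d ⊔ P d`, where `NN P c d ≤ Gs P d`
normalises `P d` (`nn_le`, `T.norm`), so the order of `NN P c (d+1)` divides
`|NN P c d| * |P d|` (product formula: `NN P c d ⊓ P d = ⊥`, or second isomorphism theorem), and
`|P d| = p d ^ k` (`exists_card`) with `p d ≠ 2` prime.
-/

set_option autoImplicit false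

namespace Pool.Agent.Work.MP_b44cb1_al

open Subgroup
open scoped commutatorElement

/-- the product formula for a subgroup of `Gs P i` and `P i`. -/
private theorem nnodd_card {G : Type*} [Group G] [Finite G] {P : ℕ → Subgroup G} {p : ℕ → ℕ}
    {n : ℕ} (T : Tower P p n) {i : ℕ} (hi : i < n) {A : Subgroup G} (hA : A ≤ Gs P i) :
    Nat.card (A ⊔ P i : Subgroup G) = Nat.card A * Nat.card (P i) := by
  rw [← Nat.card_prod]
  symm
  refine Nat.card_eq_of_bijective (fun x : A × P i =>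
    (⟨x.1 * x.2, mul_mem (mem_sup_left x.1.2) (mem_sup_right x.2.2)⟩ :
      (A ⊔ P i : Subgroup G))) ⟨?_, ?_⟩
  · rintro ⟨g, v⟩ ⟨g', v'⟩ h
    have h1 : (g : G) * v = g' * v' :=
      congrArg (fun x : (A ⊔ P i : Subgroup G) => (x : G)) h
    have h2 : (g' : G)⁻¹ * g = v' * (v : G)⁻¹ := by
      have h3 : (g : G) = g' * v' * (v : G)⁻¹ := by rw [← h1]; group
      rw [h3]; group
    have h3 : (g' : G)⁻¹ * g ∈ Gs P i ⊓ P i := by
      refine Subgroup.mem_inf.2 ⟨(Gs P i).mul_mem ((Gs P i).inv_mem (hA g'.2)) (hA g.2), ?_⟩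
      rw [h2]
      exact (P i).mul_mem v'.2 ((P i).inv_mem v.2)
    rw [T.inf_bot hi, Subgroup.mem_bot] at h3
    have h4 : (g' : G) = g := inv_mul_eq_one.1 h3
    have h5 : (v' : G) = v := by
      rw [h3] at h2
      exact (mul_inv_eq_one.1 h2.symm)
    rw [Prod.mk.injEq]
    exact ⟨Subtype.ext h4.symm, Subtype.ext h5.symm⟩
  · rintro ⟨x, hx⟩
    rw [← SetLike.mem_coe, coe_mul_of_left_le_normalizer_right _ _
      (nz_iff.1 ((T.norm i hi).mono hA))] at hx
    obtain ⟨g, hg, v, hv, hgv⟩ := hx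
    exact ⟨⟨⟨g, hg⟩, ⟨v, hv⟩⟩, Subtype.ext hgv⟩

theorem nn_card_odd {G : Type*} [Group G] [Finite G] {P : ℕ → Subgroup G} {p : ℕ → ℕ}
    {n : ℕ} (T : Tower P p n) (c : ℕ) (d : ℕ) (hd : d ≤ n)
    (hodd : ∀ i, c ≤ i → i < d → p i ≠ 2) : ¬ 2 ∣ Nat.card (NN P c d) := by
  induction d with
  | zero =>
    have h : NN P c 0 = ⊥ := by
      unfold NN
      simp
    rw [h, Subgroup.card_bot]
    norm_num
  | succ d ih =>
    by_cases hcd : c ≤ d
    · have h1 : NN P c (d + 1) = NN P c d ⊔ P d := by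
        unfold NN
        rw [← Finset.insert_Ico_right_eq_Ico_add_one hcd, Finset.iSup_insert, sup_comm]
      rw [h1, nnodd_card T (by omega) (nn_le P c d)]
      intro h
      rcases (Nat.Prime.dvd_mul Nat.prime_two).1 h with h2 | h2
      · exact ih (by omega) (fun i h1 h2 => hodd i h1 (by omega)) h2
      · obtain ⟨k, _, hk⟩ := T.exists_card (i := d) (by omega)
        rw [hk] at h2
        have h3 := Nat.prime_two.dvd_of_dvd_pow h2
        have h4 := (Nat.prime_dvd_prime_iff_eq Nat.prime_two (T.prime d (by omega))).1 h3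
        exact hodd d hcd (by omega) h4.symm
    · have h : NN P c (d + 1) = ⊥ := by
        unfold NN
        rw [Finset.Ico_eq_empty (by omega)]
        simp
      rw [h, Subgroup.card_bot]
      norm_num

end Pool.Agent.Work.MP_b44cb1_al
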