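import Pool.Agent.Work.MP_b44cb1_al.Kit

/-!
# TD  (size M)  : the key computation with the law

Write `x^y = y⁻¹ x y`; `phi y z = z⁻¹ z^y`. `D ⊴ L`, `k L k⁻¹ = L`; hence `cj k D = k D k⁻¹` and
`cj k⁻¹ D = k⁻¹ D k` are also normal in `L`. Congruences are modulo `D` (left cosets of `D` in the
group `L`; e.g. work in `L ⧸ D.subgroupOf L`, or prove by hand that for `a, b, y, y' ∈ L` with
`a⁻¹ a' ∈ D` and `y⁻¹ y' ∈ D` one has `(phi y a)⁻¹ * phi y' a' ∈ D`).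

Write `b = b₁ d` with `b₁ ∈ k D k⁻¹`, `d ∈ D` (`Subgroup.mem_sup_of_normal`-like lemma, or
`coe_mul_of_right_le_normalizer_left`) and `u = u₁ d'` with `u₁ ∈ k⁻¹ D k`, `d' ∈ D`.
Put `y₂ = k u₁⁻¹ k⁻¹ ∈ D` and `y = b₁ y₂ ∈ L`. Then `y ≡ b₁ ≡ b`, and
`phi y k = k⁻¹ y⁻¹ k y = (k⁻¹ y₂⁻¹ k) (k⁻¹ b₁⁻¹ k) y = u₁ (k⁻¹ b₁⁻¹ k) y`, where
`k⁻¹ b₁⁻¹ k ∈ D`, so `phi y k ∈ L` and `phi y k ≡ u b` mod `D`.
In any group `phi b (z^b) = (phi b z)^b` and `phi b (u b) = b⁻¹ u⁻¹ b⁻¹ u b b = (phi b u)^b`, so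
`(phi b)^[n] (u b) = ((phi b)^[n] u)^b` for `n ≥ 1`. Therefore
`(phi y)^[n+1] k = (phi y)^[n] (phi y k) ≡ ((phi b)^[n] u)^b` for all `n ≥ 1`.
The law for `x = k` gives `(phi y)^[r] k = (phi y)^[s] k`.
* If `r ≥ 2`: take `n = r-1` and `n = s-1`; conjugating back by `b ∈ L` (which normalises `D`)
  gives `(phi b)^[r-1] u ≡ (phi b)^[s-1] u`.
* If `r = 1`: apply the construction with `b = 1`: `phi y k ≡ u` and
  `(phi y)^[s] k ≡ (phi 1)^[s-1] u = 1` (as `s ≥ 2`), and the law gives `u ∈ D`. Then also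
  `(phi b)^[s-1] u ∈ D` (`D` is normal in `L`, `b ∈ L`), which is the claim for `r = 1`.
-/

set_option autoImplicit false

namespace Pool.Agent.Work.MP_b44cb1_al

open Subgroup
open scoped commutatorElement

variable {G : Type*} [Group G]

private theorem td_one {Q : Type*} [Group Q] (n : ℕ) (hn : 1 ≤ n) (u : Q) :
    (phi (1 : Q))^[n] u = 1 := by
  obtain ⟨m, rfl⟩ : ∃ m, n = m + 1 := ⟨n - 1, by omega⟩
  rw [Function.iterate_succ_apply']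
  simp [phi]

private theorem td_fix {Q : Type*} [Group Q] (n : ℕ) (b : Q) : (phi b)^[n] 1 = 1 := by
  induction n with
  | zero => rfl
  | succ n ih => rw [Function.iterate_succ_apply', ih]; simp [phi]

private theorem td_conj {Q : Type*} [Group Q] (n : ℕ) (u b : Q) :
    (phi b)^[n + 1] (u * b) = b⁻¹ * (phi b)^[n + 1] u * b := by
  induction n with
  | zero => simp [phi, mul_assoc]
  | succ n ih =>
    rw [Function.iterate_succ_apply' _ (n + 1), ih, Function.iterate_succ_apply' _ (n + 1) u]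
    simp [phi, mul_assoc]

theorem td_law {r s : ℕ} (hr : 1 ≤ r) (hrs : r < s) (hlaw : Law r s G) (D L : Subgroup G)
    (k : G) (hDL : D ≤ L) (hn : Nz L D) (hk : cj k L = L) (u b : G)
    (hu : u ∈ cj k⁻¹ D ⊔ D) (hb : b ∈ cj k D ⊔ D) :
    ((phi b)^[r - 1] u)⁻¹ * (phi b)^[s - 1] u ∈ D := by
  have hk' : cj k⁻¹ L = L := by
    conv_lhs => rw [← hk]
    exact cj_inv_cj k L
  have hmemk : ∀ g ∈ L, k⁻¹ * g * k ∈ L := by
    intro g hg
    rw [← hk] at hg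
    exact mem_cj.1 hg
  have hmemk' : ∀ g ∈ L, k * g * k⁻¹ ∈ L := by
    intro g hg
    rw [← hk'] at hg
    simpa using mem_cj.1 hg
  have hA : Nz L (cj k D) := by
    intro g hg d hd
    rw [mem_cj] at hd ⊢
    have := hn _ (hmemk g hg) _ hd
    simpa [mul_assoc] using this
  have hB : Nz L (cj k⁻¹ D) := by
    intro g hg d hd
    rw [mem_cj] at hd ⊢
    have := hn _ (hmemk' g hg) _ (by simpa using hd)
    simpa [mul_assoc] using this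
  have hAL : cj k D ≤ L := by
    intro x hx
    have := hmemk' _ (hDL (mem_cj.1 hx))
    simpa [mul_assoc] using this
  have hBL : cj k⁻¹ D ≤ L := by
    intro x hx
    have := hmemk _ (hDL (mem_cj.1 hx))
    simpa [mul_assoc] using this
  have hNorm : (D.subgroupOf L).Normal := hn.subgroupOf_normal
  set π := QuotientGroup.mk' (D.subgroupOf L) with hπ
  have hπeq : ∀ (x y : G) (hx : x ∈ L) (hy : y ∈ L), π ⟨x, hx⟩ = π ⟨y, hy⟩ ↔ x⁻¹ * y ∈ D := by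
    intro x y hx hy
    rw [hπ]
    simp only [QuotientGroup.mk'_apply]
    rw [QuotientGroup.eq, mem_subgroupOf]
    simp
  -- the key identity
  have key : ∀ (u b : G) (huL : u ∈ L) (hbL : b ∈ L), u ∈ cj k⁻¹ D ⊔ D → b ∈ cj k D ⊔ D →
      (phi (π ⟨b, hbL⟩))^[r - 1] (π ⟨u, huL⟩ * π ⟨b, hbL⟩)
        = (phi (π ⟨b, hbL⟩))^[s - 1] (π ⟨u, huL⟩ * π ⟨b, hbL⟩) := by
    intro u b huL hbL hu hb
    rw [← SetLike.mem_coe, coe_mul_of_right_le_normalizer_left _ _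
      ((nz_iff.1 hA).trans' hDL)] at hb
    rw [← SetLike.mem_coe, coe_mul_of_right_le_normalizer_left _ _
      ((nz_iff.1 hB).trans' hDL)] at hu
    obtain ⟨b₁, hb₁, d, hd, hbd⟩ := hb
    obtain ⟨u₁, hu₁, d', hd', hud⟩ := hu
    simp only at hbd hud
    rw [SetLike.mem_coe] at hb₁ hd hu₁ hd'
    have hb₁L := hAL hb₁
    have hu₁L := hBL hu₁
    have hy₂ : k * u₁⁻¹ * k⁻¹ ∈ D := by
      have := inv_mem (mem_cj.1 hu₁)
      simpa [mul_assoc] using this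
    have hyL : b₁ * (k * u₁⁻¹ * k⁻¹) ∈ L := mul_mem hb₁L (hDL hy₂)
    have hc : k⁻¹ * b₁⁻¹ * k ∈ D := by
      have := inv_mem (mem_cj.1 hb₁)
      simpa [mul_assoc] using this
    have hv : phi (b₁ * (k * u₁⁻¹ * k⁻¹)) k
        = u₁ * (k⁻¹ * b₁⁻¹ * k) * (b₁ * (k * u₁⁻¹ * k⁻¹)) := by
      simp [phi, mul_assoc]
    have hvL : u₁ * (k⁻¹ * b₁⁻¹ * k) * (b₁ * (k * u₁⁻¹ * k⁻¹)) ∈ L :=
      mul_mem (mul_mem hu₁L (hDL hc)) hyL
    have e1 : π ⟨b₁ * (k * u₁⁻¹ * k⁻¹), hyL⟩ = π ⟨b, hbL⟩ := by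
      rw [hπeq, ← hbd]
      have : (b₁ * (k * u₁⁻¹ * k⁻¹))⁻¹ * (b₁ * d) = (k * u₁⁻¹ * k⁻¹)⁻¹ * d := by
        simp [mul_assoc]
      rw [this]
      exact mul_mem (inv_mem hy₂) hd
    have e2 : π ⟨u₁, hu₁L⟩ = π ⟨u, huL⟩ := by
      rw [hπeq, ← hud]
      simpa using hd'
    have e3 : π ⟨k⁻¹ * b₁⁻¹ * k, hDL hc⟩ = 1 := by
      rw [← map_one π]
      have := (hπeq (k⁻¹ * b₁⁻¹ * k) 1 (hDL hc) (one_mem L)).2 (by simpa using inv_mem hc)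
      exact this
    have e4 : π ⟨u₁ * (k⁻¹ * b₁⁻¹ * k) * (b₁ * (k * u₁⁻¹ * k⁻¹)), hvL⟩
        = π ⟨u, huL⟩ * π ⟨b, hbL⟩ := by
      have h1 : (⟨u₁ * (k⁻¹ * b₁⁻¹ * k) * (b₁ * (k * u₁⁻¹ * k⁻¹)), hvL⟩ : L)
          = ⟨u₁, hu₁L⟩ * ⟨k⁻¹ * b₁⁻¹ * k, hDL hc⟩ * ⟨b₁ * (k * u₁⁻¹ * k⁻¹), hyL⟩ := rfl
      rw [h1, map_mul, map_mul, e1, e2, e3, mul_one]
    have h0 := hlaw k (b₁ * (k * u₁⁻¹ * k⁻¹))
    obtain ⟨r', rfl⟩ : ∃ r', r = r' + 1 := ⟨r - 1, by omega⟩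
    obtain ⟨s', rfl⟩ : ∃ s', s = s' + 1 := ⟨s - 1, by omega⟩
    rw [Function.iterate_succ_apply, Function.iterate_succ_apply, hv] at h0
    simp only [Nat.add_sub_cancel]
    set yL : L := ⟨b₁ * (k * u₁⁻¹ * k⁻¹), hyL⟩ with hyLd
    set vL : L := ⟨u₁ * (k⁻¹ * b₁⁻¹ * k) * (b₁ * (k * u₁⁻¹ * k⁻¹)), hvL⟩ with hvLd
    have h1 : (phi yL)^[r'] vL = (phi yL)^[s'] vL := by
      apply Subtype.ext
      have ha := map_phi_iter L.subtype vL yL r'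
      have hb := map_phi_iter L.subtype vL yL s'
      simp only [Subgroup.subtype_apply] at ha hb
      rw [ha, hb]
      exact h0
    have h2 := congrArg π h1
    rw [map_phi_iter, map_phi_iter, e1, e4] at h2
    exact h2
  have hbL : b ∈ L := (sup_le hAL hDL) hb
  have huL : u ∈ L := (sup_le hBL hDL) hu
  have hgoal : (phi (π ⟨b, hbL⟩))^[r - 1] (π ⟨u, huL⟩)
      = (phi (π ⟨b, hbL⟩))^[s - 1] (π ⟨u, huL⟩) := by
    rcases Nat.lt_or_ge 1 r with h2 | h2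
    · have h3 := key u b huL hbL hu hb
      obtain ⟨r', rfl⟩ : ∃ r', r = r' + 2 := ⟨r - 2, by omega⟩
      obtain ⟨s', rfl⟩ : ∃ s', s = s' + 2 := ⟨s - 2, by omega⟩
      have e1 : r' + 2 - 1 = r' + 1 := rfl
      have e2 : s' + 2 - 1 = s' + 1 := rfl
      rw [e1, e2] at h3 ⊢
      rw [td_conj, td_conj] at h3
      simpa using h3
    · have hr1 : r = 1 := by omega
      have h3 := key u 1 huL (one_mem L) hu (one_mem _)
      have e1 : π ⟨1, one_mem L⟩ = 1 := map_one π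
      rw [e1, hr1, td_one (s - 1) (by omega)] at h3
      have h4 : π ⟨u, huL⟩ = 1 := by simpa using h3
      rw [h4, td_fix, td_fix]
  have hL1 : ∀ n, (phi b)^[n] u ∈ L := fun n => phi_iter_mem huL hbL n
  have hπn : ∀ n, π ⟨(phi b)^[n] u, hL1 n⟩ = (phi (π ⟨b, hbL⟩))^[n] (π ⟨u, huL⟩) := by
    intro n
    rw [← map_phi_iter]
    congr 1
    apply Subtype.ext
    have := map_phi_iter L.subtype (⟨u, huL⟩ : L) ⟨b, hbL⟩ n
    simp only [Subgroup.subtype_apply] at this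
    rw [this]
  rw [← hπn, ← hπn, hπeq] at hgoal
  exact hgoal

end Pool.Agent.Work.MP_b44cb1_al
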