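import Pool.Agent.Work.MP_b44cb1_al.Law
import Pool.Agent.Work.MP_b44cb1_al.ResQ
import Pool.Agent.Work.MP_b44cb1_al.TD

/-!
# TDH  (size S-M)  : property (TD) from the induction hypothesis

Given `D ≤ L`, `Nz L D`, `cj k L = L`, let `S = (cj k⁻¹ D ⊔ D) ⊓ (cj k D ⊔ D)`. Then `D ≤ S ≤ L`
(`cj k D ≤ cj k L = L`, and `cj k⁻¹ L = L`), so `(D.subgroupOf S).Normal`
(`(hn.mono _).subgroupOf_normal`, Kit). The group `Q = S ⧸ D.subgroupOf S` is finite, soluble
(instances / `solvable_quotient_of_solvable`, `subgroup_solvable_of_solvable`), satisfies `EA`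
(`ea_sub`, `ea_quot`) and `Law (r-1) (s-1)`: elements of `Q` are classes of `u, b ∈ S`, and
`td_law` gives `((phi b)^[r-1] u)⁻¹ * (phi b)^[s-1] u ∈ D`; translate with `map_phi_iter` and
`QuotientGroup.eq`. As `r - 1 < s - 1`, `St (r-1) h` gives `res^[h] (⊤ : Subgroup Q) = ⊥`, and
`resI_section` gives `res^[h] S ≤ D`.
-/

set_option autoImplicit false

namespace Pool.Agent.Work.MP_b44cb1_al

open Subgroup
open scoped commutatorElement

theorem tdp_of_st {r s h : ℕ} (hr : 1 ≤ r) (hrs : r < s) (hst : St (r - 1) h)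
    (G : Type) [Group G] [Finite G] (hs : Group.IsSolvable G) (hea : EA G) (hlaw : Law r s G) :
    TDp h G := by
  intro D L k hDL hn hk
  set S : Subgroup G := (cj k⁻¹ D ⊔ D) ⊓ (cj k D ⊔ D) with hS
  have hk' : cj k⁻¹ L = L := by
    conv_lhs => rw [← hk]
    exact cj_inv_cj k L
  have hDS : D ≤ S := le_inf le_sup_right le_sup_right
  have hSL : S ≤ L := by
    refine inf_le_right.trans (sup_le ?_ hDL)
    calc cj k D ≤ cj k L := cj_mono hDL
      _ = L := hk
  have hN : (D.subgroupOf S).Normal := (hn.mono hSL).subgroupOf_normal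
  refine resI_section D S hDS h ?_
  refine hst (S ⧸ D.subgroupOf S) ?_ (ea_quot (ea_sub hea S) _) ⟨s - 1, by omega, ?_⟩
  · have := hs
    infer_instance
  · intro x y
    obtain ⟨u, rfl⟩ := QuotientGroup.mk'_surjective (D.subgroupOf S) x
    obtain ⟨b, rfl⟩ := QuotientGroup.mk'_surjective (D.subgroupOf S) y
    rw [← map_phi_iter, ← map_phi_iter]
    simp only [QuotientGroup.mk'_apply]
    rw [QuotientGroup.eq, mem_subgroupOf]
    have h1 := td_law hr hrs hlaw D L k hDL hn hk u b u.2.1 b.2.2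
    have h2 : ∀ n, (((phi b)^[n] u : S) : G) = (phi (b : G))^[n] (u : G) := by
      intro n
      exact map_phi_iter S.subtype u b n
    push_cast
    rw [h2, h2]
    exact h1

end Pool.Agent.Work.MP_b44cb1_al
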