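import Pool.Agent.Work.MP_b44cb1_al.M13
import Pool.Agent.Work.MP_b44cb1_al.M14
import Pool.Agent.Work.MP_b44cb1_al.Gain
import Pool.Agent.Work.MP_b44cb1_al.GoodLe

/-!
# TowerBound  : an odd tower has at most `r (4h+11)` layers (assembly, helper65)
-/

set_option autoImplicit false

namespace Pool.Agent.Work.MP_b44cb1_al

open Subgroup
open scoped commutatorElement

variable {G : Type*} [Group G] {P : ℕ → Subgroup G} {p : ℕ → ℕ} {n : ℕ}

theorem tower_step [Finite G] (T : Tower P p n) (hodd : ∀ i < n, p i ≠ 2) {h : ℕ}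
    (HT : Tp h G) {i : ℕ} (hi : i + 4 * h + 10 < n) {k : ℕ} (hk : 1 ≤ k) {x y : G}
    (hx : x ∈ Gs P i) (hy : y ∈ Gs P i) (hG : Good k x y) :
    ∃ k', k < k' ∧ ∃ y' ∈ Gs P (i + (4 * h + 11)), Good k' x y' := by
  have hb1 : 1 ≤ i + 4 * h + 10 := by omega
  have hib : i ≤ i + 4 * h + 10 := by omega
  obtain ⟨U, hU, hst⟩ := m13 T hodd HT hi (le_refl (i + 4 * h + 10))
  have hcop := T.cop _ hi
  have hpy : ¬ p (i + 4 * h + 10) ∣ orderOf y := by
    intro hdvd
    apply hcop
    have h1 : orderOf y ∣ Nat.card (Gs P i) := by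
      have := orderOf_dvd_natCard (⟨y, hy⟩ : Gs P i)
      rwa [Subgroup.orderOf_mk] at this
    exact (hdvd.trans h1).trans (Subgroup.card_dvd_of_le (gs_mono P hib))
  obtain ⟨k', hk', w, hw, -, hG'⟩ := gain (X := Gs P i) (V := P (i + 4 * h + 10))
    (T.prime _ hi) (T.gs_nz hib hi)
    (by
      have := T.inf_bot hi
      rw [eq_bot_iff] at this ⊢
      exact (inf_le_inf_right _ (gs_mono P hib)).trans this)
    (T.comm _ hi) (T.expo _ hi) hx hy hpy hk hG
    (fun g hg hgy => m14a T hb1 hi hib hU hst hy hg hgy)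
    (m14b T hb1 hi hib hU hst)
  refine ⟨k', hk', y * w, ?_, hG'⟩
  have e : i + (4 * h + 11) = (i + 4 * h + 10) + 1 := by ring
  rw [e]
  exact mul_mem (gs_mono P (by omega) hy) (le_gs P (Nat.lt_succ_self _) hw)

theorem tower_bound [Finite G] (T : Tower P p n) (hodd : ∀ i < n, p i ≠ 2) {h : ℕ}
    (HT : Tp h G) {r s : ℕ} (hrs : r < s) (hlaw : Law r s G) : n ≤ r * (4 * h + 11) := by
  by_contra hn
  push_neg at hn
  have h0 : 0 < n := lt_of_le_of_lt (Nat.zero_le _) hn
  obtain ⟨x, hx, hx1⟩ : ∃ x ∈ P 0, x ≠ 1 := by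
    by_contra hcon
    push_neg at hcon
    exact T.nontriv 0 h0 ((Subgroup.eq_bot_iff_forall _).2 hcon)
  have key : ∀ j ≤ r, ∃ k, j + 1 ≤ k ∧ ∃ y ∈ Gs P (1 + j * (4 * h + 11)), Good k x y := by
    intro j
    induction j with
    | zero =>
      intro _
      exact ⟨1, le_refl _, 1, one_mem _, good_start hx1⟩
    | succ j ih =>
      intro hj
      obtain ⟨k, hk, y, hy, hG⟩ := ih (by omega)
      have hlt : 1 + j * (4 * h + 11) + 4 * h + 10 < n := by
        have : (j + 1) * (4 * h + 11) ≤ r * (4 * h + 11) := Nat.mul_le_mul_right _ hj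
        have e : (j + 1) * (4 * h + 11) = j * (4 * h + 11) + (4 * h + 11) := by ring
        omega
      obtain ⟨k', hk', y', hy', hG'⟩ := tower_step T hodd HT hlt (by omega)
        (le_gs P (by omega) hx) hy hG
      refine ⟨k', by omega, y', ?_, hG'⟩
      have e : 1 + (j + 1) * (4 * h + 11) = 1 + j * (4 * h + 11) + (4 * h + 11) := by ring
      rwa [e]
  obtain ⟨k, hk, y, -, hG⟩ := key r (le_refl _)
  have := good_le hrs hlaw hG
  omega

end Pool.Agent.Work.MP_b44cb1_al
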