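import Pool.Agent.Work.MP_b44cb1_al.Ext
import Pool.Agent.Work.MP_b44cb1_al.NNOdd
import Pool.Agent.Work.MP_b44cb1_al.TowerBound
import Pool.Agent.Work.MP_b44cb1_al.TDH
import Pool.Agent.Work.MP_b44cb1_al.TMain

/-!
# Main : the induction on `r` (assembly, helper65)
-/

set_option autoImplicit false

namespace Pool.Agent.Work.MP_b44cb1_al

open Subgroup
open scoped commutatorElement

theorem st_zero : St 0 0 := by
  intro G _ _ _ _ ⟨s, hs, hlaw⟩
  have h1 : ∀ x : G, x = 1 := by
    intro x
    have := hlaw x 1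
    obtain ⟨t, rfl⟩ : ∃ t, s = t + 1 := ⟨s - 1, by omega⟩
    rw [Function.iterate_succ_apply] at this
    have e : phi 1 x = 1 := by simp [phi]
    have e2 : ∀ t, (phi (1 : G))^[t] 1 = 1 := by
      intro t
      induction t with
      | zero => rfl
      | succ t ih => rw [Function.iterate_succ_apply]; simpa [phi] using ih
    rw [e, e2] at this
    simpa using this
  simp only [Function.iterate_zero, id]
  rw [Subgroup.eq_bot_iff_forall]
  intro x _
  exact h1 x

theorem st_step {r h : ℕ} (hr : 1 ≤ r) (hst : St (r - 1) h) :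
    St r (2 * (r * (4 * h + 11)) + 1) := by
  intro G _ _ hs hea ⟨s, hrs, hlaw⟩
  set f := r * (4 * h + 11) with hf
  by_contra hne
  haveI := hs
  have hTp : Tp h G := tp_of_tdp (tdp_of_st hr hrs hst G hs hea hlaw)
  obtain ⟨P, p, T, -⟩ := ext (2 * f + 1) G hs hea ⊥ inferInstance
    (fun hle => hne (le_bot_iff.1 hle))
  by_cases hodd : ∀ i < f + 1, p i ≠ 2
  · have := tower_bound (T.trunc (m := f + 1) (by omega)) hodd hTp hrs hlaw
    omega
  · push_neg at hodd
    obtain ⟨j, hj, hpj⟩ := hodd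
    -- the odd part below layer `j`
    set M : Subgroup G := NN P (j + 1) (2 * f + 2) with hM
    have hMle : ∀ i, j + 1 ≤ i → i < 2 * f + 2 → P i ≤ M := fun i h1 h2 => le_nn P h1 h2
    have hchain := resI_chain (2 * f - j) (fun l => P (j + 1 + l)) M
      (fun l hl => hMle _ (by omega) (by omega))
      (fun l hl => by
        have := T.comm_eq (i := j + 1 + l) (by omega)
        have e : j + 1 + (l + 1) = j + 1 + l + 1 := by ring
        simp only [e]
        rw [this])
    have hMres : res^[2 * f - j] M ≠ ⊥ := by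
      intro hbot
      rw [hbot, le_bot_iff] at hchain
      exact T.nontriv (j + 1 + (2 * f - j)) (by omega) hchain
    have hMres' : ¬ res^[2 * f - j] (⊤ : Subgroup M) ≤ ⊥ := by
      intro hle
      apply hMres
      rw [← resI_sub M, le_bot_iff.1 hle, Subgroup.map_bot]
    have hsM : Group.IsSolvable M := inferInstance
    have heaM := ea_sub hea M
    have hlawM := law_sub hlaw M
    obtain ⟨P', p', T', -⟩ := ext (2 * f - j) M hsM heaM ⊥ inferInstance hMres'
    have hMcard : ¬ 2 ∣ Nat.card M := by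
      apply nn_card_odd T (j + 1) (2 * f + 2) (by omega)
      intro i h1 h2 h3
      exact T.p_ne (i := i) (j := j) (by omega) h2 (by rw [hpj, h3])
    have hodd' : ∀ i < 2 * f - j + 1, p' i ≠ 2 := by
      intro i hi h2
      obtain ⟨k, hk, hc⟩ := T'.exists_card hi
      apply hMcard
      have h3 : Nat.card (P' i) ∣ Nat.card M := Subgroup.card_subgroup_dvd_card _
      rw [hc, h2] at h3
      exact (dvd_pow_self 2 (by omega)).trans h3
    have hTpM : Tp h M := tp_of_tdp (tdp_of_st hr hrs hst M hsM heaM hlawM)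
    have := tower_bound T' hodd' hTpM hrs hlawM
    omega

/-- The recursive bound for the Fitting height. -/
def hh : ℕ → ℕ
  | 0 => 0
  | (r + 1) => 2 * ((r + 1) * (4 * hh r + 11)) + 1

theorem st_all (r : ℕ) : St r (hh r) := by
  induction r with
  | zero => exact st_zero
  | succ r ih => exact st_step (r := r + 1) (by omega) ih

/-- Main theorem, in the form of the frozen statement. -/
theorem main_ea : ∀ r : ℕ, 1 ≤ r → ∀ (G : Type) [Group G] [Finite G], Group.IsSolvable G → EA G →
      (∃ s : ℕ, r < s ∧ ∀ x y : G,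
        (fun z : G => z⁻¹ * y⁻¹ * z * y)^[r] x = (fun z : G => z⁻¹ * y⁻¹ * z * y)^[s] x) →
      ∃ n : ℕ, n < hh r + 1 ∧ ∃ H : ℕ → Subgroup G, H 0 = ⊥ ∧ H n = ⊤ ∧
        ∀ i : ℕ, i < n → (H i).Normal ∧ H i ≤ H (i + 1) ∧
          ∃ c : ℕ, (fun K : Subgroup G => ⁅K, H (i + 1)⁆)^[c] (H (i + 1)) ≤ H i := by
  intro r hr G _ _ hs hea hlaw
  refine ⟨hh r, Nat.lt_succ_self _, ?_⟩
  exact series_of_resI _ (st_all r G hs hea hlaw)

end Pool.Agent.Work.MP_b44cb1_al
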