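import Pool.Agent.Work.MP_b44cb1_al.TowerBasic

/-!
# OmA  (size M)  : hyperplanes of `P (b-1)` with nontrivial centraliser in `P b`

Here `1 ≤ b < n`; write `q = p (b-1)`, `A = P (b-1)`, `V = P b` (the primes `q` and `p b` differ).
* `om_cent`: the set `C` of `v ∈ V` commuting with `A` is a subgroup, `C ≤ V`, normalised by
  `Gs P b` (`Gs P b = Gs P (b-1+1)` normalises `A` by `gs_nz_self`, and `V`). By irreducibility
  `C = ⊥` or `C = V`; if `C = V` then every `a ∈ A ≤ Gs P b` centralises `V`, so `a = 1`,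
  contradicting `A ≠ ⊥`.
* `om_cj`: conjugation by `g ∈ Gs P b` preserves `A` and `V` (`cj g A = A`), orders (`card_cj`) and
  commutation.
* `om_max`: if `U, U'` are distinct subgroups of `A` with `|A| = q |U| = q |U'|` and `v ∈ V`
  commutes with `U` and `U'` then `v = 1`: `U ⊔ U' = A` because `U < U ⊔ U' ≤ A` and the index
  of `U` in `A` is the prime `q`; then `om_cent`.
* `om_nonempty`: choose `U ≤ A` of maximal order such that some `v ∈ V`, `v ≠ 1`, commutes with `U`
  (`⊥` is such a subgroup as `V ≠ ⊥`). Fix such a `w = v`. `U ≠ A` by `om_cent`; pick `b₀ ∈ A`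
  outside `U`. If `|A| ≠ q |U|` then (as `⟨U, b₀⟩` has order `q |U|`, because `b₀^q = 1` and
  `A` is commutative) there is `a ∈ A` outside `⟨U, b₀⟩`. For `x ∈ A` let
  `N_x = ∏_{i<q} x^i w x^(-i)` (product in the commutative group `V`). It commutes with `U` (as `A`
  is commutative) and with `x` (`x^q = 1`). If `x ∉ U` then by maximality of `|U|` applied to
  `⟨U, x⟩`: `N_x = 1`. This applies to `x = b₀` and to `x = a b₀^j`, `0 ≤ j < q` (not in `U`, since
  `a ∉ ⟨U, b₀⟩`). Now `1 = ∏_{j<q} N_{a b₀^j} = ∏_{i<q} ∏_{j<q} a^i b₀^(ij) w (…)⁻¹`; the factor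
  `i = 0` is `w^q`; for `1 ≤ i < q`, `j ↦ i j mod q` is a bijection of `{0..q-1}`, so the factor is
  `a^i N_{b₀} a^(-i) = 1`. Hence `w^q = 1`; but `w` has order `p b ≠ q`: contradiction with
  `w ≠ 1`.
-/

set_option autoImplicit false

namespace Pool.Agent.Work.MP_b44cb1_al

open Subgroup
open scoped commutatorElement

variable {G : Type*} [Group G] {P : ℕ → Subgroup G} {p : ℕ → ℕ} {n : ℕ}

private theorem oma_nz (T : Tower P p n) {b : ℕ} (hb : 1 ≤ b) (hbn : b < n) :
    Nz (Gs P b) (P (b - 1)) := by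
  obtain ⟨c, rfl⟩ : ∃ c, b = c + 1 := ⟨b - 1, by omega⟩
  exact T.gs_nz_self (i := c) (by omega)

theorem om_cent [Finite G] (T : Tower P p n) {b : ℕ} (hb : 1 ≤ b) (hbn : b < n) {v : G}
    (hv : v ∈ P b) (hc : ∀ a ∈ P (b - 1), a * v = v * a) : v = 1 := by
  let C : Subgroup G :=
    { carrier := {v | v ∈ P b ∧ ∀ a ∈ P (b - 1), a * v = v * a}
      one_mem' := ⟨one_mem _, by simp⟩
      mul_mem' := by
        rintro x y ⟨hx, hx'⟩ ⟨hy, hy'⟩
        refine ⟨mul_mem hx hy, fun a ha => ?_⟩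
        rw [← mul_assoc, hx' a ha, mul_assoc, hy' a ha, mul_assoc]
      inv_mem' := by
        rintro x ⟨hx, hx'⟩
        refine ⟨inv_mem hx, fun a ha => ?_⟩
        have := hx' a ha
        rw [eq_inv_mul_iff_mul_eq, ← mul_assoc, ← this, mul_assoc, mul_inv_cancel, mul_one] }
  have hCmem : ∀ x, x ∈ C ↔ x ∈ P b ∧ ∀ a ∈ P (b - 1), a * x = x * a := fun x => Iff.rfl
  have hCle : C ≤ P b := fun x hx => hx.1
  have hnA := oma_nz T hb hbn
  have hCn : Nz (Gs P b) C := by
    intro g hg d hd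
    rw [hCmem] at hd ⊢
    refine ⟨T.norm b hbn g hg d hd.1, fun a ha => ?_⟩
    have h1 : g⁻¹ * a * g ∈ P (b - 1) := by
      have := hnA g⁻¹ (inv_mem hg) a ha
      simpa using this
    have h2 := hd.2 _ h1
    calc a * (g * d * g⁻¹) = g * ((g⁻¹ * a * g) * d) * g⁻¹ := by simp [mul_assoc]
      _ = g * d * g⁻¹ * a := by rw [h2]; simp [mul_assoc]
  rcases T.irr b hbn C hCle hCn with h | h
  · have : v ∈ C := (hCmem v).2 ⟨hv, hc⟩
    rwa [h, Subgroup.mem_bot] at this
  · exfalso
    apply T.nontriv (b - 1) (by omega)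
    rw [Subgroup.eq_bot_iff_forall]
    intro a ha
    refine T.faith b hbn a (le_gs P (by omega) ha) fun w hw => ?_
    rw [← h] at hw
    exact hw.2 a ha

theorem om_cj [Finite G] (T : Tower P p n) {b : ℕ} (hb : 1 ≤ b) (hbn : b < n)
    {U : Subgroup G} (hU : U ∈ Om P p b) {g : G} (hg : g ∈ Gs P b) : cj g U ∈ Om P p b := by
  obtain ⟨h1, h2, v, hv, hv1, hvU⟩ := hU
  have e := cj_eq_of_mem (oma_nz T hb hbn) hg
  refine ⟨?_, ?_, g * v * g⁻¹, T.norm b hbn g hg v hv, ?_, ?_⟩
  · rw [← e]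
    exact cj_mono h1
  · rw [card_cj]
    exact h2
  · intro h
    apply hv1
    have : v = g⁻¹ * (g * v * g⁻¹) * g := by simp [mul_assoc]
    rw [this, h]
    simp
  · intro t ht
    rw [mem_cj] at ht
    have h3 := hvU _ ht
    calc t * (g * v * g⁻¹) = g * ((g⁻¹ * t * g) * v) * g⁻¹ := by simp [mul_assoc]
      _ = g * v * g⁻¹ * t := by rw [h3]; simp [mul_assoc]

theorem om_max [Finite G] (T : Tower P p n) {b : ℕ} (hb : 1 ≤ b) (hbn : b < n)
    {U U' : Subgroup G} (hU : U ∈ Om P p b) (hU' : U' ∈ Om P p b) (hne : U ≠ U') {v : G}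
    (hv : v ∈ P b) (hc : ∀ a ∈ U, a * v = v * a) (hc' : ∀ a ∈ U', a * v = v * a) : v = 1 := by
  have hq := T.prime (b - 1) (by omega)
  have hA : U ⊔ U' = P (b - 1) := by
    have hle : U ⊔ U' ≤ P (b - 1) := sup_le hU.1 hU'.1
    obtain ⟨m, hm⟩ := Subgroup.card_dvd_of_le (le_sup_left : U ≤ U ⊔ U')
    have hUpos : 0 < Nat.card U := Nat.card_pos
    have hm1 : m ≠ 1 := by
      rintro rfl
      have h1 : U = U ⊔ U' := Subgroup.eq_of_le_of_card_ge le_sup_left (by omega)
      have h2 : U' ≤ U := by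
        rw [h1]
        exact le_sup_right
      have h3 : U' = U := by
        refine Subgroup.eq_of_le_of_card_ge h2 ?_
        have h4 := hU.2.1
        have h5 := hU'.2.1
        rw [h4] at h5
        exact (Nat.eq_of_mul_eq_mul_left hq.pos h5).le
      exact hne h3.symm
    have hmq : m ∣ p (b - 1) := by
      have h1 := Subgroup.card_dvd_of_le hle
      rw [hm, hU.2.1, mul_comm (p (b - 1))] at h1
      exact Nat.dvd_of_mul_dvd_mul_left hUpos h1
    rcases (Nat.dvd_prime hq).1 hmq with h1 | h1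
    · exact absurd h1 hm1
    · refine Subgroup.eq_of_le_of_card_ge hle ?_
      rw [hm, h1, hU.2.1, mul_comm]
  refine om_cent T hb hbn hv ?_
  have h1 : U ⊔ U' ≤ Subgroup.centralizer {v} := by
    refine sup_le ?_ ?_
    · intro a ha
      rw [Subgroup.mem_centralizer_singleton_iff]
      exact hc a ha
    · intro a ha
      rw [Subgroup.mem_centralizer_singleton_iff]
      exact hc' a ha
  intro a ha
  rw [← hA] at ha
  exact Subgroup.mem_centralizer_singleton_iff.1 (h1 ha)

section Norm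

variable {V K : Subgroup G}

private abbrev oaComm (hV : Cz V V) : CommGroup V :=
  { (inferInstance : Group V) with
    mul_comm := fun a b => Subtype.ext (hV a a.2 b b.2) }

private def oaAct (hn : Nz K V) (g : K) : V →* V :=
  { toFun := fun v => ⟨(g : G) * v * (g : G)⁻¹, hn g g.2 v v.2⟩
    map_one' := Subtype.ext (by simp)
    map_mul' := fun a b => Subtype.ext (by simp [mul_assoc]) }

private theorem oaAct_coe (hn : Nz K V) (g : K) (v : V) :
    ((oaAct hn g v : V) : G) = (g : G) * v * (g : G)⁻¹ := rfl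

private theorem oaAct_mul (hn : Nz K V) (g g' : K) (v : V) :
    oaAct hn (g * g') v = oaAct hn g (oaAct hn g' v) :=
  Subtype.ext (by simp [oaAct_coe, mul_assoc])

private theorem oaAct_one (hn : Nz K V) (v : V) : oaAct hn 1 v = v :=
  Subtype.ext (by simp [oaAct_coe])

private theorem oaAct_fix (hn : Nz K V) (g : K) (v : V) :
    oaAct hn g v = v ↔ (g : G) * v = v * g := by
  constructor
  · intro h
    have := congrArg (fun x : V => (x : G)) h
    simp only [oaAct_coe] at this
    exact mul_inv_eq_iff_eq_mul.1 this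
  · intro h
    apply Subtype.ext
    rw [oaAct_coe, h]
    simp

private theorem oaNm_fix (hV : Cz V V) (hn : Nz K V) (q : ℕ) (x : K) (hx : x ^ q = 1) (w : V) :
    letI := oaComm hV
    oaAct hn x (∏ i ∈ Finset.range q, oaAct hn (x ^ i) w)
      = ∏ i ∈ Finset.range q, oaAct hn (x ^ i) w := by
  let _ := oaComm hV
  simp only [map_prod, ← oaAct_mul, ← pow_succ']
  have h1 := Finset.prod_range_succ (fun i => oaAct hn (x ^ i) w) q
  have h2 := Finset.prod_range_succ' (fun i => oaAct hn (x ^ i) w) q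
  rw [h1, hx, pow_zero] at h2
  exact (mul_right_cancel h2).symm

private theorem oaNm_comm (hV : Cz V V) (hn : Nz K V) (q : ℕ) (x u : K)
    (hux : u * x = x * u) (w : V) (hu : oaAct hn u w = w) :
    letI := oaComm hV
    oaAct hn u (∏ i ∈ Finset.range q, oaAct hn (x ^ i) w)
      = ∏ i ∈ Finset.range q, oaAct hn (x ^ i) w := by
  let _ := oaComm hV
  simp only [map_prod]
  refine Finset.prod_congr rfl fun i _ => ?_
  have e : u * x ^ i = x ^ i * u := (Commute.pow_right hux i)
  rw [← oaAct_mul, e, oaAct_mul, hu]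

end Norm

theorem om_nonempty [Finite G] (T : Tower P p n) {b : ℕ} (hb : 1 ≤ b) (hbn : b < n) :
    (Om P p b).Nonempty := by
  classical
  have hq := T.prime (b - 1) (by omega)
  have hV : Cz (P b) (P b) := T.comm b hbn
  have hn : Nz (Gs P b) (P b) := T.norm b hbn
  have hA : Cz (P (b - 1)) (P (b - 1)) := T.comm (b - 1) (by omega)
  have hAK : P (b - 1) ≤ Gs P b := le_gs P (by omega)
  have hAq : ∀ a ∈ P (b - 1), a ^ p (b - 1) = 1 := T.expo (b - 1) (by omega)
  -- a maximal subgroup with nontrivial centraliser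
  obtain ⟨U, ⟨hUA, w, hw, hw1, hwU⟩, hmax⟩ := Set.exists_max_image
    {U : Subgroup G | U ≤ P (b - 1) ∧ ∃ v ∈ P b, v ≠ 1 ∧ ∀ u ∈ U, u * v = v * u}
    (fun U => Nat.card U) (Set.toFinite _) (by
      obtain ⟨v, hv1⟩ := Subgroup.ne_bot_iff_exists_ne_one.1 (T.nontriv b hbn)
      · refine ⟨⊥, bot_le, v, Subtype.mem _, ?_, ?_⟩
        · intro h
          exact hv1 (Subtype.ext h)
        · intro u hu
          rw [Subgroup.mem_bot] at hu
          simp [hu])
  have hnot : ∀ x ∈ P (b - 1), x ∉ U → ∀ v ∈ P b, (∀ u ∈ U, u * v = v * u) →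
      x * v = v * x → v = 1 := by
    intro x hx hxU v hv hvU hxv
    by_contra hv1
    have h1 : U ⊔ zpowers x ≤ Subgroup.centralizer {v} := by
      refine sup_le ?_ ?_
      · intro a ha
        rw [Subgroup.mem_centralizer_singleton_iff]
        exact hvU a ha
      · rw [Subgroup.zpowers_le, Subgroup.mem_centralizer_singleton_iff]
        exact hxv
    have h2 := hmax (U ⊔ zpowers x) ⟨sup_le hUA (by rwa [Subgroup.zpowers_le]), v, hv, hv1,
      fun u hu => Subgroup.mem_centralizer_singleton_iff.1 (h1 hu)⟩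
    have h3 : U = U ⊔ zpowers x := Subgroup.eq_of_le_of_card_ge le_sup_left h2
    apply hxU
    rw [h3]
    exact mem_sup_right (Subgroup.mem_zpowers x)
  -- `U` is proper
  have hUne : ∃ b₀ ∈ P (b - 1), b₀ ∉ U := by
    by_contra hcon
    push Not at hcon
    exact hw1 (om_cent T hb hbn hw fun a ha => hwU a (hcon a ha))
  obtain ⟨b₀, hb₀, hb₀U⟩ := hUne
  have hb₀pow : ∀ i, 1 ≤ i → i < p (b - 1) → b₀ ^ i ∉ U := by
    intro i hi1 hi2 hmem
    apply hb₀U
    have hcop : Nat.Coprime i (p (b - 1)) :=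
      (Nat.coprime_of_lt_prime (by omega) hi2 hq).symm
    obtain ⟨m, hm⟩ := Nat.exists_mul_mod_eq_one_of_coprime hcop hq.one_lt
    have h1 : b₀ = (b₀ ^ i) ^ m := by
      rw [← pow_mul, ← Nat.div_add_mod (i * m) (p (b - 1)), hm.2, pow_add, pow_mul, hAq b₀ hb₀]
      simp
    rw [h1]
    exact pow_mem hmem m
  have hgen : ∀ a ∈ P (b - 1), a ∈ U ⊔ zpowers b₀ := by
    intro a ha
    by_contra haU
    have hab : ∀ j : ℕ, a * b₀ ^ j ∉ U := by
      intro j hmem
      apply haU
      have : a = (a * b₀ ^ j) * (b₀ ^ j)⁻¹ := by simp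
      rw [this]
      exact mul_mem (mem_sup_left hmem)
        (mem_sup_right (inv_mem (pow_mem (Subgroup.mem_zpowers b₀) j)))
    let _ := oaComm hV
    let aK : Gs P b := ⟨a, hAK ha⟩
    let bK : Gs P b := ⟨b₀, hAK hb₀⟩
    let wV : P b := ⟨w, hw⟩
    have hNx : ∀ x : Gs P b, (x : G) ∈ P (b - 1) → (x : G) ∉ U →
        ∏ i ∈ Finset.range (p (b - 1)), oaAct hn (x ^ i) wV = 1 := by
      intro x hx hxU
      apply Subtype.ext
      refine hnot x hx hxU _ (Subtype.mem _) ?_ ?_
      · intro u hu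
        have h1 := oaNm_comm hV hn (p (b - 1)) x ⟨u, hAK (hUA hu)⟩
          (Subtype.ext (hA u (hUA hu) x hx)) wV
          ((oaAct_fix hn ⟨u, hAK (hUA hu)⟩ wV).2 (hwU u hu))
        exact (oaAct_fix hn ⟨u, hAK (hUA hu)⟩ _).1 h1
      · have h1 := oaNm_fix hV hn (p (b - 1)) x
          (Subtype.ext (by push_cast; exact hAq x hx)) wV
        exact (oaAct_fix hn x _).1 h1
    have hcomm : Commute aK bK := Subtype.ext (hA a ha b₀ hb₀)
    have hprod : ∏ j ∈ Finset.range (p (b - 1)), ∏ i ∈ Finset.range (p (b - 1)),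
        oaAct hn ((aK * bK ^ j) ^ i) wV = 1 := by
      refine Finset.prod_eq_one fun j _ => ?_
      refine hNx _ ?_ ?_
      · push_cast
        exact mul_mem ha (pow_mem hb₀ j)
      · push_cast
        exact hab j
    rw [Finset.prod_comm] at hprod
    have hin : ∀ i ∈ Finset.range (p (b - 1)), i ≠ 0 →
        ∏ j ∈ Finset.range (p (b - 1)), oaAct hn ((aK * bK ^ j) ^ i) wV = 1 := by
      intro i hi hi0
      have h1 : ∀ j ∈ Finset.range (p (b - 1)), oaAct hn ((aK * bK ^ j) ^ i) wV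
          = oaAct hn (aK ^ i) (oaAct hn ((bK ^ i) ^ j) wV) := by
        intro j _
        rw [← oaAct_mul]
        congr 2
        rw [(hcomm.pow_right j).mul_pow, ← pow_mul, ← pow_mul, mul_comm i j]
      rw [Finset.prod_congr rfl h1, ← map_prod]
      have h2 := hNx (bK ^ i) (by push_cast; exact pow_mem hb₀ i)
        (by push_cast; exact hb₀pow i (Nat.one_le_iff_ne_zero.2 hi0) (Finset.mem_range.1 hi))
      rw [h2, map_one]
    rw [Finset.prod_eq_single 0 hin (fun h => absurd (Finset.mem_range.2 hq.pos) h)] at hprod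
    have h3 : wV ^ p (b - 1) = 1 := by
      simpa [oaAct_one] using hprod
    have h4 : w ^ p (b - 1) = 1 := by
      have := congrArg (fun x : P b => (x : G)) h3
      simpa using this
    have h5 : w ^ p b = 1 := T.expo b hbn w hw
    have hne : p (b - 1) ≠ p b := T.p_ne (by omega) hbn
    have h6 : orderOf w ∣ 1 := by
      have := Nat.dvd_gcd (orderOf_dvd_of_pow_eq_one h4) (orderOf_dvd_of_pow_eq_one h5)
      rwa [(Nat.coprime_primes hq (T.prime b hbn)).2 hne] at this
    exact hw1 (orderOf_eq_one_iff.1 (Nat.dvd_one.1 h6))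
  refine ⟨U, hUA, ?_, w, hw, hw1, hwU⟩
  -- cardinality
  obtain ⟨k, hk1, hk⟩ := T.exists_card (i := b - 1) (by omega)
  obtain ⟨m, hm⟩ := Subgroup.card_dvd_of_le hUA
  have hm1 : m ≠ 1 := by
    rintro rfl
    have : U = P (b - 1) := Subgroup.eq_of_le_of_card_ge hUA (by omega)
    exact hb₀U (this ▸ hb₀)
  have hmd : m ∣ p (b - 1) ^ k := by
    rw [← hk, hm]
    exact dvd_mul_left _ _
  obtain ⟨j, -, rfl⟩ := (Nat.dvd_prime_pow hq).1 hmd
  have hj : j ≠ 0 := by
    rintro rfl
    exact hm1 (pow_zero _)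
  have hge : p (b - 1) ≤ p (b - 1) ^ j := Nat.le_self_pow hj _
  have hle : Nat.card (P (b - 1)) ≤ Nat.card U * p (b - 1) := by
    have hsurj : Function.Surjective (fun x : U × Fin (p (b - 1)) =>
        (⟨(x.1 : G) * b₀ ^ (x.2 : ℕ), mul_mem (hUA x.1.2) (pow_mem hb₀ _)⟩ : P (b - 1))) := by
      rintro ⟨a, ha⟩
      have h1 := hgen a ha
      have hN : zpowers b₀ ≤ normalizer (U : Set G) := by
        rw [← nz_iff]
        intro g hg d hd
        have hgA : g ∈ P (b - 1) := by
          have : zpowers b₀ ≤ P (b - 1) := by rwa [Subgroup.zpowers_le]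
          exact this hg
        rw [hA g hgA d (hUA hd)]
        simpa using hd
      rw [← SetLike.mem_coe, coe_mul_of_right_le_normalizer_left _ _ hN] at h1
      obtain ⟨u, hu, z, hz, huz⟩ := h1
      rw [SetLike.mem_coe, ← mem_powers_iff_mem_zpowers] at hz
      obtain ⟨t, rfl⟩ := hz
      refine ⟨⟨⟨u, hu⟩, ⟨t % p (b - 1), Nat.mod_lt _ hq.pos⟩⟩, ?_⟩
      apply Subtype.ext
      simp only at huz ⊢
      rw [← huz]
      congr 1
      conv_rhs => rw [← Nat.div_add_mod t (p (b - 1)), pow_add, pow_mul, hAq b₀ hb₀]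
      simp
    have := Nat.card_le_card_of_surjective _ hsurj
    rwa [Nat.card_prod, Nat.card_fin] at this
  have hUpos : 0 < Nat.card U := Nat.card_pos
  rw [hm] at hle
  have h7 := Nat.le_of_mul_le_mul_left hle hUpos
  have h8 : p (b - 1) ^ j = p (b - 1) := le_antisymm h7 hge
  rw [hm, h8, mul_comm]

end Pool.Agent.Work.MP_b44cb1_al
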