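import Pool.Agent.Work.MP_b44cb1_al.ResA

/-!
# ResB  (size M)  : the nilpotent residual of a product (Fitting's theorem)
-/

set_option autoImplicit false

namespace Pool.Agent.Work.MP_b44cb1_al

open Subgroup
open scoped commutatorElement

variable {G : Type*} [Group G]

private theorem rb_nz_sup {A B D : Subgroup G} (hA : Nz A D) (hB : Nz B D) : Nz (A ⊔ B) D := by
  rw [nz_iff] at *
  exact sup_le hA hB

private theorem rb_nz_lcs {L K : Subgroup G} (h : Nz L K) (n : ℕ) : Nz L (lcs K n) := by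
  induction n with
  | zero => exact h
  | succ n ih => rw [lcs_succ]; exact nz_comm ih h

/-- `rbA J A 0 = J`, `rbA J A (i+1) = lcs A i`. -/
private def rbA (J A : Subgroup G) : ℕ → Subgroup G
  | 0 => J
  | (i + 1) => lcs A i

private theorem rbA_le {J A : Subgroup G} (hAJ : A ≤ J) (i : ℕ) : rbA J A i ≤ J := by
  cases i with
  | zero => exact le_rfl
  | succ i => exact (lcs_le A i).trans hAJ

private theorem rbA_nz {J A : Subgroup G} (hA : Nz J A) (i : ℕ) : Nz J (rbA J A i) := by
  cases i with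
  | zero => exact nz_self J
  | succ i => exact rb_nz_lcs hA i

private theorem rbA_comm {J A : Subgroup G} (hA : Nz J A) (i : ℕ) :
    ⁅rbA J A i, A⁆ ≤ rbA J A (i + 1) := by
  cases i with
  | zero => exact comm_le_right hA
  | succ i =>
    show ⁅lcs A i, A⁆ ≤ lcs A (i + 1)
    rw [lcs_succ]

theorem res_sup_le [Finite G] (A B : Subgroup G) (hA : Nz A B) (hB : Nz B A) :
    res (A ⊔ B) ≤ res A ⊔ res B := by
  set J := A ⊔ B with hJ
  have hAJ : A ≤ J := le_sup_left
  have hBJ : B ≤ J := le_sup_right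
  have nA : Nz J A := rb_nz_sup (nz_self A) hB
  have nB : Nz J B := rb_nz_sup hA (nz_self B)
  let T : ℕ × ℕ → Subgroup G := fun q => rbA J A q.1 ⊓ rbA J B q.2
  have hTJ : ∀ q, T q ≤ J := fun q => inf_le_left.trans (rbA_le hAJ _)
  have hTn : ∀ q, Nz J (T q) := fun q => (rbA_nz nA _).inf (rbA_nz nB _)
  have key : ∀ m, lcs J m ≤ ⨆ q ∈ Finset.HasAntidiagonal.antidiagonal (m + 1), T q := by
    intro m
    induction m with
    | zero =>
      rw [lcs_zero, hJ]
      refine sup_le ?_ ?_
      · refine le_trans ?_ (le_iSup₂ (f := fun q (_ : q ∈ Finset.HasAntidiagonal.antidiagonal (0 + 1)) => T q)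
          (1, 0) (by simp))
        exact le_inf (by show A ≤ lcs A 0; exact le_rfl) hAJ
      · refine le_trans ?_ (le_iSup₂ (f := fun q (_ : q ∈ Finset.HasAntidiagonal.antidiagonal (0 + 1)) => T q)
          (0, 1) (by simp))
        exact le_inf hBJ (by show B ≤ lcs B 0; exact le_rfl)
    | succ m ih =>
      rw [lcs_succ]
      refine (commutator_mono ih le_rfl).trans ?_
      refine (comm_biSup_left _ T J J (fun q _ => hTJ q) (fun q _ => hTn q) le_rfl
        (nz_self J)).trans ?_
      refine iSup₂_le fun q hq => ?_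
      obtain ⟨i, j⟩ := q
      rw [Finset.HasAntidiagonal.mem_antidiagonal] at hq
      simp only at hq
      have h1 : ⁅T (i, j), J⁆ ≤ ⁅T (i, j), A⁆ ⊔ ⁅T (i, j), B⁆ :=
        comm_sup_right (hTJ _) hAJ hBJ (hTn _) nA nB
      refine h1.trans (sup_le ?_ ?_)
      · have h2 : ⁅T (i, j), A⁆ ≤ T (i + 1, j) := by
          refine le_inf ?_ ?_
          · exact (commutator_mono inf_le_left le_rfl).trans (rbA_comm nA i)
          · exact (commutator_mono inf_le_right hAJ).trans (comm_le_left (rbA_nz nB j))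
        refine h2.trans ?_
        exact le_iSup₂ (f := fun q (_ : q ∈ Finset.HasAntidiagonal.antidiagonal (m + 1 + 1)) => T q)
          (i + 1, j) (by rw [Finset.HasAntidiagonal.mem_antidiagonal]; show i + 1 + j = m + 1 + 1; omega)
      · have h2 : ⁅T (i, j), B⁆ ≤ T (i, j + 1) := by
          refine le_inf ?_ ?_
          · exact (commutator_mono inf_le_left hBJ).trans (comm_le_left (rbA_nz nA i))
          · exact (commutator_mono inf_le_right le_rfl).trans (rbA_comm nB j)
        refine h2.trans ?_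
        exact le_iSup₂ (f := fun q (_ : q ∈ Finset.HasAntidiagonal.antidiagonal (m + 1 + 1)) => T q)
          (i, j + 1) (by rw [Finset.HasAntidiagonal.mem_antidiagonal]; show i + (j + 1) = m + 1 + 1; omega)
  obtain ⟨c, hc⟩ := exists_lcs_eq_res A
  obtain ⟨d, hd⟩ := exists_lcs_eq_res B
  refine ((res_le_lcs J (c + d + 1)).trans (key _)).trans ?_
  refine iSup₂_le fun q hq => ?_
  obtain ⟨i, j⟩ := q
  rw [Finset.HasAntidiagonal.mem_antidiagonal] at hq
  simp only at hq
  rcases Nat.lt_or_ge c i with h | h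
  · refine le_sup_of_le_left (inf_le_left.trans ?_)
    obtain ⟨i', rfl⟩ : ∃ i', i = i' + 1 := ⟨i - 1, by omega⟩
    show lcs A i' ≤ res A
    rw [← hc]
    exact lcs_anti A (by omega)
  · refine le_sup_of_le_right (inf_le_right.trans ?_)
    obtain ⟨j', rfl⟩ : ∃ j', j = j' + 1 := ⟨j - 1, by omega⟩
    show lcs B j' ≤ res B
    rw [← hd]
    exact lcs_anti B (by omega)

private theorem rb_one [Finite G] {ι : Type*} (s : Finset ι) (A : ι → Subgroup G)
    (L : Subgroup G) (hA : ∀ i ∈ s, A i ≤ L) (hn : ∀ i ∈ s, Nz L (A i)) :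
    res (⨆ i ∈ s, A i) ≤ ⨆ i ∈ s, res (A i) := by
  classical
  induction s using Finset.induction_on with
  | empty =>
    simp only [Finset.notMem_empty, iSup_false, iSup_bot]
    exact res_le _
  | insert a s has ih =>
    rw [Finset.iSup_insert, Finset.iSup_insert]
    have hs1 : ∀ i ∈ s, A i ≤ L := fun i hi => hA i (Finset.mem_insert_of_mem hi)
    have hs2 : ∀ i ∈ s, Nz L (A i) := fun i hi => hn i (Finset.mem_insert_of_mem hi)
    have ha1 := hA a (Finset.mem_insert_self _ _)
    have ha2 := hn a (Finset.mem_insert_self _ _)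
    have h1 : Nz L (⨆ i ∈ s, A i) := nz_biSup s A L hs2
    have h2 : (⨆ i ∈ s, A i) ≤ L := iSup₂_le hs1
    exact (res_sup_le (A a) (⨆ i ∈ s, A i) (h1.mono ha1) (ha2.mono h2)).trans
      (sup_le_sup le_rfl (ih hs1 hs2))

theorem resI_biSup_le [Finite G] {ι : Type*} (s : Finset ι) (A : ι → Subgroup G)
    (L : Subgroup G) (hA : ∀ i ∈ s, A i ≤ L) (hn : ∀ i ∈ s, Nz L (A i)) (n : ℕ) :
    res^[n] (⨆ i ∈ s, A i) ≤ ⨆ i ∈ s, res^[n] (A i) := by
  induction n with
  | zero => exact le_rfl
  | succ n ih =>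
    rw [Function.iterate_succ_apply']
    refine (res_mono ih).trans ?_
    refine (rb_one s (fun i => res^[n] (A i)) L (fun i hi => (resI_le _ _).trans (hA i hi))
      (fun i hi => nz_resI (hn i hi) n)).trans ?_
    refine iSup₂_mono fun i _ => ?_
    rw [Function.iterate_succ_apply']

end Pool.Agent.Work.MP_b44cb1_al
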