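import Pool.Agent.Work.MP_b44cb1_al.CommCop

/-!
# TowerA  (size M)  : elementary facts on towers, part 1

`T : Tower P p n`. Everything is elementary; `Gs P (i+1) = Gs P i ⊔ P i` with `Gs P i`
normalising `P i` for `i < n`.
* `gs_mono`, `le_gs`, `nn_le` (`NN P c d ≤ Gs P d`), `le_nn`: clear.
  `gs_nz`: for `j ≤ i < n`, `Gs P j ≤ Gs P i` normalises `P i`. `gs_nz_self`: `Gs P i` and `P i`
  normalise `P i` (`nz_iff`, `sup_le`).
* `exists_card`: `P i` is a nontrivial `p i`-group (`a ^ p i = 1`), so `|P i| = p i ^ k`, `k ≥ 1`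
  (`IsPGroup.iff_card`).
* `cop_card`: from `cop` and `exists_card`, for every subgroup `A ≤ Gs P i`
  (`Nat.card A ∣ Nat.card (Gs P i)`: `Subgroup.card_dvd_of_le`). `inf_bot` from coprimality.
* `mem_gs_succ`: `coe_mul_of_left_le_normalizer_right` (the carrier of `Gs P i ⊔ P i` is the
  product set). `card_gs_succ`: the map `Gs P i × P i → Gs P (i+1)` is a bijection.
* `p_ne`: for `j < i < n`, `P j ≤ Gs P i`, so `p j ∣ |P j| ∣ |Gs P i|` but `¬ p i ∣ |Gs P i|`.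
-/

set_option autoImplicit false

namespace Pool.Agent.Work.MP_b44cb1_al

open Subgroup
open scoped commutatorElement

variable {G : Type*} [Group G]

theorem gs_mono (P : ℕ → Subgroup G) {i j : ℕ} (h : i ≤ j) : Gs P i ≤ Gs P j := by
  have : Monotone (Gs P) := monotone_nat_of_le_succ fun n => le_sup_left
  exact this h

theorem le_gs (P : ℕ → Subgroup G) {i j : ℕ} (h : i < j) : P i ≤ Gs P j := by
  have h1 : P i ≤ Gs P (i + 1) := le_sup_right
  exact h1.trans (gs_mono P h)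

theorem nn_le (P : ℕ → Subgroup G) (c d : ℕ) : NN P c d ≤ Gs P d := by
  refine iSup₂_le fun i hi => le_gs P (Finset.mem_Ico.1 hi).2

theorem le_nn (P : ℕ → Subgroup G) {c d i : ℕ} (h1 : c ≤ i) (h2 : i < d) : P i ≤ NN P c d := by
  exact le_iSup₂ (f := fun i (_ : i ∈ Finset.Ico c d) => P i) i (Finset.mem_Ico.2 ⟨h1, h2⟩)

variable {P : ℕ → Subgroup G} {p : ℕ → ℕ} {n : ℕ}

theorem Tower.gs_nz (T : Tower P p n) {i j : ℕ} (hji : j ≤ i) (hi : i < n) :
    Nz (Gs P j) (P i) := by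
  exact (T.norm i hi).mono (gs_mono P hji)

theorem Tower.gs_nz_self (T : Tower P p n) {i : ℕ} (hi : i < n) : Nz (Gs P (i + 1)) (P i) := by
  rw [nz_iff, gs_succ]
  exact sup_le (nz_iff.1 (T.norm i hi)) (nz_iff.1 (nz_self (P i)))

theorem Tower.exists_card [Finite G] (T : Tower P p n) {i : ℕ} (hi : i < n) :
    ∃ k, 1 ≤ k ∧ Nat.card (P i) = p i ^ k := by
  have : Fact (p i).Prime := ⟨T.prime i hi⟩
  have h1 : IsPGroup (p i) (P i) := by
    intro g
    refine ⟨1, ?_⟩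
    apply Subtype.ext
    rw [pow_one]
    push_cast
    exact T.expo i hi g g.2
  obtain ⟨k, hk⟩ := IsPGroup.iff_card.1 h1
  refine ⟨k, ?_, hk⟩
  rcases Nat.eq_zero_or_pos k with h0 | h0
  · exfalso
    rw [h0, pow_zero] at hk
    exact T.nontriv i hi (Subgroup.card_eq_one.1 hk)
  · exact h0

theorem Tower.cop_card [Finite G] (T : Tower P p n) {i : ℕ} (hi : i < n) (A : Subgroup G)
    (hA : A ≤ Gs P i) : (Nat.card (P i)).Coprime (Nat.card A) := by
  obtain ⟨k, -, hk⟩ := T.exists_card hi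
  rw [hk]
  refine Nat.Coprime.pow_left k ((T.prime i hi).coprime_iff_not_dvd.2 ?_)
  intro h
  exact T.cop i hi (h.trans (Subgroup.card_dvd_of_le hA))

theorem Tower.inf_bot [Finite G] (T : Tower P p n) {i : ℕ} (hi : i < n) :
    Gs P i ⊓ P i = ⊥ := by
  exact Subgroup.inf_eq_bot_of_coprime (T.cop_card hi _ le_rfl).symm

theorem Tower.mem_gs_succ (T : Tower P p n) {i : ℕ} (hi : i < n) {x : G}
    (hx : x ∈ Gs P (i + 1)) : ∃ g ∈ Gs P i, ∃ v ∈ P i, x = g * v := by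
  rw [gs_succ, ← SetLike.mem_coe, coe_mul_of_left_le_normalizer_right _ _
    (nz_iff.1 (T.norm i hi))] at hx
  obtain ⟨g, hg, v, hv, hgv⟩ := hx
  exact ⟨g, hg, v, hv, hgv.symm⟩

theorem Tower.card_gs_succ [Finite G] (T : Tower P p n) {i : ℕ} (hi : i < n) :
    Nat.card (Gs P (i + 1)) = Nat.card (Gs P i) * Nat.card (P i) := by
  rw [← Nat.card_prod]
  symm
  refine Nat.card_eq_of_bijective (fun x : Gs P i × P i =>
    (⟨x.1 * x.2, mul_mem (gs_mono P (Nat.le_succ i) x.1.2)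
      (le_gs P (Nat.lt_succ_self i) x.2.2)⟩ : Gs P (i + 1))) ⟨?_, ?_⟩
  · rintro ⟨g, v⟩ ⟨g', v'⟩ h
    have h1 : (g : G) * v = g' * v' := congrArg (fun x : Gs P (i + 1) => (x : G)) h
    have h2 : (g' : G)⁻¹ * g = v' * (v : G)⁻¹ := by
      rw [inv_mul_eq_iff_eq_mul, ← mul_assoc, ← h1, mul_assoc, mul_inv_cancel, mul_one]
    have h3 : (g' : G)⁻¹ * g ∈ Gs P i ⊓ P i := by
      refine Subgroup.mem_inf.2 ⟨mul_mem (inv_mem g'.2) g.2, ?_⟩
      rw [h2]
      exact mul_mem v'.2 (inv_mem v.2)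
    rw [T.inf_bot hi, Subgroup.mem_bot] at h3
    have h4 : (g' : G) = g := inv_mul_eq_one.1 h3
    have h5 : (v' : G) = v := by
      rw [h3] at h2
      exact (mul_inv_eq_one.1 h2.symm)
    rw [Prod.mk.injEq]
    exact ⟨Subtype.ext h4.symm, Subtype.ext h5.symm⟩
  · rintro ⟨x, hx⟩
    obtain ⟨g, hg, v, hv, rfl⟩ := T.mem_gs_succ hi hx
    exact ⟨⟨⟨g, hg⟩, ⟨v, hv⟩⟩, rfl⟩

theorem Tower.p_ne [Finite G] (T : Tower P p n) {i j : ℕ} (hji : j < i) (hi : i < n) :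
    p j ≠ p i := by
  intro h
  obtain ⟨k, hk1, hk⟩ := T.exists_card (hji.trans hi)
  apply T.cop i hi
  rw [← h]
  have h1 : p j ∣ Nat.card (P j) := by
    rw [hk]
    exact dvd_pow_self _ (by omega)
  exact h1.trans (Subgroup.card_dvd_of_le (le_gs P hji))

end Pool.Agent.Work.MP_b44cb1_al
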